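import Pool.Agent.Helper33.MRB.Defs
import Pool.Agent.Helper11.MRA.Cheb

/-!
# MRB-B05: Chebyshev's lower bound on a dyadic interval

Proof. Central binomial coefficient: `4^P / (2P) ≤ centralBinom P`
(`Nat.four_pow_le_two_mul_self_mul_centralBinom` or similar). In
`centralBinom P = ∏_{p ≤ 2P} p^{v_p}`: the primes `p > P` have `v_p ≤ 1` and contribute at most
`(2P)^{card (dyP P)}`; primes `2P/3 < p ≤ P` do not divide (for `P > 2`); the primes
`√(2P) < p ≤ 2P/3` contribute at most `primorial (2P/3) ≤ 4^(2P/3)`; the primes `p ≤ √(2P)` at most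
`(2P)^√(2P)`. (All in `Mathlib/NumberTheory/Bertrand.lean` and
`Mathlib/Data/Nat/Choose/Factorization.lean`.) So
`card (dyP P) log (2P) ≥ (P/3) log 4 - √(2P) log (2P) - log (2P)`, which is `≥ c P` for large `P`;
for the remaining `P ≥ 2` use Bertrand's postulate (`Nat.exists_prime_lt_and_le_two_mul`):
`card (dyP P) ≥ 1`. (Large `P`: `MRA.cheb`.)
-/

set_option autoImplicit false

namespace MRB

open Finset MRP

theorem one_le_card_dyP (P : ℕ) (hP : 1 ≤ P) : 1 ≤ (dyP P).card := by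
  obtain ⟨p, hp, h1, h2⟩ := Nat.exists_prime_lt_and_le_two_mul P (by omega)
  exact Finset.card_pos.2 ⟨p, Finset.mem_filter.2 ⟨Finset.mem_Ioc.2 ⟨h1, h2⟩, hp⟩⟩

theorem cheb_dyadic : ∃ c : ℝ, 0 < c ∧ ∀ P : ℕ, 2 ≤ P →
    c * P / Real.log P ≤ ((dyP P).card : ℝ) := by
  obtain ⟨c, hc, P0, hP0, h⟩ := MRA.cheb
  have hP0R : (3 : ℝ) ≤ P0 := by exact_mod_cast hP0
  have hl2 : 0 < Real.log 2 := Real.log_pos (by norm_num)
  refine ⟨min c (Real.log 2 / P0), lt_min hc (by positivity), fun P hP => ?_⟩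
  have hPR : (2 : ℝ) ≤ P := by exact_mod_cast hP
  have hlog : Real.log 2 ≤ Real.log P := Real.log_le_log (by norm_num) hPR
  have hlogpos : 0 < Real.log P := hl2.trans_le hlog
  by_cases hb : P0 ≤ P
  · refine le_trans ?_ (h P hb)
    gcongr
    exact min_le_left _ _
  · have h1 : (1 : ℝ) ≤ ((dyP P).card : ℝ) := by
      exact_mod_cast one_le_card_dyP P (by omega)
    refine le_trans ?_ h1
    rw [div_le_one hlogpos]
    have hPP0 : (P : ℝ) ≤ P0 := by exact_mod_cast (Nat.le_of_lt (Nat.lt_of_not_ge hb))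
    calc min c (Real.log 2 / P0) * P ≤ (Real.log 2 / P0) * P0 := by
          gcongr
          exact min_le_right _ _
      _ = Real.log 2 := by field_simp
      _ ≤ Real.log P := hlog

end MRB
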