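import Pool.Agent.Helper33.MRB.Defs

/-!
# MRB-B01: lower bound for the Selberg sum in dimension two

`G (OP R) two1 R = ∑_{D ⊆ OP R, ∏ D ≤ R} ∏_{p ∈ D} 2 / (p - 2)`.

Proof. Let `f(k) = 2^Ω(k) / k` (completely multiplicative) and, for a finite set `S` of odd primes,
`T_S(x) = ∑_{1 ≤ k ≤ x, k.primeFactors ⊆ S} f(k)`.

1. `T_S(x) ≤ G S two1 x` for every finite set `S` of odd primes and every `x`, by induction on `S`:
   `T_{S ∪ p}(x) = T_S(x) + (2/p) T_{S ∪ p}(x/p)` (split by `p ∣ k`, write `k = p k'`), hence by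
   strong induction on `x`: `T_{S ∪ p}(x) ≤ (1 - 2/p)⁻¹ T_S(x)` and so
   `T_{S ∪ p}(x) ≤ T_S(x) + (2/(p-2)) T_S(x/p)`, to be compared with
   `Pool.Agent.Helper9.GLower.G_insert`. (The same argument for `2 ↦ 1` is
   `Pool.Agent.TN.TH_le_G` in `Pool/Agent/Helper30/TN/Sieve.lean`; the sets `K S x` and sums
   `T F S x`, with the splitting lemma `T_split`, are in `Pool/Agent/Helper9/ChiSum.lean`.)
2. With `S = OP R`: `T_S(R) = ∑_{k ≤ R odd} 2^Ω(k)/k ≥ ∑_{k ≤ R odd} τ(k)/k ≥ (∑_{a ≤ √R odd} 1/a)²`,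
   because the number of `(a, b)` with `a b = k` is `τ(k) ≤ 2^Ω(k)`.
3. `∑_{a ≤ y odd} 1/a ≥ (1/2) ∑_{a ≤ y} 1/a ≥ (1/2) log (y+1)`, with `y = Nat.sqrt R`, and
   `log (Nat.sqrt R + 1) ≥ (1/2) log R`.
-/

set_option autoImplicit false

namespace MRB

open Finset MRP Pool.Agent.Helper9.Selberg Pool.Agent.Helper9.ChiSum Pool.Agent.Helper9.GLower

/-- The completely multiplicative function `2 ^ Ω(k) / k`. -/
noncomputable def b01f (k : ℕ) : ℝ := (2 : ℝ) ^ (ArithmeticFunction.cardFactors k) / k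

theorem b01f_nonneg (k : ℕ) : 0 ≤ b01f k := by
  unfold b01f
  positivity

theorem b01f_mul {p k : ℕ} (hp : p.Prime) (hk : k ≠ 0) : b01f (p * k) = 2 / (p : ℝ) * b01f k := by
  unfold b01f
  rw [ArithmeticFunction.cardFactors_mul hp.ne_zero hk,
    ArithmeticFunction.cardFactors_apply_prime hp]
  push_cast
  rw [pow_add, pow_one, div_mul_div_comm]

theorem b01_insert {S : Finset ℕ} {p : ℕ} (hp : p.Prime) (h3 : 3 ≤ p) (hpS : p ∉ S) (x : ℕ) :
    T b01f (insert p S) x ≤ T b01f S x + 2 / ((p : ℝ) - 2) * T b01f S (x / p) := by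
  have hp3 : (3 : ℝ) ≤ p := by exact_mod_cast h3
  have key : ∀ y, T b01f (insert p S) y ≤
      T b01f S y + 2 / (p : ℝ) * T b01f (insert p S) (y / p) := by
    intro y
    rw [T_split b01f hp hpS y]
    gcongr
    unfold T
    rw [Finset.mul_sum]
    apply Finset.sum_le_sum
    intro k hk
    rw [mem_K] at hk
    exact (b01f_mul hp (by omega)).le
  have h3 := key (x / p)
  have h4 : T b01f (insert p S) (x / p / p) ≤ T b01f (insert p S) (x / p) :=
    T_mono b01f_nonneg (Nat.div_le_self _ _)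
  have h5 : 2 / (p : ℝ) * T b01f (insert p S) (x / p / p) ≤
      2 / (p : ℝ) * T b01f (insert p S) (x / p) := by
    apply mul_le_mul_of_nonneg_left h4; positivity
  have h6 : T b01f (insert p S) (x / p) * (1 - 2 / (p : ℝ)) ≤ T b01f S (x / p) := by linarith
  have h7 : 2 / (p : ℝ) * T b01f (insert p S) (x / p) ≤
      2 / ((p : ℝ) - 2) * T b01f S (x / p) := by
    have e : 2 / (p : ℝ) * T b01f (insert p S) (x / p) =
        2 / ((p : ℝ) - 2) * (T b01f (insert p S) (x / p) * (1 - 2 / (p : ℝ))) := by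
      have : (p : ℝ) - 2 ≠ 0 := by linarith
      field_simp
    rw [e]
    apply mul_le_mul_of_nonneg_left h6
    apply div_nonneg (by norm_num); linarith
  linarith [key x]

theorem b01_T_le_G (S : Finset ℕ) (hS : ∀ p ∈ S, p.Prime ∧ 3 ≤ p) :
    ∀ x, T b01f S x ≤ G S two1 x := by
  classical
  induction S using Finset.induction_on with
  | empty =>
    intro x
    rcases Nat.eq_zero_or_pos x with h | h
    · subst h
      rw [G_zero _ _ (by simp)]
      unfold T K
      simp
    · have e1 : K ∅ x = {1} := by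
        ext k
        rw [mem_K, Finset.mem_singleton, Finset.subset_empty]
        constructor
        · rintro ⟨⟨h1, _⟩, h3⟩
          rw [Nat.primeFactors_eq_empty] at h3
          omega
        · rintro rfl
          simp; omega
      have e2 : fam (∅ : Finset ℕ) x = {∅} := by
        ext D
        rw [mem_fam, Finset.mem_singleton, Finset.subset_empty]
        constructor
        · exact fun h => h.1
        · rintro rfl
          simp; omega
      unfold T G
      rw [e1, e2, Finset.sum_singleton, Finset.sum_singleton]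
      unfold b01f g
      simp
  | insert p S hpS ih =>
    intro x
    have hp := hS p (Finset.mem_insert_self _ _)
    have ih' := ih (fun q hq => hS q (Finset.mem_insert_of_mem hq))
    rw [G_insert two1 hp.1 hpS]
    have h1 := b01_insert hp.1 hp.2 hpS x
    have hp2 : (3 : ℝ) ≤ p := by exact_mod_cast hp.2
    have h2 : ((two1 p : ℕ) : ℝ) / ((p : ℝ) - (two1 p : ℕ)) = 2 / ((p : ℝ) - 2) := by
      unfold two1; push_cast; rfl
    rw [h2]
    have h3 : 0 ≤ 2 / ((p : ℝ) - 2) := div_nonneg (by norm_num) (by linarith)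
    have h4 := mul_le_mul_of_nonneg_left (ih' (x / p)) h3
    have h5 := ih' x
    linarith

/-- The number of divisors is at most `2 ^ Ω(k)`. -/
theorem b01_card_divisors (k : ℕ) :
    k.divisors.card ≤ 2 ^ (ArithmeticFunction.cardFactors k) := by
  classical
  induction k using Nat.recOnMul with
  | zero => simp
  | one => simp
  | prime p hp =>
    rw [ArithmeticFunction.cardFactors_apply_prime hp, hp.divisors]
    exact Finset.card_le_two
  | mul a b ha hb =>
    rcases Nat.eq_zero_or_pos a with h | h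
    · subst h; simp
    rcases Nat.eq_zero_or_pos b with h' | h'
    · subst h'; simp
    rw [ArithmeticFunction.cardFactors_mul h.ne' h'.ne', pow_add]
    have e : (a * b).divisors ⊆
        (a.divisors ×ˢ b.divisors).image (fun x => x.1 * x.2) := by
      intro d hd
      rw [Nat.mem_divisors] at hd
      obtain ⟨x, y, hx, hy, hxy⟩ := (Nat.dvd_mul).1 hd.1
      rw [Finset.mem_image]
      refine ⟨(x, y), ?_, hxy⟩
      rw [Finset.mem_product, Nat.mem_divisors, Nat.mem_divisors]
      exact ⟨⟨hx, h.ne'⟩, ⟨hy, h'.ne'⟩⟩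
    calc (a * b).divisors.card ≤ ((a.divisors ×ˢ b.divisors).image (fun x => x.1 * x.2)).card :=
          Finset.card_le_card e
      _ ≤ (a.divisors ×ˢ b.divisors).card := Finset.card_image_le
      _ = a.divisors.card * b.divisors.card := Finset.card_product _ _
      _ ≤ _ := Nat.mul_le_mul ha hb

/-- Odd numbers up to `y`. -/
def b01O (y : ℕ) : Finset ℕ := (Finset.Icc 1 y).filter (fun a => a % 2 = 1)

theorem b01_odd_harm (y : ℕ) :
    (∑ a ∈ Finset.Icc 1 y, 1 / (a : ℝ)) ≤
      2 * (∑ a ∈ b01O y, 1 / (a : ℝ)) - (if y % 2 = 1 then 1 / (y : ℝ) else 0) := by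
  induction y with
  | zero => simp [b01O]
  | succ y ih =>
    rw [Finset.sum_Icc_succ_top (by omega)]
    rcases Nat.mod_two_eq_zero_or_one y with h | h
    · have h1 : (y + 1) % 2 = 1 := by omega
      have e : b01O (y + 1) = insert (y + 1) (b01O y) := by
        ext a
        unfold b01O
        simp only [Finset.mem_filter, Finset.mem_Icc, Finset.mem_insert]
        constructor
        · rintro ⟨⟨h1, h2⟩, h3⟩
          by_cases h4 : a = y + 1
          · exact Or.inl h4
          · exact Or.inr ⟨⟨h1, by omega⟩, h3⟩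
        · rintro (h4 | ⟨⟨h1, h2⟩, h3⟩)
          · subst h4; exact ⟨⟨by omega, le_refl _⟩, h1⟩
          · exact ⟨⟨h1, by omega⟩, h3⟩
      have hn : (y + 1) ∉ b01O y := by
        unfold b01O
        simp
      rw [e, Finset.sum_insert hn, if_pos h1]
      rw [if_neg (by omega)] at ih
      linarith
    · have h1 : ¬ (y + 1) % 2 = 1 := by omega
      have e : b01O (y + 1) = b01O y := by
        ext a
        unfold b01O
        simp only [Finset.mem_filter, Finset.mem_Icc]
        constructor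
        · rintro ⟨⟨h1, h2⟩, h3⟩
          refine ⟨⟨h1, ?_⟩, h3⟩
          by_contra h4
          have : a = y + 1 := by omega
          subst this
          omega
        · rintro ⟨⟨h1, h2⟩, h3⟩
          exact ⟨⟨h1, by omega⟩, h3⟩
      rw [e, if_neg h1]
      rw [if_pos h] at ih
      have hy : (0 : ℝ) < y := by
        have : 0 < y := by omega
        exact_mod_cast this
      have h5 : 1 / ((y + 1 : ℕ) : ℝ) ≤ 1 / (y : ℝ) := by
        apply one_div_le_one_div_of_le hy
        push_cast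
        linarith
      linarith

theorem b01_log_le (y : ℕ) : (1 / 2) * Real.log (y + 1) ≤ ∑ a ∈ b01O y, 1 / (a : ℝ) := by
  have h1 := log_add_one_le_harmonic y
  have h2 : ((harmonic y : ℚ) : ℝ) = ∑ a ∈ Finset.Icc 1 y, 1 / (a : ℝ) := by
    rw [harmonic_eq_sum_Icc]
    push_cast
    apply Finset.sum_congr rfl
    intro k _
    rw [one_div]
  have h3 := b01_odd_harm y
  have h4 : 0 ≤ (if y % 2 = 1 then 1 / (y : ℝ) else 0) := by
    split_ifs
    · positivity
    · exact le_refl _
  have h5 : Real.log (y + 1) ≤ ∑ a ∈ Finset.Icc 1 y, 1 / (a : ℝ) := by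
    rw [← h2]
    push_cast at h1
    exact h1
  linarith

theorem b01_sq_le (R y : ℕ) (hy : y * y ≤ R) :
    (∑ a ∈ b01O y, 1 / (a : ℝ)) ^ 2 ≤ T b01f (OP R) R := by
  classical
  have hmaps : ∀ x ∈ b01O y ×ˢ b01O y, x.1 * x.2 ∈ K (OP R) R := by
    intro x hx
    rw [Finset.mem_product] at hx
    unfold b01O at hx
    simp only [Finset.mem_filter, Finset.mem_Icc] at hx
    obtain ⟨⟨⟨h1, h2⟩, h3⟩, ⟨⟨h4, h5⟩, h6⟩⟩ := hx
    have hle : x.1 * x.2 ≤ R := (Nat.mul_le_mul h2 h5).trans hy
    rw [mem_K]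
    refine ⟨⟨Nat.mul_pos h1 h4, hle⟩, ?_⟩
    intro q hq
    have hq' := Nat.mem_primeFactors.1 hq
    unfold OP
    rw [Finset.mem_filter, Finset.mem_Icc]
    refine ⟨⟨?_, (Nat.le_of_dvd (Nat.mul_pos h1 h4) hq'.2.1).trans hle⟩, hq'.1⟩
    have hodd : (x.1 * x.2) % 2 = 1 := by
      rw [Nat.mul_mod, h3, h6]
    have h2q := hq'.1.two_le
    by_contra hlt
    have : q = 2 := by omega
    subst this
    have := Nat.mod_eq_zero_of_dvd hq'.2.1
    omega
  have e1 : (∑ a ∈ b01O y, 1 / (a : ℝ)) ^ 2 =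
      ∑ x ∈ b01O y ×ˢ b01O y, 1 / ((x.1 * x.2 : ℕ) : ℝ) := by
    rw [sq, Finset.sum_mul_sum, Finset.sum_product]
    apply Finset.sum_congr rfl
    intro a _
    apply Finset.sum_congr rfl
    intro b _
    push_cast
    rw [div_mul_div_comm, one_mul]
  rw [e1, ← Finset.sum_fiberwise_of_maps_to hmaps]
  unfold T
  apply Finset.sum_le_sum
  intro k hk
  have hk1 : 1 ≤ k := (mem_K.1 hk).1.1
  have hkpos : (0 : ℝ) < k := by exact_mod_cast hk1
  have e2 : ∑ x ∈ (b01O y ×ˢ b01O y).filter (fun x => x.1 * x.2 = k),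
      1 / ((x.1 * x.2 : ℕ) : ℝ) =
      (((b01O y ×ˢ b01O y).filter (fun x => x.1 * x.2 = k)).card : ℝ) * (1 / (k : ℝ)) := by
    rw [← nsmul_eq_mul, ← Finset.sum_const]
    apply Finset.sum_congr rfl
    intro x hx
    rw [(Finset.mem_filter.1 hx).2]
  rw [e2]
  have hcard : ((b01O y ×ˢ b01O y).filter (fun x => x.1 * x.2 = k)).card ≤ k.divisors.card := by
    refine Finset.card_le_card_of_injOn (fun x => x.1) ?_ ?_
    · intro x hx
      rw [Finset.mem_coe, Finset.mem_filter] at hx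
      rw [Finset.mem_coe, Nat.mem_divisors]
      exact ⟨⟨x.2, hx.2.symm⟩, by omega⟩
    · intro x hx z hz hxz
      rw [Finset.mem_coe, Finset.mem_filter] at hx hz
      have hxz' : x.1 = z.1 := hxz
      have h1 : x.1 ≠ 0 := by
        intro h0
        have := hx.2
        rw [h0, zero_mul] at this
        omega
      have h2 : x.1 * x.2 = x.1 * z.2 := by
        rw [hx.2, hxz', hz.2]
      exact Prod.ext hxz' (Nat.eq_of_mul_eq_mul_left (Nat.pos_of_ne_zero h1) h2)
  have h2 := hcard.trans (b01_card_divisors k)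
  have h3 : (((b01O y ×ˢ b01O y).filter (fun x => x.1 * x.2 = k)).card : ℝ) ≤
      (2 : ℝ) ^ (ArithmeticFunction.cardFactors k) := by exact_mod_cast h2
  unfold b01f
  rw [mul_one_div]
  gcongr

theorem log_sq_le_G (R : ℕ) (hR : 1 ≤ R) : (Real.log R) ^ 2 / 16 ≤ G (OP R) two1 R := by
  have h1 := b01_T_le_G (OP R) (fun p hp => by
    unfold OP at hp
    rw [Finset.mem_filter, Finset.mem_Icc] at hp
    exact ⟨hp.2, hp.1.1⟩) R
  have h2 := b01_sq_le R (Nat.sqrt R) (Nat.sqrt_le R)
  have h3 := b01_log_le (Nat.sqrt R)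
  have hR0 : (0 : ℝ) < R := by exact_mod_cast hR
  have hlog0 : 0 ≤ Real.log R := Real.log_nonneg (by exact_mod_cast hR)
  have h4 : Real.log R ≤ 2 * Real.log ((Nat.sqrt R : ℝ) + 1) := by
    have h5 : (R : ℝ) ≤ ((Nat.sqrt R : ℝ) + 1) ^ 2 := by
      have h6 := Nat.lt_succ_sqrt R
      have h7 : R ≤ (Nat.sqrt R + 1) * (Nat.sqrt R + 1) := h6.le
      have h8 : (R : ℝ) ≤ ((Nat.sqrt R + 1) * (Nat.sqrt R + 1) : ℕ) := by exact_mod_cast h7
      push_cast at h8
      rw [sq]
      exact h8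
    calc Real.log R ≤ Real.log (((Nat.sqrt R : ℝ) + 1) ^ 2) := Real.log_le_log hR0 h5
      _ = 2 * Real.log ((Nat.sqrt R : ℝ) + 1) := by
          rw [Real.log_pow]
          norm_num
  have h6 : (1 / 4) * Real.log R ≤ ∑ a ∈ b01O (Nat.sqrt R), 1 / (a : ℝ) := by linarith
  calc (Real.log R) ^ 2 / 16 = ((1 / 4) * Real.log R) ^ 2 := by ring
    _ ≤ (∑ a ∈ b01O (Nat.sqrt R), 1 / (a : ℝ)) ^ 2 :=
        pow_le_pow_left₀ (by positivity) h6 2
    _ ≤ T b01f (OP R) R := h2
    _ ≤ _ := h1

end MRB
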