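import Pool.Agent.Helper33.MRB.B01

/-!
# MRB-B02: removing the primes dividing `h` from the sieving set

Proof. `OP R = Q ∪ SH h R` with `Q` the odd primes `≤ R` dividing `h`. Inserting one prime `p` into
a set `S` of odd primes: by `Pool.Agent.Helper9.GLower.G_insert` and `G_mono`
`G (insert p S) two1 x ≤ (1 + 2/(p-2)) G S two1 x = (1 - 2/p)⁻¹ G S two1 x`. So
`G (OP R) two1 R ≤ (∏_{q ∈ Q} (1 - 2/q)⁻¹) G (SH h R) two1 R` (the same argument with `2 ↦ 1` is
`Pool.Agent.TN.G_remove` in `Pool/Agent/Helper30/TN/Sieve.lean`), the product is at most `kap h`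
(all factors are `≥ 1`, `Q ⊆ h.primeFactors.erase 2`), and use `log_sq_le_G`.
-/

set_option autoImplicit false

namespace MRB

open Finset MRP Pool.Agent.Helper9.Selberg

private lemma b02_factor {p : ℕ} (hp : 2 < p) :
    (1 - 2 / (p : ℝ))⁻¹ = 1 + 2 / ((p : ℝ) - 2) ∧ 0 ≤ 2 / ((p : ℝ) - 2) := by
  have hp2 : (2 : ℝ) < p := by exact_mod_cast hp
  have h1 : (p : ℝ) - 2 ≠ 0 := by linarith
  have h2 : (p : ℝ) ≠ 0 := by linarith
  refine ⟨?_, div_nonneg (by norm_num) (by linarith)⟩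
  have h3 : 1 - 2 / (p : ℝ) = ((p : ℝ) - 2) / p := by field_simp
  rw [h3, inv_div]
  field_simp
  ring

private lemma b02_one_le {p : ℕ} (hp : 2 < p) : 1 ≤ (1 - 2 / (p : ℝ))⁻¹ := by
  obtain ⟨h1, h2⟩ := b02_factor hp
  rw [h1]
  linarith

private lemma b02_mem_kap {h p : ℕ} (hp : p ∈ h.primeFactors.erase 2) : 2 < p := by
  rw [Finset.mem_erase] at hp
  have := (Nat.prime_of_mem_primeFactors hp.2).two_le
  omega

theorem one_le_kap (h : ℕ) : 1 ≤ kap h := by
  unfold kap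
  exact Finset.one_le_prod fun p hp => b02_one_le (b02_mem_kap hp)

private lemma b02_remove (S Q : Finset ℕ) (hS : ∀ p ∈ S, p.Prime ∧ 2 < p)
    (hQ : ∀ q ∈ Q, q.Prime ∧ 2 < q) (hd : Disjoint Q S) (x : ℕ) :
    G (Q ∪ S) two1 x ≤ (∏ q ∈ Q, (1 - 2 / (q : ℝ))⁻¹) * G S two1 x := by
  classical
  induction Q using Finset.induction_on with
  | empty => simp
  | insert p Q hpQ ih =>
    have hp := hQ p (Finset.mem_insert_self _ _)
    rw [Finset.disjoint_insert_left] at hd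
    have ih' := ih (fun q hq => hQ q (Finset.mem_insert_of_mem hq)) hd.2
    have h1 : p ∉ Q ∪ S := by
      rw [Finset.mem_union, not_or]
      exact ⟨hpQ, hd.1⟩
    have hall : ∀ q ∈ Q ∪ S, two1 q < q := by
      intro q hq
      rw [Finset.mem_union] at hq
      rcases hq with h | h
      · exact (hQ q (Finset.mem_insert_of_mem h)).2
      · exact (hS q h).2
    rw [Finset.insert_union, Finset.prod_insert hpQ,
      Pool.Agent.Helper9.GLower.G_insert two1 hp.1 h1]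
    have h2 : G (Q ∪ S) two1 (x / p) ≤ G (Q ∪ S) two1 x :=
      Pool.Agent.Helper9.GLower.G_mono (fun q _ => by unfold two1; norm_num) hall
        (Nat.div_le_self _ _)
    have h3 : ((two1 p : ℕ) : ℝ) / ((p : ℝ) - (two1 p : ℕ)) = 2 / ((p : ℝ) - 2) := by
      unfold two1
      push_cast
      rfl
    rw [h3]
    obtain ⟨e, h4⟩ := b02_factor hp.2
    have h5 := mul_le_mul_of_nonneg_left h2 h4
    have h6 : 0 ≤ (1 - 2 / (p : ℝ))⁻¹ := by
      rw [e]
      linarith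
    calc G (Q ∪ S) two1 x + 2 / ((p : ℝ) - 2) * G (Q ∪ S) two1 (x / p)
        ≤ G (Q ∪ S) two1 x + 2 / ((p : ℝ) - 2) * G (Q ∪ S) two1 x := by linarith
      _ = (1 - 2 / (p : ℝ))⁻¹ * G (Q ∪ S) two1 x := by
        rw [e]
        ring
      _ ≤ (1 - 2 / (p : ℝ))⁻¹ * ((∏ q ∈ Q, (1 - 2 / (q : ℝ))⁻¹) * G S two1 x) :=
          mul_le_mul_of_nonneg_left ih' h6
      _ = _ := by ring

private lemma b02_mem_OP {R p : ℕ} : p ∈ OP R ↔ (3 ≤ p ∧ p ≤ R) ∧ p.Prime := by
  unfold OP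
  rw [Finset.mem_filter, Finset.mem_Icc]

theorem log_sq_le_kap_G (R h : ℕ) (hR : 1 ≤ R) (hh : 1 ≤ h) :
    (Real.log R) ^ 2 / 16 ≤ kap h * G (SH h R) two1 R := by
  classical
  set Q : Finset ℕ := (OP R).filter (fun p => p ∣ h) with hQdef
  have hS : ∀ p ∈ SH h R, p.Prime ∧ 2 < p := by
    intro p hp
    unfold SH at hp
    rw [Finset.mem_filter, b02_mem_OP] at hp
    exact ⟨hp.1.2, hp.1.1.1⟩
  have hQ : ∀ q ∈ Q, q.Prime ∧ 2 < q := by
    intro q hq
    rw [hQdef, Finset.mem_filter, b02_mem_OP] at hq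
    exact ⟨hq.1.2, hq.1.1.1⟩
  have hd : Disjoint Q (SH h R) := by
    unfold SH
    exact Finset.disjoint_filter_filter_not _ _ _
  have hall : Q ∪ SH h R = OP R := by
    unfold SH
    exact Finset.filter_union_filter_not_eq _ _
  have h1 := b02_remove (SH h R) Q hS hQ hd R
  rw [hall] at h1
  have h2 := log_sq_le_G R hR
  have hsub : Q ⊆ h.primeFactors.erase 2 := by
    intro q hq
    have hq' := hQ q hq
    rw [hQdef, Finset.mem_filter] at hq
    rw [Finset.mem_erase]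
    exact ⟨by omega, Nat.mem_primeFactors.2 ⟨hq'.1, hq.2, by omega⟩⟩
  have h3 : ∏ q ∈ Q, (1 - 2 / (q : ℝ))⁻¹ ≤ kap h := by
    unfold kap
    rw [← Finset.prod_sdiff hsub]
    have h5 : 1 ≤ ∏ q ∈ h.primeFactors.erase 2 \ Q, (1 - 2 / (q : ℝ))⁻¹ :=
      Finset.one_le_prod fun p hp => b02_one_le (b02_mem_kap (Finset.mem_sdiff.1 hp).1)
    have h6 : 0 ≤ ∏ q ∈ Q, (1 - 2 / (q : ℝ))⁻¹ :=
      Finset.prod_nonneg fun q hq => by linarith [b02_one_le (hQ q hq).2]
    nlinarith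
  have h7 : 0 ≤ G (SH h R) two1 R := by
    unfold G
    apply Finset.sum_nonneg
    intro D hD
    have hDS := (mem_fam.1 hD).1
    unfold g
    apply Finset.prod_nonneg
    intro p hp
    have hp2 : (2 : ℝ) < p := by exact_mod_cast (hS p (hDS hp)).2
    unfold two1
    push_cast
    exact div_nonneg (by norm_num) (by linarith)
  exact h2.trans (h1.trans (mul_le_mul_of_nonneg_right h3 h7))

end MRB
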