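import Pool.Agent.Helper33.MRB.B02

/-!
# MRB-B03: upper bound sieve for `p, p + h` prime

Proof. Small `P` (bounded) are absorbed in the constant (`kap h ≥ 1`, `card ≤ P`). Let
`R = ⌊P^(1/6)⌋`. Apply `Pool.Agent.Helper9.Selberg.selberg_bound` with the set of primes `SH h R`,
`ρ = two1`, `X = range P`, `bad p s : p ∣ (P + 1 + s) * (P + 1 + s + h)`, `n = P`. If
`s = p' - P - 1` with `p' ∈ dyP P` and `p' + h` prime, then no `p ∈ SH h R` divides
`p' (p' + h)`, since `p ≤ R ≤ P < p'`. The hypothesis on counts is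
`Pool.Agent.Helper9.CountCRT.count_sets` with
`Z p = (range p).filter (fun x => p ∣ (P + 1 + x) * (P + 1 + x + h))`, which has exactly two
elements (the residues of `-(P+1)` and `-(P+1+h)`, distinct because `p` is odd, prime to `h`).
(Model: `Pool.Agent.TN.sieve_step`, `card_ZZ`, `dvd_iff_mod`, `sieve_count` in
`Pool/Agent/Helper30/TN/Sieve.lean`.) Result: `card ≤ P / G + R^4 ≤ 16 P kap h / (log R)² + P^(2/3)`
by `log_sq_le_kap_G`, and `log R ≥ c log P`, `P^(2/3) ≤ C P / (log P)²`.
-/

set_option autoImplicit false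

namespace MRB

open Finset MRP Pool.Agent.Helper9.Selberg

/-- residues `x` mod `p` with `p ∣ (T + x) * (T + x + h)`. -/
private def h45_ZZ (T h p : ℕ) : Finset ℕ := (range p).filter (fun x => p ∣ (T + x) * (T + x + h))

private theorem h45_card_ZZ (T h p : ℕ) (hp : p.Prime) (hh : ¬ p ∣ h) :
    (h45_ZZ T h p).card = 2 := by
  have : Fact p.Prime := ⟨hp⟩
  have he0 : (h : ZMod p) ≠ 0 := by
    rw [Ne, ZMod.natCast_eq_zero_iff]; exact hh
  set z : ZMod p := -(T : ZMod p) with hz
  set z' : ZMod p := -(T : ZMod p) - h with hz'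
  have hne : z ≠ z' := by
    intro h1
    apply he0
    rw [hz, hz'] at h1
    linear_combination h1
  have hkey : ∀ x : ℕ, p ∣ (T + x) * (T + x + h) ↔ ((x : ZMod p) = z ∨ (x : ZMod p) = z') := by
    intro x
    rw [← ZMod.natCast_eq_zero_iff]
    push_cast
    rw [mul_eq_zero]
    constructor
    · rintro (h1 | h1)
      · left
        rw [hz]
        linear_combination h1
      · right
        rw [hz']
        linear_combination h1
    · rintro (h1 | h1)
      · left
        rw [h1, hz]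
        ring
      · right
        rw [h1, hz']
        ring
  have h2 : h45_ZZ T h p = {z.val, z'.val} := by
    ext x
    unfold h45_ZZ
    rw [Finset.mem_filter, Finset.mem_range, Finset.mem_insert, Finset.mem_singleton, hkey]
    constructor
    · rintro ⟨h1, h2 | h2⟩
      · left
        rw [← h2, ZMod.val_natCast_of_lt h1]
      · right
        rw [← h2, ZMod.val_natCast_of_lt h1]
    · rintro (rfl | rfl)
      · exact ⟨ZMod.val_lt z, Or.inl (ZMod.natCast_zmod_val z)⟩
      · exact ⟨ZMod.val_lt z', Or.inr (ZMod.natCast_zmod_val z')⟩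
  rw [h2, Finset.card_pair]
  intro h3
  exact hne (ZMod.val_injective p h3)

private theorem h45_dvd_iff_mod (T h p s : ℕ) (hp : 0 < p) :
    p ∣ (T + s) * (T + s + h) ↔ s % p ∈ h45_ZZ T h p := by
  unfold h45_ZZ
  rw [Finset.mem_filter, Finset.mem_range]
  have h0 : T + s ≡ T + s % p [MOD p] := Nat.ModEq.add_left _ (Nat.mod_modEq s p).symm
  have h : (T + s) * (T + s + h) ≡ (T + s % p) * (T + s % p + h) [MOD p] :=
    Nat.ModEq.mul h0 (Nat.ModEq.add_right _ h0)
  rw [h.dvd_iff (dvd_refl p)]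
  constructor
  · intro h1; exact ⟨Nat.mod_lt _ hp, h1⟩
  · intro h1; exact h1.2

private lemma h45_mem_SH {h R p : ℕ} (hp : p ∈ SH h R) : p.Prime ∧ 2 < p ∧ p ≤ R ∧ ¬ p ∣ h := by
  unfold SH OP at hp
  rw [Finset.mem_filter, Finset.mem_filter, Finset.mem_Icc] at hp
  exact ⟨hp.1.2, by omega, hp.1.1.2, hp.2⟩

private theorem h45_sieve_step (P h R : ℕ) (hR : 1 ≤ R) (hRT : R ≤ P) :
    (((dyP P).filter (fun p => (p + h).Prime)).card : ℝ) ≤
      P / G (SH h R) two1 R + (R : ℝ) ^ 4 := by
  classical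
  have hSp : ∀ q ∈ SH h R, q.Prime := fun q hq => (h45_mem_SH hq).1
  have h := selberg_bound (P := SH h R) (ρ := two1) (R := R) hSp hR
    (fun q _ => by unfold two1; norm_num)
    (fun q hq => (h45_mem_SH hq).2.1) (range P) (fun p s => p ∣ (P + 1 + s) * (P + 1 + s + h))
    (P : ℝ) ?_
  · refine le_trans ?_ h
    rw [Nat.cast_le]
    apply Finset.card_le_card_of_injOn (fun t => t - (P + 1))
    · intro t ht
      rw [Finset.mem_coe, Finset.mem_filter] at ht
      obtain ⟨ht1, ht2⟩ := ht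
      unfold dyP at ht1
      rw [Finset.mem_filter, Finset.mem_Ioc] at ht1
      obtain ⟨⟨ht3, ht4⟩, ht5⟩ := ht1
      rw [Finset.mem_coe, Finset.mem_filter, Finset.mem_range]
      refine ⟨by dsimp only; omega, ?_⟩
      intro p hp hdvd
      have e1 : P + 1 + (t - (P + 1)) = t := by omega
      dsimp only at hdvd
      rw [e1] at hdvd
      obtain ⟨h2, h3, h4, h5⟩ := h45_mem_SH hp
      rcases (h2.dvd_mul).1 hdvd with h6 | h6
      · have := (Nat.prime_dvd_prime_iff_eq h2 ht5).1 h6
        omega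
      · have := (Nat.prime_dvd_prime_iff_eq h2 ht2).1 h6
        omega
    · intro t ht t' ht' htt
      rw [Finset.mem_coe, Finset.mem_filter] at ht ht'
      obtain ⟨ht1, ht2⟩ := ht
      obtain ⟨ht1', ht2'⟩ := ht'
      unfold dyP at ht1 ht1'
      rw [Finset.mem_filter, Finset.mem_Ioc] at ht1 ht1'
      dsimp only at htt
      omega
  · intro D hD
    have hDp : ∀ p ∈ D, p.Prime := fun p hp => hSp p (hD hp)
    have h1 := Pool.Agent.Helper9.CountCRT.count_sets hDp (fun p => h45_ZZ (P + 1) h p)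
      (fun p _ => Finset.filter_subset _ _) P
    have h2 : ∀ p ∈ D, (h45_ZZ (P + 1) h p).card = 2 := fun p hp =>
      h45_card_ZZ (P + 1) h p (hDp p hp) (h45_mem_SH (hD hp)).2.2.2
    have e1 : ∏ p ∈ D, ((h45_ZZ (P + 1) h p).card : ℝ) / p = w two1 D := by
      unfold w
      apply Finset.prod_congr rfl
      intro p hp
      rw [h2 p hp]; rfl
    have e2 : ∏ p ∈ D, ((h45_ZZ (P + 1) h p).card : ℝ) = ∏ p ∈ D, ((two1 p : ℕ) : ℝ) := by
      apply Finset.prod_congr rfl
      intro p hp
      rw [h2 p hp]; rfl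
    have e3 : ∀ s, (∀ p ∈ D, p ∣ (P + 1 + s) * (P + 1 + s + h)) ↔
        (∀ p ∈ D, s % p ∈ h45_ZZ (P + 1) h p) := by
      intro s
      constructor
      · intro h3 p hp; exact (h45_dvd_iff_mod (P + 1) h p s (hDp p hp).pos).1 (h3 p hp)
      · intro h3 p hp; exact (h45_dvd_iff_mod (P + 1) h p s (hDp p hp).pos).2 (h3 p hp)
    rw [e1, e2] at h1
    simp only [e3]
    convert h1

theorem pairs_le : ∃ C : ℝ, 0 < C ∧ ∀ P h : ℕ, 2 ≤ P → 1 ≤ h →
    (((dyP P).filter (fun p => (p + h).Prime)).card : ℝ) ≤ C * P * kap h / (Real.log P) ^ 2 := by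
  refine ⟨2340, by norm_num, ?_⟩
  intro P h hP hh
  have hP2 : (2 : ℝ) ≤ P := by exact_mod_cast hP
  have hP0 : (0 : ℝ) < P := by linarith
  have hk := one_le_kap h
  have hlogP : 0 < Real.log P := Real.log_pos (by linarith)
  have hlog2 : 0 < (Real.log P) ^ 2 := by positivity
  set y : ℝ := (P : ℝ) ^ (1 / 6 : ℝ) with hy
  have hy1 : 1 ≤ y := Real.one_le_rpow (by linarith) (by norm_num)
  have hy0 : 0 < y := by linarith
  have hy6 : y ^ 6 = P := by
    rw [hy, ← Real.rpow_natCast, ← Real.rpow_mul hP0.le]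
    norm_num
  have hlogy : Real.log P = 6 * Real.log y := by
    rw [← hy6, Real.log_pow]; norm_num
  have hlogy0 : 0 < Real.log y := by linarith
  have hlogyy : Real.log y ≤ y := by
    have := Real.log_le_sub_one_of_pos hy0
    linarith
  have hcard : (((dyP P).filter (fun p => (p + h).Prime)).card : ℝ) ≤ P := by
    rw [Nat.cast_le]
    refine (Finset.card_filter_le _ _).trans ?_
    unfold dyP
    refine (Finset.card_filter_le _ _).trans ?_
    rw [Nat.card_Ioc]
    omega
  by_cases hy2 : y < 2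
  · have h1 : Real.log P ≤ 12 := by linarith
    have h2 : (Real.log P) ^ 2 ≤ 144 := by nlinarith
    rw [le_div_iff₀ hlog2]
    calc (((dyP P).filter (fun p => (p + h).Prime)).card : ℝ) * (Real.log P) ^ 2
        ≤ P * 144 := mul_le_mul hcard h2 hlog2.le hP0.le
      _ ≤ 2340 * P * kap h := by nlinarith
  · push Not at hy2
    set R : ℕ := ⌊y⌋₊ with hRdef
    have hR2 : 2 ≤ R := Nat.le_floor (by exact_mod_cast hy2)
    have hR2' : (2 : ℝ) ≤ R := by exact_mod_cast hR2
    have hR1 : 1 ≤ R := by omega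
    have hRy : (R : ℝ) ≤ y := Nat.floor_le (by linarith)
    have hyR : y < R + 1 := Nat.lt_floor_add_one y
    have hRT : R ≤ P := by
      have h1 : y ≤ y ^ 6 := by
        calc y = y ^ 1 := (pow_one y).symm
          _ ≤ y ^ 6 := pow_le_pow_right₀ hy1 (by norm_num)
      have h2 : (R : ℝ) ≤ P := by rw [← hy6]; linarith
      exact_mod_cast h2
    have h1 := h45_sieve_step P h R hR1 hRT
    have h2 := log_sq_le_kap_G R h hR1 hh
    have hR0 : (0 : ℝ) < R := by linarith
    have hlogR : Real.log y ≤ 2 * Real.log R := by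
      have h3 : y ≤ (R : ℝ) ^ 2 := by nlinarith
      have h4 := Real.log_le_log hy0 h3
      rw [Real.log_pow] at h4
      push_cast at h4
      exact h4
    have hlogR0 : 0 < Real.log R := by linarith
    set G0 : ℝ := G (SH h R) two1 R with hG0
    have hG : 0 < G0 := by
      by_contra hcon
      have h3 : kap h * G0 ≤ 0 := by nlinarith
      have h4 : 0 < (Real.log R) ^ 2 / 16 := by positivity
      linarith
    have h3 : (P : ℝ) / G0 ≤ 2304 * P * kap h / (Real.log P) ^ 2 := by
      rw [div_le_div_iff₀ hG hlog2]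
      have h4 : (Real.log P) ^ 2 ≤ 144 * (Real.log R) ^ 2 := by
        have h5 : Real.log P ≤ 12 * Real.log R := by linarith
        nlinarith
      have h5 : (Real.log P) ^ 2 ≤ 2304 * (kap h * G0) := by linarith
      calc (P : ℝ) * (Real.log P) ^ 2 ≤ P * (2304 * (kap h * G0)) :=
            mul_le_mul_of_nonneg_left h5 hP0.le
        _ = _ := by ring
    have h5 : (R : ℝ) ^ 4 ≤ 36 * P * kap h / (Real.log P) ^ 2 := by
      have h6 : (R : ℝ) ^ 4 ≤ y ^ 4 := pow_le_pow_left₀ (by positivity) hRy 4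
      rw [le_div_iff₀ hlog2]
      have h7 : (Real.log P) ^ 2 ≤ 36 * y ^ 2 := by
        rw [hlogy]
        nlinarith
      calc (R : ℝ) ^ 4 * (Real.log P) ^ 2 ≤ y ^ 4 * (36 * y ^ 2) :=
            mul_le_mul h6 h7 hlog2.le (by positivity)
        _ = 36 * y ^ 6 := by ring
        _ = 36 * P := by rw [hy6]
        _ ≤ 36 * P * kap h := by nlinarith
    have h11 : 2340 * (P : ℝ) * kap h / (Real.log P) ^ 2 =
        2304 * P * kap h / (Real.log P) ^ 2 + 36 * P * kap h / (Real.log P) ^ 2 := by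
      ring
    rw [h11]
    linarith

end MRB
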