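import Pool.Agent.Helper33.MRB.Defs

/-!
# MRB-B04: the singular factor is bounded in mean square

Proof. Let `g(p) = (1 - 2/p)⁻² - 1 = (4p - 4)/(p-2)² ≤ 24/p` for odd primes `p`. Then
`kap(h)² = ∏_{p ∣ h, p odd} (1 + g(p)) = ∑_{D ⊆ odd primes dividing h} ∏_{p ∈ D} g(p)`. Hence
`∑_{h ≤ P} kap(h)² = ∑_D ∏_{p ∈ D} g(p) #{h ≤ P : ∏ D ∣ h} ≤ P ∑_{D ⊆ odd primes ≤ P} ∏_{p ∈ D} g(p)/p
= P ∏_{3 ≤ p ≤ P} (1 + g(p)/p) ≤ P exp (∑_{p ≥ 3} 24/p²) ≤ P exp 12`, since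
`∑_{k = 3}^{M} 1/k² ≤ 1/2`.
-/

set_option autoImplicit false

namespace MRB

open Finset MRP

private lemma h45_factor {p : ℕ} (hp : 3 ≤ p) :
    0 ≤ (1 - 2 / (p : ℝ))⁻¹ ∧ ((1 - 2 / (p : ℝ))⁻¹) ^ 2 ≤ 1 + 24 / (p : ℝ) := by
  have hp3 : (3 : ℝ) ≤ p := by exact_mod_cast hp
  have h1 : (0 : ℝ) < (p : ℝ) - 2 := by linarith
  have h2 : (0 : ℝ) < (p : ℝ) := by linarith
  have h3 : 1 - 2 / (p : ℝ) = ((p : ℝ) - 2) / p := by
    have : (p : ℝ) ≠ 0 := h2.ne'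
    field_simp
  rw [h3, inv_div]
  refine ⟨div_nonneg h2.le h1.le, ?_⟩
  have h4 : 1 + 24 / (p : ℝ) = (p + 24) / p := by
    have : (p : ℝ) ≠ 0 := h2.ne'
    field_simp
  rw [h4, div_pow, div_le_div_iff₀ (by positivity) h2]
  have h5 : 0 ≤ ((p : ℝ) - 3) * (5 * p - 8) := mul_nonneg (by linarith) (by linarith)
  nlinarith

private lemma h45_mem_OP {R p : ℕ} : p ∈ OP R ↔ (3 ≤ p ∧ p ≤ R) ∧ p.Prime := by
  unfold OP
  rw [Finset.mem_filter, Finset.mem_Icc]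

private lemma h45_kap_sq {P h : ℕ} (hh : h ∈ Finset.Icc 1 P) :
    (kap h) ^ 2 ≤ ∑ D ∈ (OP P).powerset,
      if (∀ p ∈ D, p ∣ h) then ∏ p ∈ D, (24 / (p : ℝ)) else 0 := by
  classical
  rw [Finset.mem_Icc] at hh
  have e1 : h.primeFactors.erase 2 = (OP P).filter (fun p => p ∣ h) := by
    ext p
    rw [Finset.mem_erase, Nat.mem_primeFactors, Finset.mem_filter, h45_mem_OP]
    constructor
    · rintro ⟨h1, h2, h3, h4⟩
      have := h2.two_le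
      have := Nat.le_of_dvd (by omega) h3
      exact ⟨⟨⟨by omega, by omega⟩, h2⟩, h3⟩
    · rintro ⟨⟨⟨h1, h2⟩, h3⟩, h4⟩
      exact ⟨by omega, h3, h4, by omega⟩
  have e2 : (kap h) ^ 2 ≤ ∏ p ∈ (OP P).filter (fun p => p ∣ h), (1 + 24 / (p : ℝ)) := by
    unfold kap
    rw [e1, ← Finset.prod_pow]
    apply Finset.prod_le_prod
    · intro p _
      positivity
    · intro p hp
      rw [Finset.mem_filter, h45_mem_OP] at hp
      exact (h45_factor hp.1.1.1).2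
  refine e2.trans (le_of_eq ?_)
  rw [Finset.prod_one_add, ← Finset.sum_filter]
  apply Finset.sum_congr _ (fun _ _ => rfl)
  ext D
  rw [Finset.mem_powerset, Finset.mem_filter, Finset.mem_powerset]
  constructor
  · intro h1
    exact ⟨fun p hp => (Finset.mem_filter.1 (h1 hp)).1, fun p hp => (Finset.mem_filter.1 (h1 hp)).2⟩
  · rintro ⟨h1, h2⟩ p hp
    exact Finset.mem_filter.2 ⟨h1 hp, h2 p hp⟩

private lemma h45_count {P : ℕ} {D : Finset ℕ} (hD : D ⊆ OP P) :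
    (((Finset.Icc 1 P).filter (fun h => ∀ p ∈ D, p ∣ h)).card : ℝ) ≤ P * ∏ p ∈ D, (1 / (p : ℝ)) := by
  classical
  have h1 : (Finset.Icc 1 P).filter (fun h => ∀ p ∈ D, p ∣ h) ⊆
      (Finset.Ioc 0 P).filter (fun h => (∏ p ∈ D, p) ∣ h) := by
    intro h hh
    rw [Finset.mem_filter, Finset.mem_Icc] at hh
    rw [Finset.mem_filter, Finset.mem_Ioc]
    refine ⟨by omega, ?_⟩
    exact Finset.prod_primes_dvd h (fun p hp => (h45_mem_OP.1 (hD hp)).2.prime) hh.2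
  have h2 := Finset.card_le_card h1
  rw [Nat.Ioc_filter_dvd_card_eq_div] at h2
  have h3 : (((Finset.Icc 1 P).filter (fun h => ∀ p ∈ D, p ∣ h)).card : ℝ) ≤
      ((P / (∏ p ∈ D, p) : ℕ) : ℝ) := by exact_mod_cast h2
  refine h3.trans (Nat.cast_div_le.trans (le_of_eq ?_))
  rw [div_eq_mul_one_div, Nat.cast_prod]
  simp only [one_div, Finset.prod_inv_distrib]

theorem sum_kap_sq : ∃ C : ℝ, 0 < C ∧ ∀ P : ℕ, ∑ h ∈ Finset.Icc 1 P, (kap h) ^ 2 ≤ C * P := by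
  classical
  refine ⟨Real.exp 24, Real.exp_pos _, ?_⟩
  intro P
  have h1 : ∑ h ∈ Finset.Icc 1 P, (kap h) ^ 2 ≤ ∑ h ∈ Finset.Icc 1 P, ∑ D ∈ (OP P).powerset,
      (if (∀ p ∈ D, p ∣ h) then ∏ p ∈ D, (24 / (p : ℝ)) else 0) :=
    Finset.sum_le_sum fun h hh => h45_kap_sq hh
  refine h1.trans ?_
  rw [Finset.sum_comm]
  have h2 : ∀ D ∈ (OP P).powerset, ∑ h ∈ Finset.Icc 1 P,
      (if (∀ p ∈ D, p ∣ h) then ∏ p ∈ D, (24 / (p : ℝ)) else 0) ≤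
        P * ∏ p ∈ D, (24 / (p : ℝ) ^ 2) := by
    intro D hD
    rw [Finset.mem_powerset] at hD
    rw [← Finset.sum_filter, Finset.sum_const, nsmul_eq_mul]
    have h3 : (0 : ℝ) ≤ ∏ p ∈ D, (24 / (p : ℝ)) := Finset.prod_nonneg fun p _ => by positivity
    refine (mul_le_mul_of_nonneg_right (h45_count hD) h3).trans (le_of_eq ?_)
    rw [mul_assoc, ← Finset.prod_mul_distrib]
    congr 1
    apply Finset.prod_congr rfl
    intro p _
    rw [div_mul_div_comm]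
    ring
  refine (Finset.sum_le_sum h2).trans ?_
  rw [← Finset.mul_sum, ← Finset.prod_one_add, mul_comm]
  apply mul_le_mul_of_nonneg_right _ (Nat.cast_nonneg P)
  have h4 : ∏ p ∈ OP P, (1 + 24 / (p : ℝ) ^ 2) ≤ ∏ p ∈ OP P, Real.exp (24 / (p : ℝ) ^ 2) := by
    apply Finset.prod_le_prod
    · intro p _
      positivity
    · intro p _
      have := Real.add_one_le_exp (24 / (p : ℝ) ^ 2)
      linarith
  refine h4.trans ?_
  rw [← Real.exp_sum, Real.exp_le_exp]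
  have h5 : ∑ p ∈ OP P, 24 / (p : ℝ) ^ 2 ≤ ∑ p ∈ Finset.Icc 2 (P + 1), 24 / (p : ℝ) ^ 2 := by
    apply Finset.sum_le_sum_of_subset_of_nonneg
    · intro p hp
      rw [h45_mem_OP] at hp
      rw [Finset.mem_Icc]
      omega
    · intro p _ _
      positivity
  refine h5.trans ?_
  have h6 := sum_Ioc_inv_sq_le_sub (α := ℝ) (k := 1) (n := P + 1) one_ne_zero (by omega)
  have h7 : ∑ p ∈ Finset.Icc 2 (P + 1), 24 / (p : ℝ) ^ 2 =
      24 * ∑ i ∈ Finset.Ioc 1 (P + 1), ((i : ℝ) ^ 2)⁻¹ := by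
    rw [Finset.mul_sum]
    have : Finset.Icc 2 (P + 1) = Finset.Ioc 1 (P + 1) := by
      ext x
      rw [Finset.mem_Icc, Finset.mem_Ioc]
      omega
    rw [this]
    apply Finset.sum_congr rfl
    intro i _
    rw [div_eq_mul_inv]
  rw [h7]
  have h8 : (0 : ℝ) ≤ ((P + 1 : ℕ) : ℝ)⁻¹ := by positivity
  have h9 : ((1 : ℕ) : ℝ)⁻¹ = 1 := by norm_num
  rw [h9] at h6
  linarith

end MRB
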