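import Pool.Agent.Helper33.MRB.B03
import Pool.Agent.Helper33.MRB.B04
import Pool.Agent.Helper33.MRB.B05

/-!
# MRB-B06: the additive energy of the primes in `(P, 2P]`

Proof. `p₁ + p₂ = p₃ + p₄` iff `p₁ - p₃ = p₄ - p₂ = h`. For `h = 0` there are `π²` solutions, for
`h ≠ 0` (`|h| < P`) there are `r(|h|)²`, `r(h) = #{p ∈ dyP P : p + h ∈ dyP P}
≤ #{p ∈ dyP P : p + h prime} ≤ C P kap(h)/(log P)²` (B03). So with `π = card (dyP P)`
`En P ≤ π² + 2 ∑_{1 ≤ h ≤ P} C² P² kap(h)²/(log P)^4 ≤ π² + C' P³/(log P)^4` (B04), and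
`π ≥ c P/log P` (B05) gives `P³/(log P)^4 ≤ c⁻⁴ π⁴/P` and `π² ≤ C'' π⁴/P` (`π² ≥ c² P²/(log P)² ≥ c' P`).
-/

set_option autoImplicit false

namespace MRB

open Finset MRP

/-- the pairs of primes of `dyP P` with difference `h` -/
private def b06R (P h : ℕ) : Finset ℕ := (dyP P).filter (fun p => p + h ∈ dyP P)

private lemma b06_mem_dyP {P p : ℕ} : p ∈ dyP P ↔ (P < p ∧ p ≤ 2 * P) ∧ p.Prime := by
  unfold dyP
  rw [Finset.mem_filter, Finset.mem_Ioc]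

private lemma b06_En_le (P : ℕ) :
    En P ≤ (dyP P).card ^ 2 + 2 * ∑ h ∈ Finset.Icc 1 P, (b06R P h).card ^ 2 := by
  classical
  unfold En
  set S := ((dyP P ×ˢ dyP P) ×ˢ (dyP P ×ˢ dyP P)).filter
    (fun x => x.1.1 + x.1.2 = x.2.1 + x.2.2) with hS
  have hmem : ∀ x, x ∈ S ↔ ((x.1.1 ∈ dyP P ∧ x.1.2 ∈ dyP P) ∧ (x.2.1 ∈ dyP P ∧ x.2.2 ∈ dyP P)) ∧
      x.1.1 + x.1.2 = x.2.1 + x.2.2 := by
    intro x
    rw [hS, Finset.mem_filter, Finset.mem_product, Finset.mem_product, Finset.mem_product]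
  have hcov : S ⊆ (S.filter (fun x => x.1.1 = x.2.1)) ∪
      ((S.filter (fun x => x.2.1 < x.1.1)) ∪ (S.filter (fun x => x.1.1 < x.2.1))) := by
    intro x hx
    rcases lt_trichotomy x.1.1 x.2.1 with h | h | h
    · exact Finset.mem_union.2 (Or.inr (Finset.mem_union.2 (Or.inr
        (Finset.mem_filter.2 ⟨hx, h⟩))))
    · exact Finset.mem_union.2 (Or.inl (Finset.mem_filter.2 ⟨hx, h⟩))
    · exact Finset.mem_union.2 (Or.inr (Finset.mem_union.2 (Or.inl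
        (Finset.mem_filter.2 ⟨hx, h⟩))))
  have h0 : (S.filter (fun x => x.1.1 = x.2.1)).card ≤ (dyP P).card ^ 2 := by
    rw [sq, ← Finset.card_product]
    refine Finset.card_le_card_of_injOn (fun x => x.1) ?_ ?_
    · intro x hx
      rw [Finset.mem_coe, Finset.mem_filter, hmem] at hx
      rw [Finset.mem_coe, Finset.mem_product]
      exact hx.1.1.1
    · intro x hx y hy hxy
      rw [Finset.mem_coe, Finset.mem_filter, hmem] at hx hy
      obtain ⟨⟨_, hx1⟩, hx2⟩ := hx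
      obtain ⟨⟨_, hy1⟩, hy2⟩ := hy
      obtain ⟨⟨a, b⟩, c, d⟩ := x
      obtain ⟨⟨a', b'⟩, c', d'⟩ := y
      simp only [Prod.mk.injEq] at hxy hx1 hx2 hy1 hy2 ⊢
      obtain ⟨rfl, rfl⟩ := hxy
      exact ⟨⟨rfl, rfl⟩, by omega, by omega⟩
  have h1 : (S.filter (fun x => x.2.1 < x.1.1)).card ≤
      ∑ h ∈ Finset.Icc 1 P, (b06R P h).card ^ 2 := by
    have e : ∑ h ∈ Finset.Icc 1 P, (b06R P h).card ^ 2 =
        ((Finset.Icc 1 P).sigma (fun h => b06R P h ×ˢ b06R P h)).card := by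
      rw [Finset.card_sigma]
      refine Finset.sum_congr rfl fun h _ => ?_
      rw [Finset.card_product, sq]
    rw [e]
    refine Finset.card_le_card_of_injOn
      (fun x => (⟨x.1.1 - x.2.1, (x.2.1, x.1.2)⟩ : (_ : ℕ) × (ℕ × ℕ))) ?_ ?_
    · intro x hx
      rw [Finset.mem_coe, Finset.mem_filter, hmem] at hx
      obtain ⟨⟨⟨⟨ha, hb⟩, hc, hd⟩, hs⟩, hlt⟩ := hx
      rw [Finset.mem_coe, Finset.mem_sigma, Finset.mem_Icc, Finset.mem_product]
      have ha' := (b06_mem_dyP.1 ha).1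
      have hc' := (b06_mem_dyP.1 hc).1
      have e1 : x.2.1 + (x.1.1 - x.2.1) = x.1.1 := by omega
      have e2 : x.1.2 + (x.1.1 - x.2.1) = x.2.2 := by omega
      refine ⟨⟨by simp only; omega, by simp only; omega⟩, ?_, ?_⟩
      · unfold b06R
        rw [Finset.mem_filter]
        refine ⟨hc, ?_⟩
        simp only
        rw [e1]
        exact ha
      · unfold b06R
        rw [Finset.mem_filter]
        refine ⟨hb, ?_⟩
        simp only
        rw [e2]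
        exact hd
    · intro x hx y hy hxy
      rw [Finset.mem_coe, Finset.mem_filter, hmem] at hx hy
      obtain ⟨⟨_, hx1⟩, hx2⟩ := hx
      obtain ⟨⟨_, hy1⟩, hy2⟩ := hy
      obtain ⟨⟨a, b⟩, c, d⟩ := x
      obtain ⟨⟨a', b'⟩, c', d'⟩ := y
      simp only [Sigma.mk.injEq, Prod.mk.injEq, heq_eq_eq] at hxy hx1 hx2 hy1 hy2 ⊢
      obtain ⟨h3, rfl, rfl⟩ := hxy
      exact ⟨⟨by omega, rfl⟩, rfl, by omega⟩
  have h2 : (S.filter (fun x => x.1.1 < x.2.1)).card ≤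
      ∑ h ∈ Finset.Icc 1 P, (b06R P h).card ^ 2 := by
    have e : ∑ h ∈ Finset.Icc 1 P, (b06R P h).card ^ 2 =
        ((Finset.Icc 1 P).sigma (fun h => b06R P h ×ˢ b06R P h)).card := by
      rw [Finset.card_sigma]
      refine Finset.sum_congr rfl fun h _ => ?_
      rw [Finset.card_product, sq]
    rw [e]
    refine Finset.card_le_card_of_injOn
      (fun x => (⟨x.2.1 - x.1.1, (x.1.1, x.2.2)⟩ : (_ : ℕ) × (ℕ × ℕ))) ?_ ?_
    · intro x hx
      rw [Finset.mem_coe, Finset.mem_filter, hmem] at hx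
      obtain ⟨⟨⟨⟨ha, hb⟩, hc, hd⟩, hs⟩, hlt⟩ := hx
      rw [Finset.mem_coe, Finset.mem_sigma, Finset.mem_Icc, Finset.mem_product]
      have ha' := (b06_mem_dyP.1 ha).1
      have hc' := (b06_mem_dyP.1 hc).1
      have e1 : x.1.1 + (x.2.1 - x.1.1) = x.2.1 := by omega
      have e2 : x.2.2 + (x.2.1 - x.1.1) = x.1.2 := by omega
      refine ⟨⟨by simp only; omega, by simp only; omega⟩, ?_, ?_⟩
      · unfold b06R
        rw [Finset.mem_filter]
        refine ⟨ha, ?_⟩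
        simp only
        rw [e1]
        exact hc
      · unfold b06R
        rw [Finset.mem_filter]
        refine ⟨hd, ?_⟩
        simp only
        rw [e2]
        exact hb
    · intro x hx y hy hxy
      rw [Finset.mem_coe, Finset.mem_filter, hmem] at hx hy
      obtain ⟨⟨_, hx1⟩, hx2⟩ := hx
      obtain ⟨⟨_, hy1⟩, hy2⟩ := hy
      obtain ⟨⟨a, b⟩, c, d⟩ := x
      obtain ⟨⟨a', b'⟩, c', d'⟩ := y
      simp only [Sigma.mk.injEq, Prod.mk.injEq, heq_eq_eq] at hxy hx1 hx2 hy1 hy2 ⊢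
      obtain ⟨h3, rfl, rfl⟩ := hxy
      exact ⟨⟨rfl, by omega⟩, by omega, rfl⟩
  calc S.card ≤ _ := Finset.card_le_card hcov
    _ ≤ (S.filter (fun x => x.1.1 = x.2.1)).card + ((S.filter (fun x => x.2.1 < x.1.1)).card +
        (S.filter (fun x => x.1.1 < x.2.1)).card) :=
      (Finset.card_union_le _ _).trans (Nat.add_le_add_left (Finset.card_union_le _ _) _)
    _ ≤ _ := by omega

theorem energy_le : ∃ C : ℝ, 0 < C ∧ ∀ P : ℕ, 2 ≤ P →
    ((En P : ℕ) : ℝ) ≤ C * ((dyP P).card : ℝ) ^ 4 / P := by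
  obtain ⟨C3, hC3, h3⟩ := pairs_le
  obtain ⟨C4, hC4, h4⟩ := sum_kap_sq
  obtain ⟨c, hc, h5⟩ := cheb_dyadic
  refine ⟨4 / c ^ 2 + 2 * (C3 ^ 2 * C4 / c ^ 4), by positivity, ?_⟩
  intro P hP
  have hP2 : (2 : ℝ) ≤ P := by exact_mod_cast hP
  have hP0 : (0 : ℝ) < P := by linarith
  have hL : 0 < Real.log P := Real.log_pos (by linarith)
  set L := Real.log P with hLdef
  set π : ℝ := ((dyP P).card : ℝ) with hπ
  have hπ0 : 0 ≤ π := by rw [hπ]; positivity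
  have hch : c * P / L ≤ π := h5 P hP
  have hch' : c * P ≤ π * L := by rwa [div_le_iff₀ hL] at hch
  have hsum : ∑ h ∈ Finset.Icc 1 P, ((b06R P h).card : ℝ) ^ 2 ≤ C3 ^ 2 * C4 * P ^ 3 / L ^ 4 := by
    have e1 : ∀ h ∈ Finset.Icc 1 P, ((b06R P h).card : ℝ) ^ 2 ≤
        (C3 ^ 2 * P ^ 2 / L ^ 4) * (kap h) ^ 2 := by
      intro h hh
      rw [Finset.mem_Icc] at hh
      have e2 : ((b06R P h).card : ℝ) ≤ C3 * P * kap h / L ^ 2 := by
        refine le_trans ?_ (h3 P h hP hh.1)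
        have : b06R P h ⊆ (dyP P).filter (fun p => (p + h).Prime) := by
          intro p hp
          unfold b06R at hp
          rw [Finset.mem_filter] at hp ⊢
          exact ⟨hp.1, (b06_mem_dyP.1 hp.2).2⟩
        exact_mod_cast Finset.card_le_card this
      have e3 := pow_le_pow_left₀ (by positivity) e2 2
      refine e3.trans (le_of_eq ?_)
      field_simp
    calc ∑ h ∈ Finset.Icc 1 P, ((b06R P h).card : ℝ) ^ 2
        ≤ ∑ h ∈ Finset.Icc 1 P, (C3 ^ 2 * P ^ 2 / L ^ 4) * (kap h) ^ 2 :=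
          Finset.sum_le_sum e1
      _ = (C3 ^ 2 * P ^ 2 / L ^ 4) * ∑ h ∈ Finset.Icc 1 P, (kap h) ^ 2 := by
          rw [Finset.mul_sum]
      _ ≤ (C3 ^ 2 * P ^ 2 / L ^ 4) * (C4 * P) :=
          mul_le_mul_of_nonneg_left (h4 P) (by positivity)
      _ = C3 ^ 2 * C4 * P ^ 3 / L ^ 4 := by ring
  have hEn : ((En P : ℕ) : ℝ) ≤ π ^ 2 + 2 * ∑ h ∈ Finset.Icc 1 P, ((b06R P h).card : ℝ) ^ 2 := by
    have := b06_En_le P
    rw [hπ]
    exact_mod_cast this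
  have hL2 : L ^ 2 ≤ 4 * P := by
    have e1 : L ≤ 2 * Real.sqrt P := by
      have e2 : L = 2 * Real.log (Real.sqrt P) := by
        rw [hLdef, Real.log_sqrt hP0.le]
        ring
      have e3 := Real.log_le_sub_one_of_pos (Real.sqrt_pos.2 hP0)
      rw [e2]
      linarith
    have e4 := pow_le_pow_left₀ hL.le e1 2
    rw [mul_pow, Real.sq_sqrt hP0.le] at e4
    linarith
  have hPπ : c ^ 2 * P ≤ 4 * π ^ 2 := by
    have e1 := pow_le_pow_left₀ (by positivity) hch' 2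
    rw [mul_pow, mul_pow] at e1
    have e2 : π ^ 2 * L ^ 2 ≤ π ^ 2 * (4 * P) := mul_le_mul_of_nonneg_left hL2 (by positivity)
    have e3 : c ^ 2 * P * P ≤ (4 * π ^ 2) * P := by nlinarith
    exact le_of_mul_le_mul_right e3 hP0
  have hT1 : π ^ 2 ≤ 4 / c ^ 2 * π ^ 4 / P := by
    rw [le_div_iff₀ hP0, div_mul_eq_mul_div, le_div_iff₀ (by positivity)]
    have e1 : π ^ 2 * (c ^ 2 * P) ≤ π ^ 2 * (4 * π ^ 2) :=
      mul_le_mul_of_nonneg_left hPπ (by positivity)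
    nlinarith
  have hT2 : C3 ^ 2 * C4 * P ^ 3 / L ^ 4 ≤ C3 ^ 2 * C4 / c ^ 4 * π ^ 4 / P := by
    have e1 := pow_le_pow_left₀ (by positivity) hch' 4
    rw [mul_pow, mul_pow] at e1
    rw [div_le_div_iff₀ (by positivity) hP0]
    have e2 : C3 ^ 2 * C4 * P ^ 3 * P = C3 ^ 2 * C4 / c ^ 4 * (c ^ 4 * P ^ 4) := by
      field_simp
    have e3 : C3 ^ 2 * C4 / c ^ 4 * π ^ 4 * L ^ 4 = C3 ^ 2 * C4 / c ^ 4 * (π ^ 4 * L ^ 4) := by
      ring
    rw [e2, e3]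
    exact mul_le_mul_of_nonneg_left e1 (by positivity)
  calc ((En P : ℕ) : ℝ) ≤ π ^ 2 + 2 * ∑ h ∈ Finset.Icc 1 P, ((b06R P h).card : ℝ) ^ 2 := hEn
    _ ≤ 4 / c ^ 2 * π ^ 4 / P + 2 * (C3 ^ 2 * C4 / c ^ 4 * π ^ 4 / P) := by linarith
    _ = (4 / c ^ 2 + 2 * (C3 ^ 2 * C4 / c ^ 4)) * π ^ 4 / P := by ring

end MRB
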