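import Pool.Agent.Helper33.MRB.Defs

/-!
# MRB-B07: orthogonality of additive characters on `ℤ/N`

Proof. Expand `‖∑ c_i e(ν_i a/N)‖² = ∑_{i,j} c_i conj(c_j) e((ν_i - ν_j) a/N)` (take real parts),
exchange the sums and use `∑_{a < N} e(k a/N) = N` if `k = 0` and `= 0` if `0 < |k| < N`
(geometric sum: `e(k/N) ≠ 1`, `e(k/N)^N = 1`).
-/

set_option autoImplicit false

namespace MRB

open Finset MRP

theorem eC_add (x y : ℝ) : eC (x + y) = eC x * eC y := by
  unfold eC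
  rw [← Complex.exp_add]
  congr 1
  push_cast
  ring

theorem norm_eC (x : ℝ) : ‖eC x‖ = 1 := by
  unfold eC
  have h : 2 * (Real.pi : ℂ) * Complex.I * (x : ℂ) = ((2 * Real.pi * x : ℝ) : ℂ) * Complex.I := by
    push_cast
    ring
  rw [h]
  exact Complex.norm_exp_ofReal_mul_I _

theorem conj_eC (x : ℝ) : starRingEnd ℂ (eC x) = eC (-x) := by
  unfold eC
  rw [← Complex.exp_conj]
  congr 1
  rw [map_mul, map_mul, map_mul, Complex.conj_I, Complex.conj_ofReal, Complex.conj_ofReal]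
  have h2 : starRingEnd ℂ (2 : ℂ) = 2 := by
    have := Complex.conj_ofReal 2
    exact_mod_cast this
  rw [h2]
  push_cast
  ring

theorem eC_int (k : ℤ) : eC (k : ℝ) = 1 := by
  unfold eC
  have h : 2 * (Real.pi : ℂ) * Complex.I * ((k : ℝ) : ℂ) = (k : ℂ) * (2 * Real.pi * Complex.I) := by
    push_cast
    ring
  rw [h]
  exact Complex.exp_int_mul_two_pi_mul_I k

private lemma b07_eC_zero : eC 0 = 1 := by
  have := eC_int 0
  simpa using this

private lemma b07_pow (x : ℝ) (a : ℕ) : eC (x * a) = eC x ^ a := by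
  induction a with
  | zero => rw [Nat.cast_zero, mul_zero, b07_eC_zero, pow_zero]
  | succ n ih =>
    rw [pow_succ, ← ih, ← eC_add]
    congr 1
    push_cast
    ring

theorem sum_eC_range (N : ℕ) (hN : 1 ≤ N) (k : ℤ) (hk : |k| < N) :
    ∑ a ∈ Finset.range N, eC ((k : ℝ) * ((a : ℝ) / (N : ℝ))) = if k = 0 then (N : ℂ) else 0 := by
  have hN0 : (N : ℝ) ≠ 0 := by
    have : 0 < N := hN
    exact_mod_cast this.ne'
  split_ifs with h0
  · subst h0
    rw [Finset.sum_congr rfl (g := fun _ => (1 : ℂ))]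
    · simp
    · intro a _
      rw [Int.cast_zero, zero_mul, b07_eC_zero]
  · have h1 : ∀ a : ℕ, eC ((k : ℝ) * ((a : ℝ) / (N : ℝ))) = eC ((k : ℝ) / N) ^ a := by
      intro a
      rw [← b07_pow]
      congr 1
      ring
    rw [Finset.sum_congr rfl fun a _ => h1 a]
    have hz : eC ((k : ℝ) / N) ≠ 1 := by
      intro h2
      unfold eC at h2
      rw [Complex.exp_eq_one_iff] at h2
      obtain ⟨n, hn⟩ := h2
      have h3 : (((k : ℝ) / N : ℝ) : ℂ) = (n : ℂ) := by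
        have h4 : (2 * (Real.pi : ℂ) * Complex.I) ≠ 0 := Complex.two_pi_I_ne_zero
        apply mul_left_cancel₀ h4
        rw [hn]
        ring
      have h5 : ((k : ℝ) / N : ℝ) = (n : ℝ) := by exact_mod_cast h3
      rw [div_eq_iff hN0] at h5
      have h6 : k = n * N := by exact_mod_cast h5
      have h7 : n ≠ 0 := by
        rintro rfl
        rw [zero_mul] at h6
        exact h0 h6
      have h8 : (1 : ℤ) ≤ |n| := Int.one_le_abs h7
      rw [h6, abs_mul, Nat.abs_cast] at hk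
      have h9 : (0 : ℤ) < N := by exact_mod_cast hN
      nlinarith
    have hzN : eC ((k : ℝ) / N) ^ N = 1 := by
      rw [← b07_pow, div_mul_cancel₀ _ hN0]
      exact eC_int k
    rw [geom_sum_eq hz, hzN, sub_self, zero_div]

private lemma b07_normsq (z : ℂ) : ‖z‖ ^ 2 = (z * starRingEnd ℂ z).re := by
  rw [Complex.mul_conj, Complex.ofReal_re, Complex.normSq_eq_norm_sq]

theorem dft_sq {ι : Type*} (I : Finset ι) (N : ℕ) (hN : 1 ≤ N) (ν : ι → ℤ) (c : ι → ℂ)
    (hν : ∀ i ∈ I, ∀ j ∈ I, |ν i - ν j| < N) :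
    (1 / (N : ℝ)) * ∑ a ∈ Finset.range N, ‖∑ i ∈ I, c i * eC ((ν i : ℝ) * ((a : ℝ) / (N : ℝ)))‖ ^ 2
      = (∑ i ∈ I, ∑ j ∈ I, if ν i = ν j then c i * starRingEnd ℂ (c j) else 0).re := by
  have hN0 : (N : ℝ) ≠ 0 := by
    have : 0 < N := hN
    exact_mod_cast this.ne'
  have h1 : ∀ a ∈ Finset.range N,
      ‖∑ i ∈ I, c i * eC ((ν i : ℝ) * ((a : ℝ) / (N : ℝ)))‖ ^ 2 =
      (∑ i ∈ I, ∑ j ∈ I, c i * starRingEnd ℂ (c j) *
        eC (((ν i - ν j : ℤ) : ℝ) * ((a : ℝ) / (N : ℝ)))).re := by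
    intro a _
    rw [b07_normsq, map_sum, Finset.sum_mul_sum]
    congr 1
    refine Finset.sum_congr rfl fun i _ => Finset.sum_congr rfl fun j _ => ?_
    rw [map_mul, conj_eC]
    have h2 : eC (((ν i - ν j : ℤ) : ℝ) * ((a : ℝ) / (N : ℝ))) =
        eC ((ν i : ℝ) * ((a : ℝ) / (N : ℝ))) * eC (-((ν j : ℝ) * ((a : ℝ) / (N : ℝ)))) := by
      rw [← eC_add]
      congr 1
      push_cast
      ring
    rw [h2]
    ring
  rw [Finset.sum_congr rfl h1, ← Complex.re_sum, Finset.sum_comm]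
  have h3 : ∀ i ∈ I, ∑ a ∈ Finset.range N, ∑ j ∈ I, c i * starRingEnd ℂ (c j) *
        eC (((ν i - ν j : ℤ) : ℝ) * ((a : ℝ) / (N : ℝ))) =
      (N : ℂ) * ∑ j ∈ I, if ν i = ν j then c i * starRingEnd ℂ (c j) else 0 := by
    intro i hi
    rw [Finset.sum_comm, Finset.mul_sum]
    refine Finset.sum_congr rfl fun j hj => ?_
    rw [← Finset.mul_sum, sum_eC_range N hN _ (hν i hi j hj)]
    by_cases h4 : ν i = ν j
    · rw [if_pos h4, if_pos (sub_eq_zero.2 h4)]
      ring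
    · rw [if_neg h4, if_neg (fun h => h4 (sub_eq_zero.1 h))]
      ring
  rw [Finset.sum_congr rfl h3, ← Finset.mul_sum]
  set W : ℂ := ∑ i ∈ I, ∑ j ∈ I, if ν i = ν j then c i * starRingEnd ℂ (c j) else 0
  have h5 : ((N : ℂ) * W).re = (N : ℝ) * W.re := by
    have : (N : ℂ) = ((N : ℝ) : ℂ) := by push_cast; rfl
    rw [this, Complex.re_ofReal_mul]
  rw [h5]
  field_simp

end MRB
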