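import Pool.Agent.Helper33.MRB.B07

/-!
# MRB-B08: Parseval on `ℤ/N` for intervals, prime sums and correlations

Proofs, all from `dft_sq`.
* `parseval_Icc`: `I = Icc 1 M`, `ν j = j`, differences `< M ≤ N`.
* `fourth_eq`: `‖S‖⁴ = ‖S²‖²`, `S² = ∑_{(p₁,p₂)} e((p₁+p₂) α)`; `p₁ + p₂ ∈ (2P, 4P]`, so differences
  are `< 2P < 6P`; the double sum counts `p₁ + p₂ = p₃ + p₄`.
* `corr_le`: `conj(S) F = ∑_{(j,p)} f(j) e((j-p) α)` with `j - p ∈ [1 - 2P, 2P - 1]`, differences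
  `< 4P < 6P`; so the right side is `∑_s |c_s|²`, `c_s = ∑_{j - p = s} f(j)`, and for `1 ≤ s ≤ P` and
  `p ∈ dyP P` one has `1 ≤ s + p ≤ 3P`, so `c_s = ∑_p f(s+p)`. (Write the double sum in `dft_sq` as
  the sum over `s` of squares with `Finset.sum_fiberwise`-type lemmas and drop the `s` outside
  `[1, P]`.)
-/

set_option autoImplicit false

namespace MRB

open Finset MRP

private theorem mem_dyP' {P p : ℕ} (h : p ∈ dyP P) : P < p ∧ p ≤ 2 * P := by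
  rw [dyP, Finset.mem_filter, Finset.mem_Ioc] at h
  exact h.1

theorem parseval_Icc (M N : ℕ) (hM : M ≤ N) (hN : 1 ≤ N) (f : ℕ → ℝ) :
    (1 / (N : ℝ)) * ∑ a ∈ Finset.range N,
      ‖∑ j ∈ Finset.Icc 1 M, (f j : ℂ) * eC ((j : ℝ) * ((a : ℝ) / (N : ℝ)))‖ ^ 2 =
        ∑ j ∈ Finset.Icc 1 M, (f j) ^ 2 := by
  have h := dft_sq (Finset.Icc 1 M) N hN (fun j : ℕ => (j : ℤ)) (fun j => (f j : ℂ)) (by
    intro i hi j hj
    rw [Finset.mem_Icc] at hi hj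
    rw [abs_lt]
    constructor <;> omega)
  simp only [Int.cast_natCast] at h
  rw [h, Complex.re_sum]
  refine Finset.sum_congr rfl fun i hi => ?_
  simp only [Nat.cast_inj]
  rw [Finset.sum_ite_eq, if_pos hi, Complex.conj_ofReal, ← Complex.ofReal_mul, Complex.ofReal_re,
    sq]

theorem fourth_eq (P : ℕ) (hP : 1 ≤ P) :
    (1 / ((6 * P : ℕ) : ℝ)) * ∑ a ∈ Finset.range (6 * P), ‖SP P ((a : ℝ) / ((6 * P : ℕ) : ℝ))‖ ^ 4 =
      ((En P : ℕ) : ℝ) := by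
  have h := dft_sq (dyP P ×ˢ dyP P) (6 * P) (by omega) (fun x : ℕ × ℕ => ((x.1 + x.2 : ℕ) : ℤ))
    (fun _ => (1 : ℂ)) (by
    intro x hx y hy
    rw [Finset.mem_product] at hx hy
    have h1 := mem_dyP' hx.1
    have h2 := mem_dyP' hx.2
    have h3 := mem_dyP' hy.1
    have h4 := mem_dyP' hy.2
    rw [abs_lt]
    constructor <;> (push_cast; omega))
  have hS : ∀ α : ℝ, ‖SP P α‖ ^ 4 =
      ‖∑ x ∈ dyP P ×ˢ dyP P, (1 : ℂ) * eC ((((x.1 + x.2 : ℕ) : ℤ) : ℝ) * α)‖ ^ 2 := by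
    intro α
    have h1 : (∑ x ∈ dyP P ×ˢ dyP P, (1 : ℂ) * eC ((((x.1 + x.2 : ℕ) : ℤ) : ℝ) * α)) =
        SP P α * SP P α := by
      rw [SP, Finset.sum_mul_sum, ← Finset.sum_product']
      refine Finset.sum_congr rfl fun x _ => ?_
      rw [one_mul, ← eC_add]
      congr 1
      push_cast
      ring
    rw [h1, norm_mul]
    ring
  simp only [hS]
  have hEn : ((En P : ℕ) : ℝ) = ∑ x ∈ dyP P ×ˢ dyP P, ∑ y ∈ dyP P ×ˢ dyP P,
      if x.1 + x.2 = y.1 + y.2 then (1 : ℝ) else 0 := by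
    rw [En, Finset.card_filter, Nat.cast_sum, Finset.sum_product]
    refine Finset.sum_congr rfl fun x _ => Finset.sum_congr rfl fun y _ => ?_
    split_ifs <;> simp
  rw [h, hEn, Complex.re_sum]
  refine Finset.sum_congr rfl fun x _ => ?_
  rw [Complex.re_sum]
  refine Finset.sum_congr rfl fun y _ => ?_
  by_cases hxy : x.1 + x.2 = y.1 + y.2
  · rw [if_pos (by exact_mod_cast hxy), if_pos hxy]
    simp
  · rw [if_neg (by exact_mod_cast hxy), if_neg hxy]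
    simp

private theorem fiber_sq {ι : Type*} [DecidableEq ι] (I : Finset ι) (ν : ι → ℤ) (g : ι → ℝ)
    (T : Finset ℤ) :
    ∑ s ∈ T, (∑ x ∈ I.filter (fun x => ν x = s), g x) ^ 2 ≤
      ∑ x ∈ I, ∑ y ∈ I, if ν x = ν y then g x * g y else 0 := by
  have h1 : ∑ x ∈ I, ∑ y ∈ I, (if ν x = ν y then g x * g y else 0) =
      ∑ s ∈ T ∪ I.image ν, (∑ x ∈ I.filter (fun x => ν x = s), g x) ^ 2 := by
    have hmaps : ∀ x ∈ I, ν x ∈ T ∪ I.image ν := fun x hx =>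
      Finset.mem_union_right _ (Finset.mem_image_of_mem ν hx)
    rw [← Finset.sum_fiberwise_of_maps_to hmaps
      (fun x => ∑ y ∈ I, (if ν x = ν y then g x * g y else 0))]
    refine Finset.sum_congr rfl fun s _ => ?_
    rw [sq, Finset.sum_mul]
    refine Finset.sum_congr rfl fun x hx => ?_
    rw [Finset.mem_filter] at hx
    rw [Finset.mul_sum, Finset.sum_filter]
    refine Finset.sum_congr rfl fun y _ => ?_
    rw [hx.2]
    by_cases h : s = ν y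
    · rw [if_pos h, if_pos h.symm]
    · rw [if_neg h, if_neg (fun h' => h h'.symm)]
  rw [h1]
  exact Finset.sum_le_sum_of_subset_of_nonneg Finset.subset_union_left fun _ _ _ => sq_nonneg _

theorem corr_le (P : ℕ) (hP : 1 ≤ P) (f : ℕ → ℝ) :
    ∑ s ∈ Finset.Icc 1 P, (∑ p ∈ dyP P, f (s + p)) ^ 2 ≤
      (1 / ((6 * P : ℕ) : ℝ)) * ∑ a ∈ Finset.range (6 * P),
        ‖SP P ((a : ℝ) / ((6 * P : ℕ) : ℝ))‖ ^ 2 *
          ‖∑ j ∈ Finset.Icc 1 (3 * P), (f j : ℂ) * eC ((j : ℝ) * ((a : ℝ) / ((6 * P : ℕ) : ℝ)))‖ ^ 2 := by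
  classical
  have h := dft_sq (Finset.Icc 1 (3 * P) ×ˢ dyP P) (6 * P) (by omega)
    (fun x : ℕ × ℕ => (x.1 : ℤ) - x.2) (fun x => (f x.1 : ℂ)) (by
    intro x hx y hy
    rw [Finset.mem_product, Finset.mem_Icc] at hx hy
    have h1 := mem_dyP' hx.2
    have h2 := mem_dyP' hy.2
    rw [abs_lt]
    constructor <;> (push_cast; omega))
  have hS : ∀ α : ℝ, ‖SP P α‖ ^ 2 * ‖∑ j ∈ Finset.Icc 1 (3 * P), (f j : ℂ) * eC ((j : ℝ) * α)‖ ^ 2 =
      ‖∑ x ∈ Finset.Icc 1 (3 * P) ×ˢ dyP P,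
        (f x.1 : ℂ) * eC ((((x.1 : ℤ) - x.2 : ℤ) : ℝ) * α)‖ ^ 2 := by
    intro α
    have h1 : (∑ x ∈ Finset.Icc 1 (3 * P) ×ˢ dyP P,
        (f x.1 : ℂ) * eC ((((x.1 : ℤ) - x.2 : ℤ) : ℝ) * α)) =
        (∑ j ∈ Finset.Icc 1 (3 * P), (f j : ℂ) * eC ((j : ℝ) * α)) * starRingEnd ℂ (SP P α) := by
      rw [SP, map_sum, Finset.sum_mul_sum, ← Finset.sum_product']
      refine Finset.sum_congr rfl fun x _ => ?_
      rw [conj_eC, mul_assoc, ← eC_add]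
      congr 2
      push_cast
      ring
    rw [h1, norm_mul, RCLike.norm_conj]
    ring
  simp only [hS]
  rw [h]
  have h2 : (∑ x ∈ Finset.Icc 1 (3 * P) ×ˢ dyP P, ∑ y ∈ Finset.Icc 1 (3 * P) ×ˢ dyP P,
      if (x.1 : ℤ) - x.2 = (y.1 : ℤ) - y.2 then (f x.1 : ℂ) * starRingEnd ℂ (f y.1 : ℂ) else 0).re =
      ∑ x ∈ Finset.Icc 1 (3 * P) ×ˢ dyP P, ∑ y ∈ Finset.Icc 1 (3 * P) ×ˢ dyP P,
        if (x.1 : ℤ) - x.2 = (y.1 : ℤ) - y.2 then f x.1 * f y.1 else 0 := by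
    rw [Complex.re_sum]
    refine Finset.sum_congr rfl fun x _ => ?_
    rw [Complex.re_sum]
    refine Finset.sum_congr rfl fun y _ => ?_
    split_ifs
    · rw [Complex.conj_ofReal, ← Complex.ofReal_mul, Complex.ofReal_re]
    · rfl
  rw [h2]
  refine le_trans (le_of_eq ?_) (fiber_sq (Finset.Icc 1 (3 * P) ×ˢ dyP P)
    (fun x : ℕ × ℕ => (x.1 : ℤ) - x.2) (fun x => f x.1)
    ((Finset.Icc 1 P).image (fun s : ℕ => (s : ℤ))))
  rw [Finset.sum_image (fun a _ b _ hab => by exact_mod_cast hab)]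
  refine Finset.sum_congr rfl fun s hs => ?_
  rw [Finset.mem_Icc] at hs
  congr 1
  symm
  refine Finset.sum_nbij' (fun x => x.2) (fun p => (s + p, p)) ?_ ?_ ?_ ?_ ?_
  · intro x hx
    rw [Finset.mem_filter, Finset.mem_product] at hx
    exact hx.1.2
  · intro p hp
    have h3 := mem_dyP' hp
    rw [Finset.mem_filter, Finset.mem_product, Finset.mem_Icc]
    refine ⟨⟨⟨?_, ?_⟩, hp⟩, ?_⟩
    · change 1 ≤ s + p
      omega
    · change s + p ≤ 3 * P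
      omega
    · change (((s + p : ℕ) : ℤ)) - p = s
      push_cast
      ring
  · intro x hx
    rw [Finset.mem_filter] at hx
    obtain ⟨j, p⟩ := x
    have h3 : (j : ℤ) - p = s := hx.2
    ext
    · change s + p = j
      omega
    · rfl
  · intro p _
    rfl
  · intro x hx
    rw [Finset.mem_filter] at hx
    obtain ⟨j, p⟩ := x
    have h3 : (j : ℤ) - p = s := hx.2
    change f j = f (s + p)
    congr 1
    omega

end MRB
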