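import Pool.Agent.Helper33.MRB.B06
import Pool.Agent.Helper33.MRB.B08

/-!
# MRB-B09: the circle step, `EXP` implies `CIRC`

Proof. `ε ≤ 1` without loss. Let `C₄` be the constant of `energy_le`, `π = card (dyP P)`,
`m = mX X b` (`|m| ≤ 1`), `f(n) = b(Ω n) - m` (`|f| ≤ 2`), `N = 6P`,
`F_n(α) = ∑_{j=1}^{3P} f(n+j) e(jα)`.

1. Since `|A| ≤ 1` it is enough to bound `T = ∑_{n≤X} (1/n) |g(n)|`, `g(n) = ∑_{p ∈ dyP P} f(n+p)`,
   `|g| ≤ 2π`.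
2. For `1 ≤ s ≤ P`: `∑_{n≤X} |g(n)|/n ≤ ∑_{n≤X} |g(n+s)|/n + 2π LS P` (substitute `N = n+s`:
   `∑_{n≤X} |g(n+s)|/n ≥ ∑_{s<N≤X} |g(N)|/N`). Average over `s`:
   `P T ≤ ∑_{n≤X} (1/n) ∑_{s=1}^P |g(n+s)| + 2 π P LS P`.
3. Cauchy-Schwarz twice: `∑_n (1/n) ∑_{s≤P} |g(n+s)| ≤ (P LS X)^(1/2) (∑_n (1/n) ∑_{s≤P} |g(n+s)|²)^(1/2)`.
4. `corr_le` for `j ↦ f(n+j)`: `∑_{s≤P} |g(n+s)|² ≤ (1/N) ∑_a |S_a|² |F_n(a/N)|²`, `S_a = SP P (a/N)`.
5. For every `τ > 0`: `|S|² ≤ τ² π² + |S|⁴/(τ² π²)`. So the right side of 4 is at most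
   `τ² π² (1/N) ∑_a |F_n|² + (τ π)⁻² (1/N) ∑_a |S_a|⁴ |F_n(a/N)|²
   ≤ τ² π² 12 P + (τπ)⁻² 6P (1/N) ∑_a |S_a|⁴ |F_n(a/N)|` (`parseval_Icc` with `|f| ≤ 2`, and
   `|F_n| ≤ 6P`).
6. Sum over `n` with weight `1/n` and use `EXP` with `ε₂` for `H = 3P` and `α = a/N`:
   `∑_n (1/n) |F_n(a/N)| ≤ ε₂ 3P log X`; `fourth_eq`, `energy_le`: `(1/N) ∑_a |S_a|⁴ ≤ C₄ π⁴/P`. Total:
   `∑_n (1/n) ∑_{s≤P} |g(n+s)|² ≤ 12 τ² π² P LS X + 18 C₄ ε₂ τ⁻² π² P log X`.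
7. With `LS X ≤ 2 log X` (`X` large): `T ≤ π log X (48 τ² + 36 C₄ ε₂ τ⁻²)^(1/2) + 2π LS P`. Take
   `τ = ε/20`, `ε₂ = τ² ε²/(400 (C₄+1))`, `P0` = maximum of `2` and the `H0` of `EXP` for `ε₂`, `X0`
   = maximum of the `X0` of `EXP` for `H = 3P`, and a number after which `LS X ≤ 2 log X` and
   `2 LS P ≤ (ε/4) log X`.
-/

set_option autoImplicit false

namespace MRB

open Finset MRP

private theorem b09_abs_mX (X : ℕ) (b : ℕ → ℝ) (hb : ∀ m, |b m| ≤ 1) : |mX X b| ≤ 1 := by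
  unfold mX LS
  have h0 : 0 ≤ ∑ n ∈ Finset.Icc 1 X, (1 / (n : ℝ)) := Finset.sum_nonneg fun n _ => by positivity
  rw [abs_div, abs_of_nonneg h0]
  refine div_le_one_of_le₀ ?_ h0
  refine (Finset.abs_sum_le_sum_abs _ _).trans (Finset.sum_le_sum fun n _ => ?_)
  rw [abs_mul, abs_of_nonneg (by positivity : (0 : ℝ) ≤ 1 / (n : ℝ))]
  exact mul_le_of_le_one_right (by positivity) (hb _)

private theorem b09_LS_mono {s P : ℕ} (h : s ≤ P) : LS s ≤ LS P := by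
  unfold LS
  exact Finset.sum_le_sum_of_subset_of_nonneg (Finset.Icc_subset_Icc le_rfl h)
    fun n _ _ => by positivity

private theorem b09_LS_nonneg (P : ℕ) : 0 ≤ LS P := by
  unfold LS
  exact Finset.sum_nonneg fun n _ => by positivity

private theorem b09_LS_le (X : ℕ) : LS X ≤ 1 + Real.log X := by
  have h := harmonic_le_one_add_log X
  rw [harmonic_eq_sum_Icc] at h
  unfold LS
  push_cast at h
  simpa [one_div] using h

private theorem b09_shift (X s : ℕ) (G : ℕ → ℝ) (B : ℝ) (h0 : ∀ n, 0 ≤ G n) (h1 : ∀ n, G n ≤ B) :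
    ∑ n ∈ Finset.Icc 1 X, (1 / (n : ℝ)) * G n ≤
      ∑ n ∈ Finset.Icc 1 X, (1 / (n : ℝ)) * G (n + s) + B * LS s := by
  classical
  have hsub : Finset.Icc 1 X ⊆ (Finset.Icc 1 X).image (fun n => n + s) ∪ Finset.Icc 1 s := by
    intro n hn
    rw [Finset.mem_Icc] at hn
    rw [Finset.mem_union, Finset.mem_image, Finset.mem_Icc]
    by_cases h : n ≤ s
    · exact Or.inr ⟨hn.1, h⟩
    · exact Or.inl ⟨n - s, by rw [Finset.mem_Icc]; omega, by omega⟩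
  have hnn : ∀ n : ℕ, 0 ≤ (1 / (n : ℝ)) * G n := fun n => mul_nonneg (by positivity) (h0 n)
  have h2 : ∑ n ∈ Finset.Icc 1 X, (1 / (n : ℝ)) * G n ≤
      ∑ n ∈ (Finset.Icc 1 X).image (fun n => n + s) ∪ Finset.Icc 1 s, (1 / (n : ℝ)) * G n :=
    Finset.sum_le_sum_of_subset_of_nonneg hsub fun n _ _ => hnn n
  have h3 := Finset.sum_union_inter (s₁ := (Finset.Icc 1 X).image (fun n => n + s))
    (s₂ := Finset.Icc 1 s) (f := fun n : ℕ => (1 / (n : ℝ)) * G n)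
  have h4 : 0 ≤ ∑ n ∈ (Finset.Icc 1 X).image (fun n => n + s) ∩ Finset.Icc 1 s,
      (1 / (n : ℝ)) * G n := Finset.sum_nonneg fun n _ => hnn n
  have h5 : ∑ n ∈ (Finset.Icc 1 X).image (fun n => n + s), (1 / (n : ℝ)) * G n ≤
      ∑ n ∈ Finset.Icc 1 X, (1 / (n : ℝ)) * G (n + s) := by
    rw [Finset.sum_image (fun a _ c _ h => by
      have h' : a + s = c + s := h
      omega)]
    refine Finset.sum_le_sum fun n hn => ?_
    rw [Finset.mem_Icc] at hn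
    have hn1 : (1 : ℝ) ≤ n := by exact_mod_cast hn.1
    refine mul_le_mul_of_nonneg_right ?_ (h0 _)
    refine one_div_le_one_div_of_le (by linarith) ?_
    push_cast
    have : (0 : ℝ) ≤ s := Nat.cast_nonneg s
    linarith
  have h6 : ∑ n ∈ Finset.Icc 1 s, (1 / (n : ℝ)) * G n ≤ B * LS s := by
    unfold LS
    rw [Finset.mul_sum]
    refine Finset.sum_le_sum fun n _ => ?_
    rw [mul_comm B]
    exact mul_le_mul_of_nonneg_left (h1 n) (by positivity)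
  linarith

private theorem b09_F_le (H : ℕ) (f : ℕ → ℝ) (hf : ∀ n, |f n| ≤ 2) (α : ℝ) :
    ‖∑ j ∈ Finset.Icc 1 H, (f j : ℂ) * eC ((j : ℝ) * α)‖ ≤ 2 * H := by
  refine (norm_sum_le _ _).trans ?_
  calc ∑ j ∈ Finset.Icc 1 H, ‖(f j : ℂ) * eC ((j : ℝ) * α)‖ ≤ ∑ _j ∈ Finset.Icc 1 H, (2 : ℝ) := by
        refine Finset.sum_le_sum fun j _ => ?_
        rw [norm_mul, norm_eC, mul_one, Complex.norm_real, Real.norm_eq_abs]
        exact hf j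
    _ = 2 * H := by
        rw [Finset.sum_const, Nat.card_Icc, nsmul_eq_mul]
        push_cast
        simp [mul_comm]

private theorem b09_amgm (x y : ℝ) (hy : 0 < y) : x ^ 2 ≤ y + x ^ 4 / y := by
  have h : 0 ≤ (y - x ^ 2) ^ 2 / y := div_nonneg (sq_nonneg _) hy.le
  have h2 : (y - x ^ 2) ^ 2 / y = y - 2 * x ^ 2 + x ^ 4 / y := by
    field_simp
    ring
  have h3 : 0 ≤ x ^ 2 := sq_nonneg x
  linarith

private theorem b09_quad (P : ℕ) (hP : 2 ≤ P) (f : ℕ → ℝ) (hf : ∀ n, |f n| ≤ 2) (y : ℝ)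
    (hy : 0 < y) :
    ∑ s ∈ Finset.Icc 1 P, (∑ p ∈ dyP P, f (s + p)) ^ 2 ≤
      12 * P * y + (6 * P / y) * ((1 / ((6 * P : ℕ) : ℝ)) * ∑ a ∈ Finset.range (6 * P),
          ‖SP P ((a : ℝ) / ((6 * P : ℕ) : ℝ))‖ ^ 4 *
          ‖∑ j ∈ Finset.Icc 1 (3 * P), (f j : ℂ) * eC ((j : ℝ) * ((a : ℝ) / ((6 * P : ℕ) : ℝ)))‖) := by
  have h := corr_le P (by omega) f
  have h3 := parseval_Icc (3 * P) (6 * P) (by omega) (by omega) f
  have h4 : ∑ j ∈ Finset.Icc 1 (3 * P), (f j) ^ 2 ≤ 12 * P := by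
    calc ∑ j ∈ Finset.Icc 1 (3 * P), (f j) ^ 2 ≤ ∑ _j ∈ Finset.Icc 1 (3 * P), (4 : ℝ) := by
          refine Finset.sum_le_sum fun j _ => ?_
          rw [← sq_abs]
          have := hf j
          have h0 := abs_nonneg (f j)
          nlinarith
      _ = 12 * P := by
          rw [Finset.sum_const, Nat.card_Icc, nsmul_eq_mul]
          push_cast
          ring
  have hNpos : (0 : ℝ) ≤ 1 / ((6 * P : ℕ) : ℝ) := by positivity
  have hterm : ∀ a ∈ Finset.range (6 * P), ‖SP P ((a : ℝ) / ((6 * P : ℕ) : ℝ))‖ ^ 2 *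
          ‖∑ j ∈ Finset.Icc 1 (3 * P), (f j : ℂ) * eC ((j : ℝ) * ((a : ℝ) / ((6 * P : ℕ) : ℝ)))‖ ^ 2 ≤
        y * ‖∑ j ∈ Finset.Icc 1 (3 * P),
            (f j : ℂ) * eC ((j : ℝ) * ((a : ℝ) / ((6 * P : ℕ) : ℝ)))‖ ^ 2 +
          (6 * P / y) * (‖SP P ((a : ℝ) / ((6 * P : ℕ) : ℝ))‖ ^ 4 *
          ‖∑ j ∈ Finset.Icc 1 (3 * P), (f j : ℂ) * eC ((j : ℝ) * ((a : ℝ) / ((6 * P : ℕ) : ℝ)))‖) := by
    intro a _
    have hF := b09_F_le (3 * P) f hf ((a : ℝ) / ((6 * P : ℕ) : ℝ))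
    have hF0 := norm_nonneg (∑ j ∈ Finset.Icc 1 (3 * P),
      (f j : ℂ) * eC ((j : ℝ) * ((a : ℝ) / ((6 * P : ℕ) : ℝ))))
    generalize ‖∑ j ∈ Finset.Icc 1 (3 * P),
      (f j : ℂ) * eC ((j : ℝ) * ((a : ℝ) / ((6 * P : ℕ) : ℝ)))‖ = F at hF hF0 ⊢
    generalize ‖SP P ((a : ℝ) / ((6 * P : ℕ) : ℝ))‖ = S
    have h5 := b09_amgm S y hy
    have hF' : F ≤ 6 * P := by
      refine hF.trans (le_of_eq ?_)
      push_cast
      ring
    have h6 : 0 ≤ S ^ 4 / y := by positivity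
    calc S ^ 2 * F ^ 2 ≤ (y + S ^ 4 / y) * F ^ 2 :=
          mul_le_mul_of_nonneg_right h5 (sq_nonneg F)
      _ = y * F ^ 2 + (S ^ 4 / y * F) * F := by ring
      _ ≤ y * F ^ 2 + (S ^ 4 / y * F) * (6 * P) := by
          have := mul_le_mul_of_nonneg_left hF' (mul_nonneg h6 hF0)
          linarith
      _ = y * F ^ 2 + (6 * P / y) * (S ^ 4 * F) := by ring
  have h7 := Finset.sum_le_sum hterm
  rw [Finset.sum_add_distrib, ← Finset.mul_sum, ← Finset.mul_sum] at h7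
  have h8 := mul_le_mul_of_nonneg_left h7 hNpos
  refine h.trans (h8.trans ?_)
  have h9 : (1 / ((6 * P : ℕ) : ℝ)) * ∑ a ∈ Finset.range (6 * P),
      ‖∑ j ∈ Finset.Icc 1 (3 * P),
        (f j : ℂ) * eC ((j : ℝ) * ((a : ℝ) / ((6 * P : ℕ) : ℝ)))‖ ^ 2 ≤ 12 * P := by
    rw [h3]
    exact h4
  have h10 := mul_le_mul_of_nonneg_left h9 hy.le
  linarith

/-- steps 4 to 6, summed over `n`. -/
private theorem b09_Q (C ε₂ : ℝ) (P : ℕ) (hP : 2 ≤ P)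
    (hE : ((En P : ℕ) : ℝ) ≤ C * ((dyP P).card : ℝ) ^ 4 / P) (hε : 0 ≤ ε₂) (X : ℕ)
    (hX : 0 ≤ Real.log X) (f : ℕ → ℝ) (hf : ∀ n, |f n| ≤ 2)
    (hexp : ∀ α : ℝ, ∑ n ∈ Finset.Icc 1 X, (1 / (n : ℝ)) *
        ‖∑ j ∈ Finset.Icc 1 (3 * P), (f (n + j) : ℂ) * eC ((j : ℝ) * α)‖ ≤
          ε₂ * ((3 * P : ℕ) : ℝ) * Real.log X) (θ : ℝ) (hθ : 0 < θ) :
    ∑ n ∈ Finset.Icc 1 X, (1 / (n : ℝ)) *
      ∑ s ∈ Finset.Icc 1 P, (∑ p ∈ dyP P, f (n + s + p)) ^ 2 ≤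
      P * ((dyP P).card : ℝ) ^ 2 * (12 * θ * LS X + 18 * C * ε₂ / θ * Real.log X) := by
  have hπ : (1 : ℝ) ≤ (dyP P).card := by exact_mod_cast one_le_card_dyP P (by omega)
  generalize hpi : ((dyP P).card : ℝ) = π at hE hπ ⊢
  have hπ0 : 0 < π := by linarith
  have hP0 : (0 : ℝ) < P := by
    have : 0 < P := by omega
    exact_mod_cast this
  have hy : 0 < θ * π ^ 2 := by positivity
  have h1 : ∀ n : ℕ, ∑ s ∈ Finset.Icc 1 P, (∑ p ∈ dyP P, f (n + s + p)) ^ 2 ≤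
      12 * P * (θ * π ^ 2) + (6 * P / (θ * π ^ 2)) * ((1 / ((6 * P : ℕ) : ℝ)) *
        ∑ a ∈ Finset.range (6 * P), ‖SP P ((a : ℝ) / ((6 * P : ℕ) : ℝ))‖ ^ 4 *
          ‖∑ j ∈ Finset.Icc 1 (3 * P),
            (f (n + j) : ℂ) * eC ((j : ℝ) * ((a : ℝ) / ((6 * P : ℕ) : ℝ)))‖) := by
    intro n
    have h := b09_quad P hP (fun j => f (n + j)) (fun j => hf (n + j)) (θ * π ^ 2) hy
    refine le_trans (le_of_eq ?_) h
    refine Finset.sum_congr rfl fun s _ => ?_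
    congr 1
    refine Finset.sum_congr rfl fun p _ => ?_
    change f (n + s + p) = f (n + (s + p))
    rw [add_assoc]
  have h2 : ∑ n ∈ Finset.Icc 1 X, (1 / (n : ℝ)) *
      ∑ s ∈ Finset.Icc 1 P, (∑ p ∈ dyP P, f (n + s + p)) ^ 2 ≤
      ∑ n ∈ Finset.Icc 1 X, (1 / (n : ℝ)) * (12 * P * (θ * π ^ 2) +
        (6 * P / (θ * π ^ 2)) * ((1 / ((6 * P : ℕ) : ℝ)) *
        ∑ a ∈ Finset.range (6 * P), ‖SP P ((a : ℝ) / ((6 * P : ℕ) : ℝ))‖ ^ 4 *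
          ‖∑ j ∈ Finset.Icc 1 (3 * P),
            (f (n + j) : ℂ) * eC ((j : ℝ) * ((a : ℝ) / ((6 * P : ℕ) : ℝ)))‖)) :=
    Finset.sum_le_sum fun n _ => mul_le_mul_of_nonneg_left (h1 n) (by positivity)
  refine h2.trans ?_
  have h3 : ∑ n ∈ Finset.Icc 1 X, (1 / (n : ℝ)) * (12 * P * (θ * π ^ 2) +
        (6 * P / (θ * π ^ 2)) * ((1 / ((6 * P : ℕ) : ℝ)) *
        ∑ a ∈ Finset.range (6 * P), ‖SP P ((a : ℝ) / ((6 * P : ℕ) : ℝ))‖ ^ 4 *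
          ‖∑ j ∈ Finset.Icc 1 (3 * P),
            (f (n + j) : ℂ) * eC ((j : ℝ) * ((a : ℝ) / ((6 * P : ℕ) : ℝ)))‖)) =
      12 * P * (θ * π ^ 2) * LS X + (6 * P / (θ * π ^ 2)) * ((1 / ((6 * P : ℕ) : ℝ)) *
        ∑ a ∈ Finset.range (6 * P), ‖SP P ((a : ℝ) / ((6 * P : ℕ) : ℝ))‖ ^ 4 *
          ∑ n ∈ Finset.Icc 1 X, (1 / (n : ℝ)) * ‖∑ j ∈ Finset.Icc 1 (3 * P),
            (f (n + j) : ℂ) * eC ((j : ℝ) * ((a : ℝ) / ((6 * P : ℕ) : ℝ)))‖) := by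
    unfold LS
    simp only [mul_add, Finset.sum_add_distrib, Finset.mul_sum]
    congr 1
    · refine Finset.sum_congr rfl fun n _ => ?_
      ring
    · rw [Finset.sum_comm]
      refine Finset.sum_congr rfl fun a _ => Finset.sum_congr rfl fun n _ => ?_
      ring
  rw [h3]
  have h4 : ∑ a ∈ Finset.range (6 * P), ‖SP P ((a : ℝ) / ((6 * P : ℕ) : ℝ))‖ ^ 4 *
          ∑ n ∈ Finset.Icc 1 X, (1 / (n : ℝ)) * ‖∑ j ∈ Finset.Icc 1 (3 * P),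
            (f (n + j) : ℂ) * eC ((j : ℝ) * ((a : ℝ) / ((6 * P : ℕ) : ℝ)))‖ ≤
      (∑ a ∈ Finset.range (6 * P), ‖SP P ((a : ℝ) / ((6 * P : ℕ) : ℝ))‖ ^ 4) *
        (ε₂ * ((3 * P : ℕ) : ℝ) * Real.log X) := by
    rw [Finset.sum_mul]
    exact Finset.sum_le_sum fun a _ => mul_le_mul_of_nonneg_left (hexp _) (by positivity)
  have h5 : (1 / ((6 * P : ℕ) : ℝ)) * ∑ a ∈ Finset.range (6 * P),
        ‖SP P ((a : ℝ) / ((6 * P : ℕ) : ℝ))‖ ^ 4 *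
          ∑ n ∈ Finset.Icc 1 X, (1 / (n : ℝ)) * ‖∑ j ∈ Finset.Icc 1 (3 * P),
            (f (n + j) : ℂ) * eC ((j : ℝ) * ((a : ℝ) / ((6 * P : ℕ) : ℝ)))‖ ≤
      C * π ^ 4 / P * (ε₂ * ((3 * P : ℕ) : ℝ) * Real.log X) := by
    have h6 := mul_le_mul_of_nonneg_left h4 (by positivity : (0 : ℝ) ≤ 1 / ((6 * P : ℕ) : ℝ))
    refine h6.trans ?_
    rw [← mul_assoc, fourth_eq P (by omega)]
    exact mul_le_mul_of_nonneg_right hE (by positivity)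
  have h7 := mul_le_mul_of_nonneg_left h5 (by positivity : (0 : ℝ) ≤ 6 * P / (θ * π ^ 2))
  have h8 : (6 * P / (θ * π ^ 2)) * (C * π ^ 4 / P * (ε₂ * ((3 * P : ℕ) : ℝ) * Real.log X)) =
      P * π ^ 2 * (18 * C * ε₂ / θ * Real.log X) := by
    push_cast
    field_simp
    ring
  rw [h8] at h7
  linarith

theorem circ_of_exp (h : EXP) : CIRC := by
  obtain ⟨C, hC, hen⟩ := energy_le
  intro ε hε
  obtain ⟨θ, hθdef⟩ : ∃ θ : ℝ, θ = ε ^ 2 / 384 := ⟨_, rfl⟩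
  have hθ : 0 < θ := by rw [hθdef]; positivity
  obtain ⟨ε₂, hε₂def⟩ : ∃ ε₂ : ℝ, ε₂ = θ * ε ^ 2 / (288 * C) := ⟨_, rfl⟩
  have hε₂ : 0 < ε₂ := by rw [hε₂def]; positivity
  obtain ⟨H0, hH0⟩ := h ε₂ hε₂
  refine ⟨max 2 H0, fun P hP => ?_⟩
  have hP2 : 2 ≤ P := le_trans (le_max_left _ _) hP
  have hPH : H0 ≤ 3 * P := by
    have := le_trans (le_max_right _ _) hP
    omega
  obtain ⟨X1, hX1⟩ := hH0 (3 * P) hPH
  refine ⟨max X1 ⌈Real.exp (8 * LS P / ε + 1)⌉₊, fun X hX A b hA hb => ?_⟩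
  have hXX1 : X1 ≤ X := le_trans (le_max_left _ _) hX
  have hXe : Real.exp (8 * LS P / ε + 1) ≤ X := by
    refine (Nat.le_ceil _).trans ?_
    exact_mod_cast le_trans (le_max_right _ _) hX
  have hlog : 8 * LS P / ε + 1 ≤ Real.log X := by
    rw [← Real.log_exp (8 * LS P / ε + 1)]
    exact Real.log_le_log (Real.exp_pos _) hXe
  have hLP0 := b09_LS_nonneg P
  have hlog1 : 1 ≤ Real.log X := by
    have : 0 ≤ 8 * LS P / ε := by positivity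
    linarith
  have hLSX : LS X ≤ 2 * Real.log X := by
    have := b09_LS_le X
    linarith
  have hLSP : 2 * LS P ≤ ε / 4 * Real.log X := by
    have h1 : 8 * LS P / ε ≤ Real.log X := by linarith
    rw [div_le_iff₀ hε] at h1
    linarith
  have hf : ∀ n, |b (Om n) - mX X b| ≤ 2 := by
    intro n
    have h1 := abs_sub (b (Om n)) (mX X b)
    have h2 := hb (Om n)
    have h3 := b09_abs_mX X b hb
    linarith
  obtain ⟨f, hfdef⟩ : ∃ f : ℕ → ℝ, f = fun n => b (Om n) - mX X b := ⟨_, rfl⟩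
  have hf' : ∀ n, |f n| ≤ 2 := by
    intro n
    rw [hfdef]
    exact hf n
  have hQ := b09_Q C ε₂ P hP2 (hen P hP2) hε₂.le X (by linarith) f hf' (by
    intro α
    have h1 := hX1 X hXX1 b hb α
    rw [hfdef]
    exact h1) θ hθ
  have hπ : (1 : ℝ) ≤ (dyP P).card := by exact_mod_cast one_le_card_dyP P (by omega)
  have hg : ∀ n, |∑ p ∈ dyP P, f (n + p)| ≤ 2 * ((dyP P).card : ℝ) := by
    intro n
    refine (Finset.abs_sum_le_sum_abs _ _).trans ?_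
    calc ∑ p ∈ dyP P, |f (n + p)| ≤ ∑ _p ∈ dyP P, (2 : ℝ) :=
          Finset.sum_le_sum fun p _ => hf' _
      _ = 2 * ((dyP P).card : ℝ) := by
          rw [Finset.sum_const, nsmul_eq_mul, mul_comm]
  obtain ⟨T, hT⟩ : ∃ T : ℝ, T = ∑ n ∈ Finset.Icc 1 X, (1 / (n : ℝ)) *
    |∑ p ∈ dyP P, f (n + p)| := ⟨_, rfl⟩
  -- reduction to `T`
  have hred : |∑ n ∈ Finset.Icc 1 X, (1 / (n : ℝ)) *
      ∑ p ∈ dyP P, A n * (b (Om (n + p)) - mX X b)| ≤ T := by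
    rw [hT]
    refine (Finset.abs_sum_le_sum_abs _ _).trans (Finset.sum_le_sum fun n _ => ?_)
    rw [abs_mul, abs_of_nonneg (by positivity : (0 : ℝ) ≤ 1 / (n : ℝ)), ← Finset.mul_sum, abs_mul]
    refine mul_le_mul_of_nonneg_left ?_ (by positivity)
    rw [hfdef]
    exact mul_le_of_le_one_left (abs_nonneg _) (hA n)
  refine hred.trans ?_
  generalize hpi : ((dyP P).card : ℝ) = π at hQ hπ hg ⊢
  have hπ0 : 0 < π := by linarith
  have hP0 : (0 : ℝ) < P := by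
    have : 0 < P := by omega
    exact_mod_cast this
  -- shifts
  have hshift : ∀ s ∈ Finset.Icc 1 P, T ≤ ∑ n ∈ Finset.Icc 1 X, (1 / (n : ℝ)) *
      |∑ p ∈ dyP P, f (n + s + p)| + 2 * π * LS P := by
    intro s hs
    rw [Finset.mem_Icc] at hs
    have h1 := b09_shift X s (fun n => |∑ p ∈ dyP P, f (n + p)|) (2 * π)
      (fun n => abs_nonneg _) hg
    rw [hT]
    refine h1.trans ?_
    have h2 := mul_le_mul_of_nonneg_left (b09_LS_mono hs.2) (by positivity : (0 : ℝ) ≤ 2 * π)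
    linarith
  have hsum := Finset.sum_le_sum hshift
  rw [Finset.sum_const, Nat.card_Icc, Nat.add_sub_cancel, nsmul_eq_mul, Finset.sum_add_distrib,
    Finset.sum_const, Nat.card_Icc, Nat.add_sub_cancel, nsmul_eq_mul] at hsum
  -- the pointwise inequality
  have hpt : ∀ x : ℝ, |x| ≤ π * (ε / 4) / 2 + x ^ 2 / (2 * (π * (ε / 4))) := by
    intro x
    have hl : 0 < π * (ε / 4) := by positivity
    have h1 : 0 ≤ (|x| - π * (ε / 4)) ^ 2 / (2 * (π * (ε / 4))) := by positivity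
    have h2 : (|x| - π * (ε / 4)) ^ 2 / (2 * (π * (ε / 4))) =
        |x| ^ 2 / (2 * (π * (ε / 4))) - |x| + π * (ε / 4) / 2 := by
      field_simp
      ring
    rw [sq_abs] at h2
    linarith
  have hCS : ∑ s ∈ Finset.Icc 1 P, ∑ n ∈ Finset.Icc 1 X, (1 / (n : ℝ)) *
      |∑ p ∈ dyP P, f (n + s + p)| ≤ P * (π * (ε / 4) / 2 * LS X) +
        (1 / (2 * (π * (ε / 4)))) * ∑ n ∈ Finset.Icc 1 X, (1 / (n : ℝ)) *
          ∑ s ∈ Finset.Icc 1 P, (∑ p ∈ dyP P, f (n + s + p)) ^ 2 := by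
    have h1 : ∑ s ∈ Finset.Icc 1 P, ∑ n ∈ Finset.Icc 1 X, (1 / (n : ℝ)) *
        |∑ p ∈ dyP P, f (n + s + p)| ≤ ∑ s ∈ Finset.Icc 1 P, ∑ n ∈ Finset.Icc 1 X, (1 / (n : ℝ)) *
        (π * (ε / 4) / 2 + (∑ p ∈ dyP P, f (n + s + p)) ^ 2 / (2 * (π * (ε / 4)))) :=
      Finset.sum_le_sum fun s _ => Finset.sum_le_sum fun n _ =>
        mul_le_mul_of_nonneg_left (hpt _) (by positivity)
    refine h1.trans (le_of_eq ?_)
    simp only [mul_add, Finset.sum_add_distrib]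
    congr 1
    · rw [Finset.sum_const, Nat.card_Icc, Nat.add_sub_cancel, nsmul_eq_mul, ← Finset.sum_mul]
      unfold LS
      ring
    · rw [Finset.sum_comm, Finset.mul_sum]
      refine Finset.sum_congr rfl fun n _ => ?_
      rw [Finset.mul_sum, Finset.mul_sum]
      refine Finset.sum_congr rfl fun s _ => ?_
      ring
  have hK : 12 * θ * LS X + 18 * C * ε₂ / θ * Real.log X ≤ ε ^ 2 / 8 * Real.log X := by
    have h1 : 18 * C * ε₂ / θ = ε ^ 2 / 16 := by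
      rw [hε₂def]
      field_simp
      norm_num
    have h2 : 12 * θ * LS X ≤ 12 * θ * (2 * Real.log X) :=
      mul_le_mul_of_nonneg_left hLSX (by positivity)
    rw [h1]
    rw [hθdef] at h2 ⊢
    linarith
  have hQ2 : ∑ n ∈ Finset.Icc 1 X, (1 / (n : ℝ)) *
          ∑ s ∈ Finset.Icc 1 P, (∑ p ∈ dyP P, f (n + s + p)) ^ 2 ≤
      P * π ^ 2 * (ε ^ 2 / 8 * Real.log X) :=
    hQ.trans (mul_le_mul_of_nonneg_left hK (by positivity))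
  have hQ3 := mul_le_mul_of_nonneg_left hQ2
    (by positivity : (0 : ℝ) ≤ 1 / (2 * (π * (ε / 4))))
  have hQ4 : (1 / (2 * (π * (ε / 4)))) * (P * π ^ 2 * (ε ^ 2 / 8 * Real.log X)) =
      P * (π * (ε / 4) * Real.log X) := by
    field_simp
    ring
  rw [hQ4] at hQ3
  have hA1 : (P : ℝ) * (π * (ε / 4) / 2 * LS X) ≤ P * (π * (ε / 4) * Real.log X) := by
    refine mul_le_mul_of_nonneg_left ?_ hP0.le
    have := mul_le_mul_of_nonneg_left hLSX (by positivity : (0 : ℝ) ≤ π * (ε / 4) / 2)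
    linarith
  have hA2 : (P : ℝ) * (2 * π * LS P) ≤ P * (π * (ε / 4) * Real.log X) := by
    refine mul_le_mul_of_nonneg_left ?_ hP0.le
    have := mul_le_mul_of_nonneg_left hLSP hπ0.le
    linarith
  have hfin : (P : ℝ) * T ≤ P * (ε * π * Real.log X) := by
    have h9 : 0 ≤ (P : ℝ) * (π * (ε / 4) * Real.log X) := by positivity
    linarith
  exact le_of_mul_le_mul_left hfin hP0

end MRB
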