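import Pool.Agent.Helper33.MRB.Defs

/-!
# MRB-C01: Turán-Kubilius in logarithmic means

Proof. Expand the square. With `L(y) = ∑_{m ≤ y} 1/m` (`log y ≤ L(y) ≤ 1 + log y`, natural `y` or
floors: `L(⌊X/d⌋) ≥ log (X/d)`):
`∑_{n≤X} ω(n)²/n = ∑_{p,p' ∈ S} (1/lcm(p,p')) L(X/lcm(p,p')) ≤ (1 + log X) (∑_{p≠p'} 1/(p p') + ∑_p 1/p)`,
`∑_{n≤X} ω(n)/n = ∑_p (1/p) L(X/p) ≥ W log X - ∑_p (log p)/p`, `∑_{n≤X} W²/n ≤ W² (1 + log X)`.
Total: `log X (W² - ∑ 1/p² + W - 2W² + W²) + O_S(1) ≤ W log X + O_S(1) ≤ 2 (W+1) log X` for `X` large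
in terms of `S`.
-/

set_option autoImplicit false

namespace MRB

open Finset MRP

private theorem LS_harm (X : ℕ) : LS X = ((harmonic X : ℚ) : ℝ) := by
  unfold LS harmonic
  push_cast
  rw [Finset.sum_bij (fun (n : ℕ) (_ : n ∈ Finset.Icc 1 X) => n - 1)]
  · intro a ha
    rw [Finset.mem_Icc] at ha
    rw [Finset.mem_range]
    omega
  · intro a ha b hb h
    rw [Finset.mem_Icc] at ha hb
    omega
  · intro b hb
    rw [Finset.mem_range] at hb
    exact ⟨b + 1, by rw [Finset.mem_Icc]; omega, by omega⟩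
  · intro a ha
    rw [Finset.mem_Icc] at ha
    have : ((a - 1 : ℕ) : ℝ) + 1 = a := by
      have h : a - 1 + 1 = a := by omega
      exact_mod_cast congrArg (Nat.cast (R := ℝ)) h
    rw [this, one_div]

theorem log_le_LS (X : ℕ) (hX : 1 ≤ X) : Real.log X ≤ LS X := by
  rw [LS_harm]
  refine le_trans ?_ (log_add_one_le_harmonic X)
  apply Real.log_le_log
  · exact_mod_cast hX
  · push_cast
    linarith

theorem LS_le (X : ℕ) (hX : 1 ≤ X) : LS X ≤ 1 + Real.log X := by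
  rw [LS_harm]
  exact harmonic_le_one_add_log X

private theorem LS_mono {a b : ℕ} (h : a ≤ b) : LS a ≤ LS b := by
  unfold LS
  refine Finset.sum_le_sum_of_subset_of_nonneg (Finset.Icc_subset_Icc_right h) ?_
  intro i _ _
  positivity

private theorem sum_dvd (d X : ℕ) (hd : 1 ≤ d) :
    ∑ n ∈ (Finset.Icc 1 X).filter (fun n => d ∣ n), (1 / (n : ℝ)) = 1 / (d : ℝ) * LS (X / d) := by
  unfold LS
  rw [Finset.mul_sum]
  symm
  refine Finset.sum_bij (fun (m : ℕ) _ => d * m) ?_ ?_ ?_ ?_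
  · intro m hm
    rw [Finset.mem_Icc] at hm
    rw [Finset.mem_filter, Finset.mem_Icc]
    refine ⟨⟨Nat.mul_pos hd hm.1, ?_⟩, dvd_mul_right _ _⟩
    calc d * m ≤ d * (X / d) := Nat.mul_le_mul_left _ hm.2
      _ ≤ X := Nat.mul_div_le X d
  · intro a _ b _ h
    exact Nat.eq_of_mul_eq_mul_left hd h
  · intro n hn
    rw [Finset.mem_filter, Finset.mem_Icc] at hn
    obtain ⟨m, rfl⟩ := hn.2
    refine ⟨m, ?_, rfl⟩
    rw [Finset.mem_Icc]
    refine ⟨Nat.pos_of_mul_pos_left hn.1.1, ?_⟩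
    rw [Nat.le_div_iff_mul_le hd, mul_comm]
    exact hn.1.2
  · intro m _
    push_cast
    rw [one_div_mul_one_div]

private theorem sum_dvd_le (d X : ℕ) (hd : 1 ≤ d) (hX : 1 ≤ X) :
    ∑ n ∈ (Finset.Icc 1 X).filter (fun n => d ∣ n), (1 / (n : ℝ)) ≤
      1 / (d : ℝ) * (1 + Real.log X) := by
  rw [sum_dvd d X hd]
  apply mul_le_mul_of_nonneg_left _ (by positivity)
  exact (LS_mono (Nat.div_le_self X d)).trans (LS_le X hX)

private theorem sum_dvd_ge (d X : ℕ) (hd : 1 ≤ d) (hX : 1 ≤ X) :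
    1 / (d : ℝ) * (Real.log X - Real.log d) ≤
      ∑ n ∈ (Finset.Icc 1 X).filter (fun n => d ∣ n), (1 / (n : ℝ)) := by
  rw [sum_dvd d X hd]
  apply mul_le_mul_of_nonneg_left _ (by positivity)
  have hX0 : (X : ℝ) ≠ 0 := by
    have : (1 : ℝ) ≤ X := by exact_mod_cast hX
    linarith
  have hd0 : (d : ℝ) ≠ 0 := by
    have : (1 : ℝ) ≤ d := by exact_mod_cast hd
    linarith
  rw [← Real.log_div hX0 hd0, LS_harm]
  have h := log_le_harmonic_floor ((X : ℝ) / d) (by positivity)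
  rwa [Nat.floor_div_eq_div] at h

private theorem om_sum (S : Finset ℕ) (n : ℕ) : (om S n : ℝ) = ∑ p ∈ S, if p ∣ n then (1 : ℝ) else 0 := by
  unfold om
  rw [Finset.card_filter]
  push_cast
  rfl

private theorem om_first (S : Finset ℕ) (hS : ∀ p ∈ S, p.Prime) (X : ℕ) (hX : 1 ≤ X) :
    Wp S * Real.log X - ∑ p ∈ S, 1 / (p : ℝ) * Real.log p ≤
      ∑ n ∈ Finset.Icc 1 X, (1 / (n : ℝ)) * (om S n : ℝ) := by
  have h1 : ∑ n ∈ Finset.Icc 1 X, (1 / (n : ℝ)) * (om S n : ℝ) =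
      ∑ p ∈ S, ∑ n ∈ (Finset.Icc 1 X).filter (fun n => p ∣ n), (1 / (n : ℝ)) := by
    simp_rw [om_sum, Finset.mul_sum]
    rw [Finset.sum_comm]
    refine Finset.sum_congr rfl fun p _ => ?_
    rw [Finset.sum_filter]
    refine Finset.sum_congr rfl fun n _ => ?_
    split_ifs <;> simp
  rw [h1]
  unfold Wp
  rw [Finset.sum_mul, ← Finset.sum_sub_distrib]
  refine Finset.sum_le_sum fun p hp => ?_
  rw [← mul_sub]
  exact sum_dvd_ge p X (hS p hp).one_lt.le hX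

private theorem om_second (S : Finset ℕ) (hS : ∀ p ∈ S, p.Prime) (X : ℕ) (hX : 1 ≤ X) :
    ∑ n ∈ Finset.Icc 1 X, (1 / (n : ℝ)) * (om S n : ℝ) ^ 2 ≤
      (Wp S ^ 2 + Wp S) * (1 + Real.log X) := by
  have hL : 0 ≤ 1 + Real.log X := by
    have : 0 ≤ Real.log X := Real.log_natCast_nonneg X
    linarith
  have h1 : ∑ n ∈ Finset.Icc 1 X, (1 / (n : ℝ)) * (om S n : ℝ) ^ 2 =
      ∑ p ∈ S, ∑ q ∈ S, ∑ n ∈ (Finset.Icc 1 X).filter (fun n => p ∣ n ∧ q ∣ n),
        (1 / (n : ℝ)) := by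
    have h2 : ∀ n ∈ Finset.Icc 1 X, (1 / (n : ℝ)) * (om S n : ℝ) ^ 2 =
        ∑ p ∈ S, ∑ q ∈ S, if p ∣ n ∧ q ∣ n then (1 / (n : ℝ)) else 0 := by
      intro n _
      rw [om_sum, sq, Finset.sum_mul_sum, Finset.mul_sum]
      refine Finset.sum_congr rfl fun p _ => ?_
      rw [Finset.mul_sum]
      refine Finset.sum_congr rfl fun q _ => ?_
      by_cases hp : p ∣ n <;> by_cases hq : q ∣ n <;> simp [hp, hq]
    rw [Finset.sum_congr rfl h2, Finset.sum_comm]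
    refine Finset.sum_congr rfl fun p _ => ?_
    rw [Finset.sum_comm]
    refine Finset.sum_congr rfl fun q _ => ?_
    rw [Finset.sum_filter]
  rw [h1]
  have h3 : ∀ p ∈ S, ∀ q ∈ S, ∑ n ∈ (Finset.Icc 1 X).filter (fun n => p ∣ n ∧ q ∣ n),
      (1 / (n : ℝ)) ≤ (1 / (p : ℝ) * (1 / (q : ℝ)) + if p = q then 1 / (p : ℝ) else 0) *
        (1 + Real.log X) := by
    intro p hp q hq
    by_cases hpq : p = q
    · subst hpq
      rw [if_pos rfl]
      have h4 := sum_dvd_le p X (hS p hp).one_lt.le hX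
      have h5 : (Finset.Icc 1 X).filter (fun n => p ∣ n ∧ p ∣ n) =
          (Finset.Icc 1 X).filter (fun n => p ∣ n) := by
        simp
      rw [h5]
      refine h4.trans ?_
      apply mul_le_mul_of_nonneg_right _ hL
      have : (0 : ℝ) ≤ 1 / (p : ℝ) * (1 / (p : ℝ)) := by positivity
      linarith
    · rw [if_neg hpq, add_zero]
      have hc : Nat.Coprime p q := (Nat.coprime_primes (hS p hp) (hS q hq)).2 hpq
      have h4 := sum_dvd_le (p * q) X (Nat.mul_pos (hS p hp).pos (hS q hq).pos) hX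
      have h5 : (Finset.Icc 1 X).filter (fun n => p ∣ n ∧ q ∣ n) =
          (Finset.Icc 1 X).filter (fun n => p * q ∣ n) := by
        refine Finset.filter_congr fun n _ => ?_
        exact ⟨fun h => hc.mul_dvd_of_dvd_of_dvd h.1 h.2,
          fun h => ⟨(dvd_mul_right p q).trans h, (dvd_mul_left q p).trans h⟩⟩
      rw [h5]
      refine h4.trans (le_of_eq ?_)
      push_cast
      rw [one_div_mul_one_div]
  refine (Finset.sum_le_sum fun p hp => Finset.sum_le_sum fun q hq => h3 p hp q hq).trans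
    (le_of_eq ?_)
  simp_rw [← Finset.sum_mul]
  congr 1
  simp_rw [Finset.sum_add_distrib]
  unfold Wp
  rw [sq, Finset.sum_mul_sum]
  congr 1
  refine Finset.sum_congr rfl fun p hp => ?_
  rw [Finset.sum_ite_eq, if_pos hp]

theorem tk_log (S : Finset ℕ) (hS : ∀ p ∈ S, p.Prime) : ∃ X0 : ℕ, ∀ X : ℕ, X0 ≤ X →
    ∑ n ∈ Finset.Icc 1 X, (1 / (n : ℝ)) * ((om S n : ℝ) - Wp S) ^ 2 ≤
      2 * (Wp S + 1) * Real.log X := by
  set C : ℝ := ∑ p ∈ S, 1 / (p : ℝ) * Real.log p with hC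
  set W : ℝ := Wp S with hW
  have hW0 : 0 ≤ W := by
    rw [hW]
    unfold Wp
    exact Finset.sum_nonneg fun p _ => by positivity
  have hC0 : 0 ≤ C := by
    rw [hC]
    exact Finset.sum_nonneg fun p _ =>
      mul_nonneg (by positivity) (Real.log_natCast_nonneg p)
  refine ⟨⌈Real.exp (2 * W ^ 2 + W + 2 * W * C)⌉₊ + 1, fun X hX => ?_⟩
  have hX1 : 1 ≤ X := by omega
  have hlog : 2 * W ^ 2 + W + 2 * W * C ≤ Real.log X := by
    rw [Real.le_log_iff_exp_le (by exact_mod_cast hX1)]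
    refine (Nat.le_ceil _).trans ?_
    exact_mod_cast (by omega : ⌈Real.exp (2 * W ^ 2 + W + 2 * W * C)⌉₊ ≤ X)
  have h1 : ∑ n ∈ Finset.Icc 1 X, (1 / (n : ℝ)) * ((om S n : ℝ) - W) ^ 2 =
      ∑ n ∈ Finset.Icc 1 X, (1 / (n : ℝ)) * (om S n : ℝ) ^ 2 -
        2 * W * ∑ n ∈ Finset.Icc 1 X, (1 / (n : ℝ)) * (om S n : ℝ) + W ^ 2 * LS X := by
    unfold LS
    rw [Finset.mul_sum, Finset.mul_sum, ← Finset.sum_sub_distrib, ← Finset.sum_add_distrib]
    refine Finset.sum_congr rfl fun n _ => ?_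
    ring
  rw [h1]
  have h2 := om_first S hS X hX1
  have h3 := om_second S hS X hX1
  have h4 := LS_le X hX1
  rw [← hC, ← hW] at h2
  rw [← hW] at h3
  have h5 : 2 * W * (W * Real.log X - C) ≤
      2 * W * ∑ n ∈ Finset.Icc 1 X, (1 / (n : ℝ)) * (om S n : ℝ) :=
    mul_le_mul_of_nonneg_left h2 (by positivity)
  have h6 : W ^ 2 * LS X ≤ W ^ 2 * (1 + Real.log X) :=
    mul_le_mul_of_nonneg_left h4 (by positivity)
  have hl0 : 0 ≤ Real.log X := Real.log_natCast_nonneg X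
  nlinarith [mul_nonneg hW0 hl0, mul_nonneg hW0 hC0]

end MRB
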