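import Pool.Agent.Helper33.MRB.Defs

/-!
# MRB-C02: geometric sums

Proof. `(e(θ) - 1) ∑_{m=A}^{B} e(mθ) = e((B+1)θ) - e(Aθ)` has norm `≤ 2`, and
`‖e(θ) - 1‖ = 2 |sin(πθ)| ≥ 4 nd θ` (`|sin(πθ)| = sin(π nd θ)`, `0 ≤ nd θ ≤ 1/2`, and
`sin(πx) ≥ 2x` on `[0, 1/2]`: `Real.mul_le_sin`). So `‖∑‖ · 4 nd θ ≤ 2`.
With the decreasing weights `1/m`: summation by parts,
`∑_{m=A}^{B} z_m/m = ∑_{m=A}^{B} (1/m - 1/(m+1)) Z_m + Z_B/(B+1)` with `Z_m = ∑_{A≤i≤m} z_i`, all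
`‖Z_m‖ 2 nd θ ≤ 1` and the coefficients are nonnegative with sum `1/A`.
-/

set_option autoImplicit false

namespace MRB

open Finset MRP

theorem nd_nonneg (x : ℝ) : 0 ≤ nd x := abs_nonneg _

private theorem c02_norm (x : ℝ) : ‖eC x‖ = 1 := by
  unfold eC
  have h : 2 * (Real.pi : ℂ) * Complex.I * (x : ℂ) = ((2 * Real.pi * x : ℝ) : ℂ) * Complex.I := by
    push_cast
    ring
  rw [h, Complex.norm_exp_ofReal_mul_I]

private theorem c02_pow (m : ℕ) (θ : ℝ) : eC ((m : ℝ) * θ) = eC θ ^ m := by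
  unfold eC
  rw [← Complex.exp_nat_mul]
  congr 1
  push_cast
  ring

private theorem c02_sub_one (θ : ℝ) : 4 * nd θ ≤ ‖eC θ - 1‖ := by
  have h1 : ‖eC θ - 1‖ = ‖2 * Real.sin (Real.pi * θ)‖ := by
    have h2 := Complex.norm_exp_I_mul_ofReal_sub_one (2 * Real.pi * θ)
    have h3 : eC θ = Complex.exp (Complex.I * ((2 * Real.pi * θ : ℝ) : ℂ)) := by
      unfold eC
      congr 1
      push_cast
      ring
    rw [h3, h2]
    congr 3
    ring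
  rw [h1, norm_mul, Real.norm_eq_abs, Real.norm_eq_abs, abs_two]
  have h4 : |Real.sin (Real.pi * θ)| = |Real.sin (Real.pi * (θ - round θ))| := by
    have h5 : Real.pi * (θ - round θ) = Real.pi * θ - (round θ : ℤ) * Real.pi := by ring
    rw [h5, Real.sin_sub_int_mul_pi, abs_mul]
    have h6 : |((-1 : ℝ)) ^ (round θ)| = 1 := by
      rw [abs_zpow]
      simp
    rw [h6, one_mul]
  rw [h4]
  have h7 : |Real.pi * (θ - round θ)| ≤ Real.pi / 2 := by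
    rw [abs_mul, abs_of_pos Real.pi_pos]
    have := abs_sub_round θ
    nlinarith [Real.pi_pos]
  have h8 := Real.mul_abs_le_abs_sin h7
  rw [abs_mul, abs_of_pos Real.pi_pos] at h8
  have h9 : 2 / Real.pi * (Real.pi * |θ - round θ|) = 2 * |θ - round θ| := by
    field_simp
  rw [h9] at h8
  unfold nd
  linarith

theorem geom_le (A B : ℕ) (θ : ℝ) :
    ‖∑ m ∈ Finset.Icc A B, eC ((m : ℝ) * θ)‖ * (2 * nd θ) ≤ 1 := by
  rcases Nat.lt_or_ge B A with h | h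
  · rw [Finset.Icc_eq_empty (by omega)]
    simp
  · have h1 : ∑ m ∈ Finset.Icc A B, eC ((m : ℝ) * θ) = ∑ m ∈ Finset.Ico A (B + 1), eC θ ^ m := by
      refine Finset.sum_congr ?_ (fun m _ => c02_pow m θ)
      ext m
      simp only [Finset.mem_Icc, Finset.mem_Ico]
      omega
    rw [h1]
    have h2 := geom_sum_Ico_mul (eC θ) (show A ≤ B + 1 by omega)
    have h3 : ‖∑ m ∈ Finset.Ico A (B + 1), eC θ ^ m‖ * ‖eC θ - 1‖ ≤ 2 := by
      rw [← norm_mul, h2]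
      refine (norm_sub_le _ _).trans ?_
      rw [norm_pow, norm_pow, c02_norm]
      norm_num
    have h4 := c02_sub_one θ
    have h5 : ‖∑ m ∈ Finset.Ico A (B + 1), eC θ ^ m‖ * (4 * nd θ) ≤ 2 :=
      (mul_le_mul_of_nonneg_left h4 (norm_nonneg _)).trans h3
    linarith

private theorem c02_parts (w : ℕ → ℂ) (A : ℕ) (k : ℕ) :
    ∑ m ∈ Finset.Icc A (A + k), ((1 / (m : ℝ) : ℝ) : ℂ) * w m =
      ∑ m ∈ Finset.Icc A (A + k), ((1 / (m : ℝ) - 1 / ((m : ℝ) + 1) : ℝ) : ℂ) *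
        (∑ i ∈ Finset.Icc A m, w i) +
        ((1 / (((A + k : ℕ) : ℝ) + 1) : ℝ) : ℂ) * ∑ i ∈ Finset.Icc A (A + k), w i := by
  induction k with
  | zero =>
    simp only [add_zero, Finset.Icc_self, Finset.sum_singleton]
    push_cast
    ring
  | succ k ih =>
    have hs : ∀ g : ℕ → ℂ, ∑ m ∈ Finset.Icc A (A + (k + 1)), g m =
        ∑ m ∈ Finset.Icc A (A + k), g m + g (A + (k + 1)) := by
      intro g
      rw [show A + (k + 1) = (A + k) + 1 by ring, Finset.sum_Icc_succ_top (by omega)]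
    rw [hs, ih, hs (fun m => ((1 / (m : ℝ) - 1 / ((m : ℝ) + 1) : ℝ) : ℂ) *
        (∑ i ∈ Finset.Icc A m, w i)), hs w]
    push_cast
    ring_nf

private theorem c02_tele (A : ℕ) (k : ℕ) :
    ∑ m ∈ Finset.Icc A (A + k), (1 / (m : ℝ) - 1 / ((m : ℝ) + 1)) +
        1 / (((A + k : ℕ) : ℝ) + 1) = 1 / (A : ℝ) := by
  induction k with
  | zero => simp
  | succ k ih =>
    rw [show A + (k + 1) = (A + k) + 1 by ring, Finset.sum_Icc_succ_top (by omega)]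
    push_cast at ih ⊢
    linarith

private theorem c02_weight (w : ℕ → ℂ) (A : ℕ) (hA : 1 ≤ A) (c : ℝ) (hc : 0 ≤ c)
    (hw : ∀ m, ‖∑ i ∈ Finset.Icc A m, w i‖ * c ≤ 1) (k : ℕ) :
    ‖∑ m ∈ Finset.Icc A (A + k), ((1 / (m : ℝ) : ℝ) : ℂ) * w m‖ * c ≤ 1 / (A : ℝ) := by
  rw [c02_parts w A k, ← c02_tele A k]
  have h1 := norm_add_le (∑ m ∈ Finset.Icc A (A + k),
    ((1 / (m : ℝ) - 1 / ((m : ℝ) + 1) : ℝ) : ℂ) * (∑ i ∈ Finset.Icc A m, w i))
    (((1 / (((A + k : ℕ) : ℝ) + 1) : ℝ) : ℂ) * ∑ i ∈ Finset.Icc A (A + k), w i)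
  refine (mul_le_mul_of_nonneg_right h1 hc).trans ?_
  rw [add_mul]
  refine add_le_add ?_ ?_
  · refine (mul_le_mul_of_nonneg_right (norm_sum_le _ _) hc).trans ?_
    rw [Finset.sum_mul]
    refine Finset.sum_le_sum ?_
    intro m hm
    have hm1 : 1 ≤ m := hA.trans (Finset.mem_Icc.1 hm).1
    have hmr : (0 : ℝ) < m := by exact_mod_cast hm1
    have h2 : (0 : ℝ) ≤ 1 / (m : ℝ) - 1 / ((m : ℝ) + 1) := by
      rw [sub_nonneg]
      exact one_div_le_one_div_of_le hmr (by linarith)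
    rw [norm_mul, Complex.norm_real, Real.norm_of_nonneg h2, mul_assoc]
    calc (1 / (m : ℝ) - 1 / ((m : ℝ) + 1)) * (‖∑ i ∈ Finset.Icc A m, w i‖ * c) ≤
          (1 / (m : ℝ) - 1 / ((m : ℝ) + 1)) * 1 := mul_le_mul_of_nonneg_left (hw m) h2
      _ = _ := mul_one _
  · have h3 : (0 : ℝ) ≤ 1 / (((A + k : ℕ) : ℝ) + 1) := by positivity
    rw [norm_mul, Complex.norm_real, Real.norm_of_nonneg h3, mul_assoc]
    calc 1 / (((A + k : ℕ) : ℝ) + 1) * (‖∑ i ∈ Finset.Icc A (A + k), w i‖ * c) ≤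
          1 / (((A + k : ℕ) : ℝ) + 1) * 1 := mul_le_mul_of_nonneg_left (hw _) h3
      _ = _ := mul_one _

theorem geom_weight_le (A B : ℕ) (hA : 1 ≤ A) (θ : ℝ) :
    ‖∑ m ∈ Finset.Icc A B, ((1 / (m : ℝ) : ℝ) : ℂ) * eC ((m : ℝ) * θ)‖ * (2 * nd θ) ≤
      1 / (A : ℝ) := by
  rcases Nat.lt_or_ge B A with h | h
  · rw [Finset.Icc_eq_empty (by omega)]
    simp
  · obtain ⟨k, rfl⟩ := Nat.exists_eq_add_of_le h
    exact c02_weight (fun m => eC ((m : ℝ) * θ)) A hA (2 * nd θ)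
      (mul_nonneg zero_le_two (nd_nonneg θ)) (fun m => geom_le A m θ) k

end MRB
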