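import Pool.Agent.Helper33.MRB.Defs

/-!
# MRB-C03: duality and exchange of the short sum

Proof. Let `z_n = ∑_{j≤H} f(n+j) e(jα)`, choose `u_n` with `‖u_n‖ ≤ 1`, `u_n z_n = ‖z_n‖`, and
`c n = u_n e(-nα)` for `1 ≤ n ≤ X`, `c n = 0` otherwise. Then
`∑_{n≤X} (1/n) ‖z_n‖ = ∑_{n≤X} ∑_{j≤H} (1/n) c_n f(n+j) e((n+j)α)`. Replacing `1/n` by `1/(n+j)` costs
at most `∑_{n≤X} ∑_{j≤H} 2 j/(n(n+j)) ≤ 2H² ∑ 1/n² ≤ 4H² ≤ δ log X` for `X` large. Collecting the terms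
with `N = n + j ∈ [1, X+H]` gives `∑_N (1/N) f(N) e(Nα) ∑_{j≤H} c(N-j)`: if `N ≤ j` then `N - j = 0` (natural
subtraction) and `c 0 = 0`; if `N - j > X` then `c (N-j) = 0`.
-/

set_option autoImplicit false

namespace MRB

open Finset MRP

private theorem eC_add' (x y : ℝ) : eC (x + y) = eC x * eC y := by
  unfold eC
  rw [← Complex.exp_add]
  congr 1
  push_cast
  ring

private theorem norm_eC' (x : ℝ) : ‖eC x‖ = 1 := by
  unfold eC
  rw [Complex.norm_exp]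
  have h : (2 * (Real.pi : ℂ) * Complex.I * (x : ℂ)).re = 0 := by
    simp [Complex.mul_re, Complex.mul_im]
  rw [h, Real.exp_zero]

private theorem exists_phase (z : ℂ) : ∃ u : ℂ, ‖u‖ ≤ 1 ∧ u * z = ((‖z‖ : ℝ) : ℂ) := by
  by_cases hz : z = 0
  · refine ⟨0, by simp, by simp [hz]⟩
  · have hn : ‖z‖ ≠ 0 := norm_ne_zero_iff.mpr hz
    refine ⟨(starRingEnd ℂ) z / ((‖z‖ : ℝ) : ℂ), ?_, ?_⟩
    · rw [norm_div, RCLike.norm_conj, Complex.norm_real, norm_norm, div_self hn]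
    · rw [div_mul_eq_mul_div, Complex.conj_mul', div_eq_iff (by exact_mod_cast hn)]
      push_cast
      ring

theorem dualise (H : ℕ) (δ : ℝ) (hδ : 0 < δ) : ∃ X0 : ℕ, ∀ X : ℕ, X0 ≤ X →
    ∀ (f : ℕ → ℂ) (α : ℝ), (∀ n, ‖f n‖ ≤ 2) →
      ∃ c : ℕ → ℂ, (∀ n, ‖c n‖ ≤ 1) ∧ c 0 = 0 ∧ (∀ n, X < n → c n = 0) ∧
        ∑ n ∈ Finset.Icc 1 X, (1 / (n : ℝ)) *
          ‖∑ j ∈ Finset.Icc 1 H, f (n + j) * eC ((j : ℝ) * α)‖ ≤
        ‖∑ N ∈ Finset.Icc 1 (X + H), ((1 / (N : ℝ) : ℝ) : ℂ) *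
          (f N * eC ((N : ℝ) * α) * ∑ j ∈ Finset.Icc 1 H, c (N - j))‖ + δ * Real.log X := by
  have hsum : Summable (fun n : ℕ => 1 / (n : ℝ) ^ 2) :=
    Real.summable_one_div_nat_pow.mpr one_lt_two
  set S : ℝ := ∑' n : ℕ, 1 / (n : ℝ) ^ 2 with hSdef
  have hS0 : 0 ≤ S := tsum_nonneg fun n => by positivity
  refine ⟨⌈Real.exp (2 * (H : ℝ) ^ 2 * S / δ)⌉₊, ?_⟩
  intro X hX f α hf
  have hXe : Real.exp (2 * (H : ℝ) ^ 2 * S / δ) ≤ (X : ℝ) :=
    le_trans (Nat.le_ceil _) (by exact_mod_cast hX)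
  have hXpos : (0 : ℝ) < (X : ℝ) := lt_of_lt_of_le (Real.exp_pos _) hXe
  have hlog : 2 * (H : ℝ) ^ 2 * S ≤ δ * Real.log X := by
    have h1 := (Real.le_log_iff_exp_le hXpos).mpr hXe
    rw [div_le_iff₀ hδ] at h1
    linarith
  have hu : ∀ n : ℕ, ∃ u : ℂ, ‖u‖ ≤ 1 ∧
      u * (∑ j ∈ Finset.Icc 1 H, f (n + j) * eC ((j : ℝ) * α)) =
        ((‖∑ j ∈ Finset.Icc 1 H, f (n + j) * eC ((j : ℝ) * α)‖ : ℝ) : ℂ) :=
    fun n => exists_phase _
  choose u hu1 hu2 using hu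
  set c : ℕ → ℂ := fun n => if 1 ≤ n ∧ n ≤ X then u n * eC (-((n : ℝ) * α)) else 0 with hc
  have hc1 : ∀ n, ‖c n‖ ≤ 1 := by
    intro n
    simp only [hc]
    split_ifs
    · rw [norm_mul, norm_eC', mul_one]
      exact hu1 n
    · simp
  have hc0 : c 0 = 0 := by simp [hc]
  have hcX : ∀ n, X < n → c n = 0 := by
    intro n hn
    simp only [hc]
    rw [if_neg]
    omega
  refine ⟨c, hc1, hc0, hcX, ?_⟩
  set S1 : ℂ := ∑ n ∈ Finset.Icc 1 X, ∑ j ∈ Finset.Icc 1 H,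
    ((1 / (n : ℝ) : ℝ) : ℂ) * (c n * f (n + j) * eC (((n + j : ℕ) : ℝ) * α)) with hS1
  set S2 : ℂ := ∑ n ∈ Finset.Icc 1 X, ∑ j ∈ Finset.Icc 1 H,
    ((1 / ((n + j : ℕ) : ℝ) : ℝ) : ℂ) * (c n * f (n + j) * eC (((n + j : ℕ) : ℝ) * α)) with hS2
  have hA : ((∑ n ∈ Finset.Icc 1 X, (1 / (n : ℝ)) *
      ‖∑ j ∈ Finset.Icc 1 H, f (n + j) * eC ((j : ℝ) * α)‖ : ℝ) : ℂ) = S1 := by
    rw [hS1, Complex.ofReal_sum]
    apply Finset.sum_congr rfl
    intro n hn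
    rw [Finset.mem_Icc] at hn
    rw [Complex.ofReal_mul, ← hu2 n, Finset.mul_sum, Finset.mul_sum]
    apply Finset.sum_congr rfl
    intro j _
    have hcn : c n = u n * eC (-((n : ℝ) * α)) := by
      simp only [hc]
      rw [if_pos hn]
    have he : eC (-((n : ℝ) * α)) * eC (((n + j : ℕ) : ℝ) * α) = eC ((j : ℝ) * α) := by
      rw [← eC_add']
      congr 1
      push_cast
      ring
    rw [hcn]
    calc ((1 / (n : ℝ) : ℝ) : ℂ) * (u n * (f (n + j) * eC ((j : ℝ) * α))) =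
        ((1 / (n : ℝ) : ℝ) : ℂ) * (u n * (f (n + j) *
          (eC (-((n : ℝ) * α)) * eC (((n + j : ℕ) : ℝ) * α)))) := by rw [he]
      _ = _ := by ring
  have hB : ‖S1 - S2‖ ≤ 2 * (H : ℝ) ^ 2 * S := by
    rw [hS1, hS2, ← Finset.sum_sub_distrib]
    calc ‖∑ n ∈ Finset.Icc 1 X, (∑ j ∈ Finset.Icc 1 H,
          ((1 / (n : ℝ) : ℝ) : ℂ) * (c n * f (n + j) * eC (((n + j : ℕ) : ℝ) * α)) -
          ∑ j ∈ Finset.Icc 1 H,
          ((1 / ((n + j : ℕ) : ℝ) : ℝ) : ℂ) * (c n * f (n + j) * eC (((n + j : ℕ) : ℝ) * α)))‖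
        ≤ ∑ n ∈ Finset.Icc 1 X, 2 * (H : ℝ) ^ 2 * (1 / (n : ℝ) ^ 2) := by
          apply norm_sum_le_of_le
          intro n hn
          rw [Finset.mem_Icc] at hn
          rw [← Finset.sum_sub_distrib]
          calc ‖∑ j ∈ Finset.Icc 1 H,
              (((1 / (n : ℝ) : ℝ) : ℂ) * (c n * f (n + j) * eC (((n + j : ℕ) : ℝ) * α)) -
              ((1 / ((n + j : ℕ) : ℝ) : ℝ) : ℂ) *
                (c n * f (n + j) * eC (((n + j : ℕ) : ℝ) * α)))‖
              ≤ ∑ j ∈ Finset.Icc 1 H, 2 * (H : ℝ) * (1 / (n : ℝ) ^ 2) := by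
                apply norm_sum_le_of_le
                intro j hj
                rw [Finset.mem_Icc] at hj
                have hn1 : (1 : ℝ) ≤ (n : ℝ) := by exact_mod_cast hn.1
                have hj0 : (0 : ℝ) ≤ (j : ℝ) := Nat.cast_nonneg j
                have hjH : (j : ℝ) ≤ (H : ℝ) := by exact_mod_cast hj.2
                rw [← sub_mul, ← Complex.ofReal_sub, norm_mul, Complex.norm_real]
                have h1 : ‖(1 / (n : ℝ) - 1 / ((n + j : ℕ) : ℝ))‖ ≤ (H : ℝ) * (1 / (n : ℝ) ^ 2) := by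
                  have h2 : (1 / (n : ℝ) - 1 / ((n + j : ℕ) : ℝ)) =
                      (j : ℝ) / ((n : ℝ) * ((n : ℝ) + j)) := by
                    push_cast
                    field_simp
                    ring
                  rw [h2, Real.norm_of_nonneg (by positivity)]
                  rw [mul_one_div]
                  have h3 : (n : ℝ) ^ 2 ≤ (n : ℝ) * ((n : ℝ) + j) := by nlinarith
                  exact div_le_div₀ (Nat.cast_nonneg _) hjH (by positivity) h3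
                have h4 : ‖c n * f (n + j) * eC (((n + j : ℕ) : ℝ) * α)‖ ≤ 2 := by
                  rw [norm_mul, norm_mul, norm_eC', mul_one]
                  calc ‖c n‖ * ‖f (n + j)‖ ≤ 1 * 2 :=
                        mul_le_mul (hc1 n) (hf _) (norm_nonneg _) zero_le_one
                    _ = 2 := one_mul 2
                calc ‖(1 / (n : ℝ) - 1 / ((n + j : ℕ) : ℝ))‖ *
                    ‖c n * f (n + j) * eC (((n + j : ℕ) : ℝ) * α)‖ ≤
                    ((H : ℝ) * (1 / (n : ℝ) ^ 2)) * 2 :=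
                      mul_le_mul h1 h4 (norm_nonneg _) (by positivity)
                  _ = 2 * (H : ℝ) * (1 / (n : ℝ) ^ 2) := by ring
            _ = 2 * (H : ℝ) ^ 2 * (1 / (n : ℝ) ^ 2) := by
                rw [Finset.sum_const, Nat.card_Icc, nsmul_eq_mul]
                push_cast
                ring
      _ = 2 * (H : ℝ) ^ 2 * ∑ n ∈ Finset.Icc 1 X, (1 / (n : ℝ) ^ 2) := by
          rw [Finset.mul_sum]
      _ ≤ 2 * (H : ℝ) ^ 2 * S := by
          apply mul_le_mul_of_nonneg_left _ (by positivity)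
          exact hsum.sum_le_tsum _ (fun n _ => by positivity)
  have hC : S2 = ∑ N ∈ Finset.Icc 1 (X + H), ((1 / (N : ℝ) : ℝ) : ℂ) *
          (f N * eC ((N : ℝ) * α) * ∑ j ∈ Finset.Icc 1 H, c (N - j)) := by
    have hR : ∑ N ∈ Finset.Icc 1 (X + H), ((1 / (N : ℝ) : ℝ) : ℂ) *
          (f N * eC ((N : ℝ) * α) * ∑ j ∈ Finset.Icc 1 H, c (N - j)) =
        ∑ j ∈ Finset.Icc 1 H, ∑ N ∈ Finset.Icc 1 (X + H), ((1 / (N : ℝ) : ℝ) : ℂ) *
          (c (N - j) * f N * eC ((N : ℝ) * α)) := by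
      rw [Finset.sum_comm]
      apply Finset.sum_congr rfl
      intro N _
      rw [Finset.mul_sum, Finset.mul_sum]
      apply Finset.sum_congr rfl
      intro j _
      ring
    rw [hR, hS2, Finset.sum_comm]
    apply Finset.sum_congr rfl
    intro j hj
    rw [Finset.mem_Icc] at hj
    have h1 : ∑ n ∈ Finset.Icc 1 X, ((1 / ((n + j : ℕ) : ℝ) : ℝ) : ℂ) *
        (c n * f (n + j) * eC (((n + j : ℕ) : ℝ) * α)) =
        ∑ N ∈ Finset.Icc (1 + j) (X + j), ((1 / (N : ℝ) : ℝ) : ℂ) *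
          (c (N - j) * f N * eC ((N : ℝ) * α)) := by
      rw [← Finset.map_add_right_Icc, Finset.sum_map]
      apply Finset.sum_congr rfl
      intro n _
      simp only [addRightEmbedding_apply, Nat.add_sub_cancel]
    rw [h1]
    apply Finset.sum_subset
    · intro N hN
      rw [Finset.mem_Icc] at hN ⊢
      omega
    · intro N hN hN'
      rw [Finset.mem_Icc] at hN hN'
      have h2 : c (N - j) = 0 := by
        by_cases h3 : N ≤ j
        · rw [Nat.sub_eq_zero_of_le h3]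
          exact hc0
        · apply hcX
          omega
      rw [h2]
      ring
  have hL0 : 0 ≤ ∑ n ∈ Finset.Icc 1 X, (1 / (n : ℝ)) *
      ‖∑ j ∈ Finset.Icc 1 H, f (n + j) * eC ((j : ℝ) * α)‖ :=
    Finset.sum_nonneg fun n _ => by positivity
  have hD : ∑ n ∈ Finset.Icc 1 X, (1 / (n : ℝ)) *
      ‖∑ j ∈ Finset.Icc 1 H, f (n + j) * eC ((j : ℝ) * α)‖ = ‖S1‖ := by
    rw [← hA, Complex.norm_real, Real.norm_of_nonneg hL0]
  rw [hD, ← hC]
  have h5 : ‖S1‖ ≤ ‖S2‖ + ‖S1 - S2‖ := by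
    have := norm_add_le S2 (S1 - S2)
    rwa [add_sub_cancel] at this
  linarith

end MRB
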