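import Pool.Agent.Helper33.MRB.Defs

/-!
# MRB-C04: one pair of primes in the Kátai argument

Proof. Write `∑_{j=1}^{H} c(pm-j) = ∑_{n : 1≤n≤X, n < pm ≤ n+H} c_n` (terms with `pm ≤ j` vanish by
`c 0 = 0`). So the left side is at most
`∑_{n≤X} ∑_{n'≤X} ‖∑_{m ∈ I(n,n')} (1/m) e(mθ)‖` with
`I(n,n') = {1 ≤ m ≤ M : n < pm ≤ n+H, n' < p'm ≤ n'+H}`, an interval of integers `[A, A']` with
`A ≥ n/p` (so `1/A ≤ p/n`) and at most `⌊H/p⌋ + 1 ≤ H/R + 1` elements, so `A' ≤ A + H/R`: by `hB` each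
inner sum is at most `B p/n`. For given `n` the number of `n'` with `I(n,n') ≠ ∅` is at most `4H`: all
such `m` lie in an interval of length at most `H/p`, so `p'm` lies in an interval of length
`≤ p'H/p ≤ 2H`, and `p'm - H ≤ n' < p'm` gives an interval with at most `3H + 1 ≤ 4H` integers
(`H ≥ R ≥ 1`). Summing over `n`: `4 H B p LS X`.
-/

set_option autoImplicit false

namespace MRB

open Finset MRP

theorem pair_bound (R H X M p p' : ℕ) (hR : 1 ≤ R) (hRH : R ≤ H) (hp : R < p ∧ p ≤ 2 * R)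
    (hp' : R < p' ∧ p' ≤ 2 * R) (c : ℕ → ℂ) (hc : ∀ n, ‖c n‖ ≤ 1) (hc0 : c 0 = 0)
    (hcX : ∀ n, X < n → c n = 0) (θ B : ℝ) (hB0 : 0 ≤ B)
    (hB : ∀ A A' : ℕ, 1 ≤ A → A' ≤ A + H / R →
      ‖∑ m ∈ Finset.Icc A A', ((1 / (m : ℝ) : ℝ) : ℂ) * eC ((m : ℝ) * θ)‖ ≤ B / A) :
    ‖∑ m ∈ Finset.Icc 1 M, ((1 / (m : ℝ) : ℝ) : ℂ) * (eC ((m : ℝ) * θ) *
      ((∑ j ∈ Finset.Icc 1 H, c (p * m - j)) *
        starRingEnd ℂ (∑ j ∈ Finset.Icc 1 H, c (p' * m - j))))‖ ≤ 4 * H * B * p * LS X := by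
  sorry

end MRB
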