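import Pool.Agent.Helper33.MRB.C01
import Pool.Agent.Helper33.MRB.C02
import Pool.Agent.Helper33.MRB.C04
import Pool.Agent.Helper33.MRB.B07

/-!
# MRB-C05: one dyadic block in the Kátai argument

Proof. Let `π = card (dyP R)`, `D(N) = ∑_{j≤H} c(N-j)`, `M = X + H`. Since `D(pm) = 0` for `pm > X + H`
the sum over `m ≤ (X+H)/p` may be replaced by `m ≤ M`. So the left side is
`‖∑_{m≤M} (1/m) u_m V_m‖`, `V_m = ∑_{p ∈ dyP R} (1/p) e(pmα) D(pm)`. Cauchy-Schwarz: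
`≤ (LS M)^(1/2) (∑_{m≤M} (1/m) ‖V_m‖²)^(1/2)`, and
`∑_m (1/m) ‖V_m‖² = ∑_{p,p'} (1/(pp')) ∑_m (1/m) e((p-p')mα) D(pm) conj(D(p'm))`. By `pair_bound`:
* `p = p'`: `θ = 0`, `B = 2H/R` (at most `H/R + 1 ≤ 2H/R` terms, each `≤ 1/A`): `≤ 8 H² (p/R) LS X`;
* `p ≠ p'`: `θ = (p-p')α`, `1 ≤ |p-p'| ≤ R`, `nd((p-p')α) = nd(|p-p'|α) ≥ η`, so `B = 1/(2η)`
  (`geom_weight_le`): `≤ 2 (H/η) p LS X`.
Total `≤ LS X [π 8H²/R² + π² 2H/(ηR)] = LS X (πH/R)² [8/π + 2R/(Hη)]`. And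
`LS M ≤ LS (2X) ≤ C log X`, `LS X ≤ C log X` for `X ≥ 2`.
-/

set_option autoImplicit false

namespace MRB

open Finset MRP

private noncomputable def Dd (H : ℕ) (c : ℕ → ℂ) (N : ℕ) : ℂ := ∑ j ∈ Finset.Icc 1 H, c (N - j)

private lemma Dd_zero (H X : ℕ) (c : ℕ → ℂ) (hcX : ∀ n, X < n → c n = 0) (N : ℕ)
    (hN : X + H < N) : Dd H c N = 0 := by
  unfold Dd
  apply Finset.sum_eq_zero
  intro j hj
  rw [Finset.mem_Icc] at hj
  apply hcX
  omega

private noncomputable def Vv (R H : ℕ) (α : ℝ) (c : ℕ → ℂ) (m : ℕ) : ℂ :=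
  ∑ p ∈ dyP R, ((1 / (p : ℝ) : ℝ) : ℂ) * (eC (((p : ℝ) * (m : ℝ)) * α) * Dd H c (p * m))

private lemma mem_dyP {R p : ℕ} (h : p ∈ dyP R) : R < p ∧ p ≤ 2 * R := by
  unfold dyP at h
  rw [Finset.mem_filter, Finset.mem_Ioc] at h
  exact h.1

private lemma lhs_eq (R H X : ℕ) (α : ℝ) (c : ℕ → ℂ) (u : ℕ → ℝ)
    (hcX : ∀ n, X < n → c n = 0) :
    ∑ p ∈ dyP R, ∑ m ∈ Finset.Icc 1 ((X + H) / p), ((1 / ((p : ℝ) * (m : ℝ)) : ℝ) : ℂ) *
        (((u m : ℝ) : ℂ) * eC (((p : ℝ) * (m : ℝ)) * α) *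
          ∑ j ∈ Finset.Icc 1 H, c (p * m - j)) =
      ∑ m ∈ Finset.Icc 1 (X + H), ((1 / (m : ℝ) * u m : ℝ) : ℂ) * Vv R H α c m := by
  have h1 : ∀ p ∈ dyP R, ∑ m ∈ Finset.Icc 1 ((X + H) / p), ((1 / ((p : ℝ) * (m : ℝ)) : ℝ) : ℂ) *
        (((u m : ℝ) : ℂ) * eC (((p : ℝ) * (m : ℝ)) * α) *
          ∑ j ∈ Finset.Icc 1 H, c (p * m - j)) =
      ∑ m ∈ Finset.Icc 1 (X + H), ((1 / ((p : ℝ) * (m : ℝ)) : ℝ) : ℂ) *
        (((u m : ℝ) : ℂ) * eC (((p : ℝ) * (m : ℝ)) * α) *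
          ∑ j ∈ Finset.Icc 1 H, c (p * m - j)) := by
    intro p hp
    obtain ⟨hp1, hp2⟩ := mem_dyP hp
    apply Finset.sum_subset
    · exact Finset.Icc_subset_Icc le_rfl (Nat.div_le_self _ _)
    · intro m hm hm2
      rw [Finset.mem_Icc] at hm hm2
      have h3 : (X + H) / p < m := by
        by_contra h
        exact hm2 ⟨hm.1, not_lt.mp h⟩
      have h4 : X + H < p * m := by
        have := (Nat.div_lt_iff_lt_mul (by omega : 0 < p)).mp h3
        rw [mul_comm]; exact this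
      have h5 := Dd_zero H X c hcX (p * m) h4
      unfold Dd at h5
      rw [h5]
      simp
  rw [Finset.sum_congr rfl h1, Finset.sum_comm]
  apply Finset.sum_congr rfl
  intro m _
  unfold Vv
  rw [Finset.mul_sum]
  apply Finset.sum_congr rfl
  intro p _
  unfold Dd
  have e1 : (1 / ((p : ℝ) * (m : ℝ)) : ℝ) = (1 / (m : ℝ)) * (1 / (p : ℝ)) := by
    rw [one_div_mul_one_div, mul_comm]
  rw [e1]
  push_cast
  ring

private noncomputable def Tt (H M : ℕ) (α : ℝ) (c : ℕ → ℂ) (p q : ℕ) : ℂ :=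
  ∑ m ∈ Finset.Icc 1 M, ((1 / (m : ℝ) : ℝ) : ℂ) * (eC ((m : ℝ) * (((p : ℝ) - (q : ℝ)) * α)) *
      (Dd H c (p * m) * starRingEnd ℂ (Dd H c (q * m))))

private lemma sq_eq (R H M : ℕ) (α : ℝ) (c : ℕ → ℂ) :
    ((∑ m ∈ Finset.Icc 1 M, (1 / (m : ℝ)) * ‖Vv R H α c m‖ ^ 2 : ℝ) : ℂ) =
      ∑ p ∈ dyP R, ∑ q ∈ dyP R, ((1 / (p : ℝ) * (1 / (q : ℝ)) : ℝ) : ℂ) * Tt H M α c p q := by
  have h1 : ∀ m : ℕ, ((‖Vv R H α c m‖ ^ 2 : ℝ) : ℂ) = ∑ p ∈ dyP R, ∑ q ∈ dyP R,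
      ((1 / (p : ℝ) * (1 / (q : ℝ)) : ℝ) : ℂ) * (eC ((m : ℝ) * (((p : ℝ) - (q : ℝ)) * α)) *
      (Dd H c (p * m) * starRingEnd ℂ (Dd H c (q * m)))) := by
    intro m
    have h2 : ((‖Vv R H α c m‖ ^ 2 : ℝ) : ℂ) = Vv R H α c m * starRingEnd ℂ (Vv R H α c m) := by
      rw [Complex.mul_conj']
      push_cast
      rfl
    rw [h2]
    unfold Vv
    rw [map_sum, Finset.sum_mul_sum]
    apply Finset.sum_congr rfl
    intro p _
    apply Finset.sum_congr rfl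
    intro q _
    rw [map_mul, map_mul, conj_eC, Complex.conj_ofReal]
    have e1 : eC ((m : ℝ) * (((p : ℝ) - (q : ℝ)) * α)) =
        eC (((p : ℝ) * (m : ℝ)) * α) * eC (-(((q : ℝ) * (m : ℝ)) * α)) := by
      rw [← eC_add]
      congr 1
      ring
    rw [e1]
    push_cast
    ring
  push_cast
  have h3 : ∀ m ∈ Finset.Icc 1 M, (1 / (m : ℂ)) * ((‖Vv R H α c m‖ : ℂ) ^ 2) =
      ∑ p ∈ dyP R, ∑ q ∈ dyP R, ((1 / (p : ℝ) * (1 / (q : ℝ)) : ℝ) : ℂ) *
        (((1 / (m : ℝ) : ℝ) : ℂ) * (eC ((m : ℝ) * (((p : ℝ) - (q : ℝ)) * α)) *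
      (Dd H c (p * m) * starRingEnd ℂ (Dd H c (q * m))))) := by
    intro m _
    have h4 := h1 m
    push_cast at h4
    rw [h4, Finset.mul_sum]
    apply Finset.sum_congr rfl
    intro p _
    rw [Finset.mul_sum]
    apply Finset.sum_congr rfl
    intro q _
    push_cast
    ring
  rw [Finset.sum_congr rfl h3, Finset.sum_comm]
  apply Finset.sum_congr rfl
  intro p _
  rw [Finset.sum_comm]
  apply Finset.sum_congr rfl
  intro q _
  unfold Tt
  rw [Finset.mul_sum]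
  push_cast
  rfl

private lemma nd_neg (x : ℝ) : nd (-x) = nd x := by
  have key : ∀ y : ℝ, nd (-y) ≤ nd y := by
    intro y
    unfold nd
    have h := round_le (-y) (-(round y))
    calc |-y - (round (-y) : ℝ)| ≤ |-y - ((-(round y) : ℤ) : ℝ)| := h
      _ = |y - (round y : ℝ)| := by
        push_cast
        rw [← abs_neg]
        congr 1
        ring
  apply le_antisymm (key x)
  have h := key (-x)
  rwa [neg_neg] at h

private lemma nd_ge (R : ℕ) (α η : ℝ)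
    (hη : ∀ d : ℕ, 1 ≤ d → d ≤ R → η ≤ nd ((d : ℝ) * α)) (p q : ℕ)
    (hp : R < p ∧ p ≤ 2 * R) (hq : R < q ∧ q ≤ 2 * R) (hpq : p ≠ q) :
    η ≤ nd (((p : ℝ) - (q : ℝ)) * α) := by
  rcases lt_or_gt_of_ne hpq with h | h
  · have h1 := hη (q - p) (by omega) (by omega)
    rw [Nat.cast_sub h.le] at h1
    have h2 : ((p : ℝ) - (q : ℝ)) * α = -(((q : ℝ) - (p : ℝ)) * α) := by ring
    rw [h2, nd_neg]
    exact h1
  · have h1 := hη (p - q) (by omega) (by omega)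
    rw [Nat.cast_sub h.le] at h1
    exact h1

private lemma diag_B (R H : ℕ) (hR : 1 ≤ R) (hRH : R ≤ H) (A A' : ℕ) (hA : 1 ≤ A)
    (hA' : A' ≤ A + H / R) (θ : ℝ) :
    ‖∑ m ∈ Finset.Icc A A', ((1 / (m : ℝ) : ℝ) : ℂ) * eC ((m : ℝ) * θ)‖ ≤
      (2 * (H : ℝ) / R) / A := by
  have hA0 : (0 : ℝ) < A := by exact_mod_cast (by omega : 0 < A)
  have hR0 : (0 : ℝ) < R := by exact_mod_cast (by omega : 0 < R)
  calc ‖∑ m ∈ Finset.Icc A A', ((1 / (m : ℝ) : ℝ) : ℂ) * eC ((m : ℝ) * θ)‖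
      ≤ ∑ m ∈ Finset.Icc A A', ‖((1 / (m : ℝ) : ℝ) : ℂ) * eC ((m : ℝ) * θ)‖ := norm_sum_le _ _
    _ ≤ ∑ m ∈ Finset.Icc A A', 1 / (A : ℝ) := by
        apply Finset.sum_le_sum
        intro m hm
        rw [Finset.mem_Icc] at hm
        rw [norm_mul, norm_eC, mul_one, Complex.norm_real, Real.norm_eq_abs,
          abs_of_nonneg (by positivity)]
        apply one_div_le_one_div_of_le hA0
        exact_mod_cast hm.1
    _ = ((Finset.Icc A A').card : ℝ) * (1 / (A : ℝ)) := by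
        rw [Finset.sum_const, nsmul_eq_mul]
    _ ≤ (2 * (H : ℝ) / R) * (1 / (A : ℝ)) := by
        apply mul_le_mul_of_nonneg_right _ (by positivity)
        rw [Nat.card_Icc]
        have h1 : A' + 1 - A ≤ H / R + 1 := by
          generalize H / R = t at hA'
          omega
        have h2 : ((H / R : ℕ) : ℝ) ≤ (H : ℝ) / R := Nat.cast_div_le
        have h3 : (1 : ℝ) ≤ (H : ℝ) / R := by
          rw [le_div_iff₀ hR0, one_mul]
          exact_mod_cast hRH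
        calc ((A' + 1 - A : ℕ) : ℝ) ≤ ((H / R + 1 : ℕ) : ℝ) := by exact_mod_cast h1
          _ = ((H / R : ℕ) : ℝ) + 1 := by push_cast; ring
          _ ≤ (H : ℝ) / R + (H : ℝ) / R := add_le_add h2 h3
          _ = 2 * (H : ℝ) / R := by ring
    _ = (2 * (H : ℝ) / R) / A := by rw [mul_one_div]

private lemma Tt_le (R H X M : ℕ) (α η : ℝ) (c : ℕ → ℂ) (hR : 1 ≤ R) (hRH : R ≤ H)
    (hη0 : 0 < η) (hη : ∀ d : ℕ, 1 ≤ d → d ≤ R → η ≤ nd ((d : ℝ) * α))
    (hc : ∀ n, ‖c n‖ ≤ 1) (hc0 : c 0 = 0)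
    (hcX : ∀ n, X < n → c n = 0) (p q : ℕ) (hp : p ∈ dyP R) (hq : q ∈ dyP R) :
    ‖Tt H M α c p q‖ ≤ 4 * H * ((if p = q then 2 * (H : ℝ) / R else 0) + 1 / (2 * η)) * p *
      LS X := by
  have hp' := mem_dyP hp
  have hq' := mem_dyP hq
  have hB0 : (0 : ℝ) ≤ (if p = q then 2 * (H : ℝ) / R else 0) + 1 / (2 * η) := by
    have : (0 : ℝ) ≤ (if p = q then 2 * (H : ℝ) / R else 0) := by
      split_ifs
      · positivity
      · exact le_rfl
    positivity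
  have h := pair_bound R H X M p q hR hRH hp' hq' c hc hc0 hcX (((p : ℝ) - (q : ℝ)) * α)
    ((if p = q then 2 * (H : ℝ) / R else 0) + 1 / (2 * η)) hB0 ?_
  · exact h
  · intro A A' hA hA'
    have hA0 : (0 : ℝ) < A := by exact_mod_cast (by omega : 0 < A)
    by_cases hpq : p = q
    · rw [if_pos hpq]
      have h1 := diag_B R H hR hRH A A' hA hA' (((p : ℝ) - (q : ℝ)) * α)
      refine h1.trans ?_
      apply div_le_div_of_nonneg_right _ hA0.le
      have : (0 : ℝ) ≤ 1 / (2 * η) := by positivity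
      linarith
    · rw [if_neg hpq, zero_add]
      have h1 := geom_weight_le A A' hA (((p : ℝ) - (q : ℝ)) * α)
      have h2 := nd_ge R α η hη p q hp' hq' hpq
      set S := ‖∑ m ∈ Finset.Icc A A', ((1 / (m : ℝ) : ℝ) : ℂ) *
        eC ((m : ℝ) * (((p : ℝ) - (q : ℝ)) * α))‖ with hS
      have hS0 : 0 ≤ S := norm_nonneg _
      have h3 : S * (2 * η) ≤ 1 / (A : ℝ) := by
        refine le_trans ?_ h1
        apply mul_le_mul_of_nonneg_left _ hS0
        linarith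
      rw [div_div, le_div_iff₀ (by positivity)]
      rw [le_div_iff₀ hA0] at h3
      calc S * (2 * η * A) = S * (2 * η) * A := by ring
        _ ≤ 1 := h3

private lemma sum_sq_le (R H X M : ℕ) (α η : ℝ) (c : ℕ → ℂ) (hR : 1 ≤ R) (hRH : R ≤ H)
    (hη0 : 0 < η) (hη : ∀ d : ℕ, 1 ≤ d → d ≤ R → η ≤ nd ((d : ℝ) * α))
    (hc : ∀ n, ‖c n‖ ≤ 1) (hc0 : c 0 = 0)
    (hcX : ∀ n, X < n → c n = 0) :
    ∑ m ∈ Finset.Icc 1 M, (1 / (m : ℝ)) * ‖Vv R H α c m‖ ^ 2 ≤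
      LS X * (((dyP R).card : ℝ) * (8 * (H : ℝ) ^ 2 / (R : ℝ) ^ 2) +
        ((dyP R).card : ℝ) ^ 2 * (2 * (H : ℝ) / (η * R))) := by
  have hR0 : (0 : ℝ) < R := by exact_mod_cast (by omega : 0 < R)
  have hLS : 0 ≤ LS X := by
    unfold LS
    exact Finset.sum_nonneg (fun n _ => by positivity)
  have h0 : ∑ m ∈ Finset.Icc 1 M, (1 / (m : ℝ)) * ‖Vv R H α c m‖ ^ 2 =
      ‖((∑ m ∈ Finset.Icc 1 M, (1 / (m : ℝ)) * ‖Vv R H α c m‖ ^ 2 : ℝ) : ℂ)‖ := by
    rw [Complex.norm_real, Real.norm_eq_abs, abs_of_nonneg]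
    exact Finset.sum_nonneg (fun n _ => by positivity)
  rw [h0, sq_eq]
  calc ‖∑ p ∈ dyP R, ∑ q ∈ dyP R, ((1 / (p : ℝ) * (1 / (q : ℝ)) : ℝ) : ℂ) * Tt H M α c p q‖
      ≤ ∑ p ∈ dyP R, ‖∑ q ∈ dyP R, ((1 / (p : ℝ) * (1 / (q : ℝ)) : ℝ) : ℂ) * Tt H M α c p q‖ :=
        norm_sum_le _ _
    _ ≤ ∑ p ∈ dyP R, ∑ q ∈ dyP R, ‖((1 / (p : ℝ) * (1 / (q : ℝ)) : ℝ) : ℂ) * Tt H M α c p q‖ :=
        Finset.sum_le_sum (fun p _ => norm_sum_le _ _)
    _ ≤ ∑ p ∈ dyP R, ∑ q ∈ dyP R, ((if p = q then LS X * (8 * (H : ℝ) ^ 2 / (R : ℝ) ^ 2) else 0) +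
          LS X * (2 * (H : ℝ) / (η * R))) := by
        apply Finset.sum_le_sum
        intro p hp
        apply Finset.sum_le_sum
        intro q hq
        have hp' := mem_dyP hp
        have hq' := mem_dyP hq
        have hp0 : (0 : ℝ) < p := by exact_mod_cast (by omega : 0 < p)
        have hq0 : (0 : ℝ) < q := by exact_mod_cast (by omega : 0 < q)
        have hqR : 1 / (q : ℝ) ≤ 1 / (R : ℝ) := by
          apply one_div_le_one_div_of_le hR0
          exact_mod_cast hq'.1.le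
        rw [norm_mul, Complex.norm_real, Real.norm_eq_abs, abs_of_nonneg (by positivity)]
        have h1 := Tt_le R H X M α η c hR hRH hη0 hη hc hc0 hcX p q hp hq
        have h2 : (1 / (p : ℝ) * (1 / (q : ℝ))) * ‖Tt H M α c p q‖ ≤
            (1 / (p : ℝ) * (1 / (q : ℝ))) * (4 * H *
              ((if p = q then 2 * (H : ℝ) / R else 0) + 1 / (2 * η)) * p * LS X) :=
          mul_le_mul_of_nonneg_left h1 (by positivity)
        refine h2.trans ?_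
        have hB0 : (0 : ℝ) ≤ (if p = q then 2 * (H : ℝ) / R else 0) + 1 / (2 * η) := by
          have : (0 : ℝ) ≤ (if p = q then 2 * (H : ℝ) / R else 0) := by
            split_ifs
            · positivity
            · exact le_rfl
          positivity
        have h3 : (1 / (p : ℝ) * (1 / (q : ℝ))) * (4 * H *
              ((if p = q then 2 * (H : ℝ) / R else 0) + 1 / (2 * η)) * p * LS X) =
            (1 / (q : ℝ)) * (4 * H *
              ((if p = q then 2 * (H : ℝ) / R else 0) + 1 / (2 * η)) * LS X) := by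
          field_simp
        rw [h3]
        have h4 : (1 / (q : ℝ)) * (4 * H *
              ((if p = q then 2 * (H : ℝ) / R else 0) + 1 / (2 * η)) * LS X) ≤
            (1 / (R : ℝ)) * (4 * H *
              ((if p = q then 2 * (H : ℝ) / R else 0) + 1 / (2 * η)) * LS X) :=
          mul_le_mul_of_nonneg_right hqR (by positivity)
        refine h4.trans (le_of_eq ?_)
        split_ifs
        · field_simp
          ring
        · field_simp
          ring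
    _ = LS X * (((dyP R).card : ℝ) * (8 * (H : ℝ) ^ 2 / (R : ℝ) ^ 2) +
        ((dyP R).card : ℝ) ^ 2 * (2 * (H : ℝ) / (η * R))) := by
        have h5 : ∀ p ∈ dyP R, ∑ q ∈ dyP R,
            ((if p = q then LS X * (8 * (H : ℝ) ^ 2 / (R : ℝ) ^ 2) else 0) +
              LS X * (2 * (H : ℝ) / (η * R))) = LS X * (8 * (H : ℝ) ^ 2 / (R : ℝ) ^ 2) +
                ((dyP R).card : ℝ) * (LS X * (2 * (H : ℝ) / (η * R))) := by
          intro p hp
          rw [Finset.sum_add_distrib, Finset.sum_ite_eq, if_pos hp, Finset.sum_const,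
            nsmul_eq_mul]
        rw [Finset.sum_congr rfl h5, Finset.sum_const, nsmul_eq_mul]
        ring

theorem block_bound : ∃ C : ℝ, 0 < C ∧ ∀ (R H X : ℕ) (α η : ℝ) (c : ℕ → ℂ) (u : ℕ → ℝ),
    1 ≤ R → R ≤ H → 2 ≤ X → H ≤ X → 0 < η →
    (∀ d : ℕ, 1 ≤ d → d ≤ R → η ≤ nd ((d : ℝ) * α)) →
    (∀ n, ‖c n‖ ≤ 1) → c 0 = 0 → (∀ n, X < n → c n = 0) → (∀ m, |u m| ≤ 1) →
    ‖∑ p ∈ dyP R, ∑ m ∈ Finset.Icc 1 ((X + H) / p), ((1 / ((p : ℝ) * (m : ℝ)) : ℝ) : ℂ) *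
        (((u m : ℝ) : ℂ) * eC (((p : ℝ) * (m : ℝ)) * α) *
          ∑ j ∈ Finset.Icc 1 H, c (p * m - j))‖ ≤
      C * H * Real.log X * (((dyP R).card : ℝ) / R) *
        Real.sqrt (1 / ((dyP R).card : ℝ) + (R : ℝ) / (H * η)) := by
  refine ⟨10, by norm_num, ?_⟩
  intro R H X α η c u hR hRH hX hHX hη0 hη hc hc0 hcX hu
  have hR0 : (0 : ℝ) < R := by exact_mod_cast (by omega : 0 < R)
  have hH0 : (0 : ℝ) < H := by exact_mod_cast (by omega : 0 < H)
  have hX0 : (0 : ℝ) < X := by exact_mod_cast (by omega : 0 < X)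
  have hlog2 : Real.log 2 ≤ Real.log X := by
    apply Real.log_le_log (by norm_num)
    exact_mod_cast hX
  have hl2 := Real.log_two_gt_d9
  have hl2' := Real.log_two_lt_d9
  have hlX : 0 < Real.log X := by linarith
  have hLX0 : 0 ≤ LS X := by
    unfold LS
    exact Finset.sum_nonneg (fun n _ => by positivity)
  have hLM0 : 0 ≤ LS (X + H) := by
    unfold LS
    exact Finset.sum_nonneg (fun n _ => by positivity)
  have hLX : LS X ≤ 3 * Real.log X := by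
    have := LS_le X (by omega)
    linarith
  have hLM : LS (X + H) ≤ 4 * Real.log X := by
    have h1 := LS_le (X + H) (by omega)
    have h2 : Real.log ((X + H : ℕ) : ℝ) ≤ Real.log (2 * X) := by
      apply Real.log_le_log
      · exact_mod_cast (by omega : 0 < X + H)
      · exact_mod_cast (by omega : X + H ≤ 2 * X)
    rw [Real.log_mul (by norm_num) hX0.ne'] at h2
    linarith
  rw [lhs_eq R H X α c u hcX]
  set P : ℝ := ((dyP R).card : ℝ) with hP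
  have hP0 : 0 ≤ P := Nat.cast_nonneg _
  -- step: norm bound
  set S1 : ℝ := ∑ m ∈ Finset.Icc 1 (X + H), (1 / (m : ℝ)) * ‖Vv R H α c m‖ with hS1
  have hS10 : 0 ≤ S1 := Finset.sum_nonneg (fun n _ => by positivity)
  have h1 : ‖∑ m ∈ Finset.Icc 1 (X + H), ((1 / (m : ℝ) * u m : ℝ) : ℂ) * Vv R H α c m‖ ≤ S1 := by
    refine (norm_sum_le _ _).trans ?_
    apply Finset.sum_le_sum
    intro m _
    rw [norm_mul, Complex.norm_real, Real.norm_eq_abs, abs_mul,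
      abs_of_nonneg (by positivity : (0 : ℝ) ≤ 1 / (m : ℝ))]
    apply mul_le_mul_of_nonneg_right _ (norm_nonneg _)
    have h := hu m
    calc 1 / (m : ℝ) * |u m| ≤ 1 / (m : ℝ) * 1 := mul_le_mul_of_nonneg_left h (by positivity)
      _ = 1 / (m : ℝ) := mul_one _
  refine h1.trans ?_
  have h2 : S1 ^ 2 ≤ LS (X + H) * ∑ m ∈ Finset.Icc 1 (X + H), (1 / (m : ℝ)) *
      ‖Vv R H α c m‖ ^ 2 := by
    unfold LS
    apply Finset.sum_sq_le_sum_mul_sum_of_sq_le_mul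
    · intro m _; positivity
    · intro m _; positivity
    · intro m _
      exact le_of_eq (by ring)
  have h3 := sum_sq_le R H X (X + H) α η c hR hRH hη0 hη hc hc0 hcX
  rw [← hP] at h3
  by_cases hPz : P = 0
  · have hz : S1 ^ 2 ≤ 0 := by
      refine h2.trans ?_
      have : ∑ m ∈ Finset.Icc 1 (X + H), (1 / (m : ℝ)) * ‖Vv R H α c m‖ ^ 2 ≤ 0 := by
        refine h3.trans (le_of_eq ?_)
        rw [hPz]
        ring
      exact mul_nonpos_of_nonneg_of_nonpos hLM0 this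
    have hz1 : S1 = 0 := by
      have : S1 ^ 2 = 0 := le_antisymm hz (sq_nonneg _)
      exact pow_eq_zero_iff (two_ne_zero) |>.mp this
    rw [hz1, hPz]
    simp
  have hPp : 0 < P := lt_of_le_of_ne hP0 (Ne.symm hPz)
  have hbr0 : (0 : ℝ) ≤ 1 / P + (R : ℝ) / (H * η) := by positivity
  have h4 : S1 ^ 2 ≤ (10 * H * Real.log X * (P / R)) ^ 2 * (1 / P + (R : ℝ) / (H * η)) := by
    refine h2.trans ?_
    have h5 : LS X * (P * (8 * (H : ℝ) ^ 2 / (R : ℝ) ^ 2) + P ^ 2 * (2 * (H : ℝ) / (η * R))) ≤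
        (3 * Real.log X) * (8 * (H * (P / R)) ^ 2 * (1 / P + (R : ℝ) / (H * η))) := by
      have h6 : P * (8 * (H : ℝ) ^ 2 / (R : ℝ) ^ 2) + P ^ 2 * (2 * (H : ℝ) / (η * R)) ≤
          8 * (H * (P / R)) ^ 2 * (1 / P + (R : ℝ) / (H * η)) := by
        have e1 : 8 * (H * (P / R)) ^ 2 * (1 / P + (R : ℝ) / (H * η)) =
            P * (8 * (H : ℝ) ^ 2 / (R : ℝ) ^ 2) + P ^ 2 * (8 * (H : ℝ) / (η * R)) := by
          field_simp
        rw [e1]
        have : (2 * (H : ℝ) / (η * R)) ≤ (8 * (H : ℝ) / (η * R)) := by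
          apply div_le_div_of_nonneg_right _ (by positivity)
          linarith
        have := mul_le_mul_of_nonneg_left this (sq_nonneg P)
        linarith
      calc LS X * (P * (8 * (H : ℝ) ^ 2 / (R : ℝ) ^ 2) + P ^ 2 * (2 * (H : ℝ) / (η * R)))
          ≤ LS X * (8 * (H * (P / R)) ^ 2 * (1 / P + (R : ℝ) / (H * η))) :=
            mul_le_mul_of_nonneg_left h6 hLX0
        _ ≤ (3 * Real.log X) * (8 * (H * (P / R)) ^ 2 * (1 / P + (R : ℝ) / (H * η))) :=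
            mul_le_mul_of_nonneg_right hLX (by positivity)
    calc LS (X + H) * ∑ m ∈ Finset.Icc 1 (X + H), (1 / (m : ℝ)) * ‖Vv R H α c m‖ ^ 2
        ≤ (4 * Real.log X) *
          ((3 * Real.log X) * (8 * (H * (P / R)) ^ 2 * (1 / P + (R : ℝ) / (H * η)))) := by
          apply mul_le_mul hLM (h3.trans h5)
          · exact Finset.sum_nonneg (fun n _ => by positivity)
          · positivity
      _ = 96 * ((H * Real.log X * (P / R)) ^ 2 * (1 / P + (R : ℝ) / (H * η))) := by ring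
      _ ≤ 100 * ((H * Real.log X * (P / R)) ^ 2 * (1 / P + (R : ℝ) / (H * η))) := by
          apply mul_le_mul_of_nonneg_right (by norm_num) (by positivity)
      _ = (10 * H * Real.log X * (P / R)) ^ 2 * (1 / P + (R : ℝ) / (H * η)) := by ring
  have h7 : 0 ≤ 10 * H * Real.log X * (P / R) := by positivity
  calc S1 ≤ Real.sqrt ((10 * H * Real.log X * (P / R)) ^ 2 * (1 / P + (R : ℝ) / (H * η))) :=
        Real.le_sqrt_of_sq_le h4
    _ = 10 * H * Real.log X * (P / R) * Real.sqrt (1 / P + (R : ℝ) / (H * η)) := by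
        rw [Real.sqrt_mul (sq_nonneg _), Real.sqrt_sq h7]

end MRB
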