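import Pool.Agent.Helper33.MRB.B05

/-!
# MRB-C06: the sets of primes for the Kátai argument

Proof. `card (dyP (2^k)) ≥ c 2^k/(k log 2) → ∞` (`cheb_dyadic`), so `k0` exists for the second
condition. The sets `dyP (2^k)`, `k0 ≤ k < k1`, are disjoint with union the primes in
`(2^k0, 2^k1]`, and the sum of the reciprocals of the primes diverges
(`Nat.Primes.not_summable_one_div` or `not_summable_one_div_on_primes`).
`card_div_le`: `p ≤ 2R` for `p ∈ dyP R`.
-/

set_option autoImplicit false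

namespace MRB

open Finset MRP

private lemma c06_mem {P p : ℕ} : p ∈ dyP P ↔ (P < p ∧ p ≤ 2 * P) ∧ p.Prime := by
  unfold dyP
  rw [Finset.mem_filter, Finset.mem_Ioc]

theorem card_div_le (R : ℕ) (hR : 1 ≤ R) : ((dyP R).card : ℝ) / R ≤ 2 * Wp (dyP R) := by
  have hR0 : (0 : ℝ) < R := by exact_mod_cast hR
  have h : ∀ p ∈ dyP R, 1 / (R : ℝ) ≤ 2 * (1 / (p : ℝ)) := by
    intro p hp
    rw [c06_mem] at hp
    have h1 : (p : ℝ) ≤ 2 * R := by exact_mod_cast hp.1.2
    have h2 : (0 : ℝ) < p := by exact_mod_cast hp.2.pos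
    rw [mul_one_div, div_le_div_iff₀ hR0 h2]
    linarith
  have h3 := Finset.sum_le_sum h
  rw [Finset.sum_const, nsmul_eq_mul, mul_one_div, ← Finset.mul_sum] at h3
  exact h3

private lemma c06_block (f : ℕ → ℝ) (hf : ∀ n, f n = if n.Prime then 1 / (n : ℝ) else 0) (k : ℕ) :
    Wp (dyP (2 ^ k)) = (∑ i ∈ Finset.range (2 ^ (k + 1) + 1), f i) -
      ∑ i ∈ Finset.range (2 ^ k + 1), f i := by
  have hle : 2 ^ k + 1 ≤ 2 ^ (k + 1) + 1 := by
    have : 2 ^ k ≤ 2 ^ (k + 1) := Nat.pow_le_pow_right (by norm_num) (by omega)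
    omega
  rw [← Finset.sum_Ico_eq_sub _ hle]
  unfold Wp dyP
  rw [Finset.sum_filter]
  have e : Finset.Ioc (2 ^ k) (2 * 2 ^ k) = Finset.Ico (2 ^ k + 1) (2 ^ (k + 1) + 1) := by
    ext n
    rw [Finset.mem_Ioc, Finset.mem_Ico, pow_succ]
    omega
  rw [e]
  exact Finset.sum_congr rfl fun n _ => (hf n).symm

theorem blocks_exist (W0 δ : ℝ) (hδ : 0 < δ) : ∃ k0 k1 : ℕ, k0 ≤ k1 ∧
    (∀ k ∈ Finset.Ico k0 k1, 0 < (dyP (2 ^ k)).card ∧ 1 / ((dyP (2 ^ k)).card : ℝ) ≤ δ) ∧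
    W0 ≤ ∑ k ∈ Finset.Ico k0 k1, Wp (dyP (2 ^ k)) := by
  obtain ⟨c, hc, hcheb⟩ := cheb_dyadic
  have hlog : 0 < Real.log 2 := Real.log_pos (by norm_num)
  have ht : Filter.Tendsto (fun n : ℕ => (n : ℝ) ^ 1 / 2 ^ n) Filter.atTop (nhds 0) :=
    tendsto_pow_const_div_const_pow_of_one_lt 1 (by norm_num)
  have hev := ht.eventually_lt_const (show (0 : ℝ) < c * δ / Real.log 2 by positivity)
  obtain ⟨k0, hk0⟩ := (hev.and (Filter.eventually_ge_atTop 1)).exists_forall_of_atTop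
  have hcard : ∀ k, k0 ≤ k → 0 < (dyP (2 ^ k)).card ∧
      1 / ((dyP (2 ^ k)).card : ℝ) ≤ δ := by
    intro k hk
    obtain ⟨h1, h2⟩ := hk0 k hk
    have hk1 : (1 : ℝ) ≤ k := by exact_mod_cast h2
    have hP : 2 ≤ 2 ^ k := by
      calc 2 = 2 ^ 1 := by norm_num
        _ ≤ 2 ^ k := Nat.pow_le_pow_right (by norm_num) h2
    have h3 := hcheb (2 ^ k) hP
    push_cast at h3
    rw [Real.log_pow] at h3
    have hkl : 0 < (k : ℝ) * Real.log 2 := by positivity
    have h2k : (0 : ℝ) < 2 ^ k := by positivity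
    have h4 : 0 < c * (2 : ℝ) ^ k / (k * Real.log 2) := by positivity
    have h5 : (0 : ℝ) < ((dyP (2 ^ k)).card : ℝ) := lt_of_lt_of_le h4 h3
    refine ⟨by exact_mod_cast h5, ?_⟩
    rw [div_le_iff₀ h5]
    have h6 : 1 ≤ δ * (c * (2 : ℝ) ^ k / (k * Real.log 2)) := by
      rw [pow_one, div_lt_div_iff₀ h2k hlog] at h1
      rw [← mul_div_assoc, le_div_iff₀ hkl]
      linarith
    exact h6.trans (mul_le_mul_of_nonneg_left h3 hδ.le)
  set f : ℕ → ℝ := fun n => if n.Prime then 1 / (n : ℝ) else 0 with hf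
  have hns : ¬ Summable f := by
    have h := not_summable_one_div_on_primes
    have e : ({p | Nat.Prime p} : Set ℕ).indicator (fun n : ℕ => (1 : ℝ) / n) = f := by
      funext n
      rw [hf]
      by_cases hn : n.Prime
      · rw [Set.indicator_of_mem (by exact hn)]
        simp [hn]
      · rw [Set.indicator_of_notMem (by exact hn)]
        simp [hn]
    rw [← e]
    exact h
  have hf0 : ∀ n, 0 ≤ f n := by
    intro n
    rw [hf]
    show 0 ≤ if n.Prime then 1 / (n : ℝ) else 0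
    split_ifs
    · positivity
    · exact le_refl 0
  rw [not_summable_iff_tendsto_nat_atTop_of_nonneg hf0] at hns
  have htend : Filter.Tendsto (fun k : ℕ => 2 ^ k + 1) Filter.atTop Filter.atTop := by
    refine Filter.tendsto_atTop_mono (fun k => ?_) Filter.tendsto_id
    show k ≤ 2 ^ k + 1
    exact (Nat.lt_two_pow_self).le.trans (Nat.le_succ _)
  have hev2 := (hns.comp htend).eventually_ge_atTop
    (W0 + ∑ i ∈ Finset.range (2 ^ k0 + 1), f i)
  obtain ⟨k1, hk1, hk1'⟩ := (hev2.and (Filter.eventually_ge_atTop k0)).exists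
  refine ⟨k0, k1, hk1', fun k hk => hcard k (Finset.mem_Ico.1 hk).1, ?_⟩
  have hsum : ∀ K, k0 ≤ K → ∑ k ∈ Finset.Ico k0 K, Wp (dyP (2 ^ k)) =
      (∑ i ∈ Finset.range (2 ^ K + 1), f i) - ∑ i ∈ Finset.range (2 ^ k0 + 1), f i := by
    intro K hK
    induction K, hK using Nat.le_induction with
    | base => simp
    | succ K hK ih =>
      rw [Finset.sum_Ico_succ_top hK, ih, c06_block f (fun n => rfl) K]
      ring
  rw [hsum k1 hk1']
  have h7 : W0 + ∑ i ∈ Finset.range (2 ^ k0 + 1), f i ≤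
      ∑ i ∈ Finset.range (2 ^ k1 + 1), f i := hk1
  linarith

end MRB
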