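import Pool.Agent.Helper33.MRB.C01
import Pool.Agent.Helper33.MRB.C03
import Pool.Agent.Helper33.MRB.C05
import Pool.Agent.Helper33.MRB.C06

/-!
# MRB-C07: minor arcs (Kátai's criterion)

Proof. `ε ≤ 1`. Let `C` be the constant of `block_bound`, `δ = (ε/(16(C+1)))²/2`, take `k0, k1` from
`blocks_exist` for this `δ` and `W0 ≥ 1` large (below), `S = ⋃_{k0≤k<k1} dyP(2^k)` (disjoint union,
i.e. the primes in `(2^k0, 2^k1]`), `W = Wp S = ∑_k Wp (dyP (2^k)) ≥ W0`, `Q = 2^k1`, `K = 2^k1/δ`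
(`≥ 1`), `H0 = 2^k1`. Given `H ≥ H0`, `X` large, `b`, `α` with `K/H ≤ nd(dα)` for `1 ≤ d ≤ Q`.
1. `dualise` with `f(n) = b(Ω n)` (error `(ε/4) H log X`): it remains to bound
   `‖∑_{N≤X+H} (1/N) b(Ω N) e(Nα) D(N)‖`, `D(N) = ∑_{j≤H} c(N-j)`, `|D| ≤ H`.
2. Insert `1 = ω(N)/W + (1 - ω(N)/W)`, `ω = om S`. Second part, by Cauchy-Schwarz and `tk_log` at
   `X + H`: `≤ H (LS(X+H))^(1/2) (2(W+1) log(X+H))^(1/2)/W ≤ (ε/4) H log X` for `W ≥ W0(ε)` and `X` large
   (`LS(X+H) ≤ 2 log X`, `log(X+H) ≤ 2 log X`).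
3. First part: `(1/W) ∑_{p∈S} ∑_{m ≤ (X+H)/p} (1/(pm)) b(Ω(pm)) e(pmα) D(pm)` and
   `b(Ω(pm)) = b(Ω(m)+1) = u(m)` for `m ≥ 1`. Split by `k`; by `block_bound` with `R = 2^k`, `η = K/H`:
   the `k`-th part is at most `C H log X (card/R) (δ + R/K)^(1/2) ≤ C H log X 2 Wp(dyP 2^k) (2δ)^(1/2)`
   (`card_div_le`, `R ≤ 2^k1 = δK`). Sum over `k`, divide by `W`: `≤ 2C (2δ)^(1/2) H log X ≤ (ε/4) H log X`.
-/

set_option autoImplicit false

namespace MRB

open Finset MRP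

theorem c07_norm_eC (x : ℝ) : ‖eC x‖ = 1 := by
  have h : (2 * (Real.pi : ℂ) * Complex.I * (x : ℂ)) = ((2 * Real.pi * x : ℝ) : ℂ) * Complex.I := by
    push_cast
    ring
  rw [eC, h, Complex.norm_exp_ofReal_mul_I]

/-- `∑ ω(N) a_N` by primes. -/
theorem c07_swap (S : Finset ℕ) (hS : ∀ p ∈ S, p.Prime) (M : ℕ) (a : ℕ → ℂ) :
    ∑ N ∈ Finset.Icc 1 M, ((om S N : ℝ) : ℂ) * a N =
      ∑ p ∈ S, ∑ m ∈ Finset.Icc 1 (M / p), a (p * m) := by
  have h1 : ∀ N, ((om S N : ℝ) : ℂ) * a N = ∑ p ∈ S, if p ∣ N then a N else 0 := by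
    intro N
    rw [← Finset.sum_filter, Finset.sum_const, om, nsmul_eq_mul]
    push_cast
    rfl
  simp only [h1]
  rw [Finset.sum_comm]
  refine Finset.sum_congr rfl fun p hp => ?_
  have hp0 : 0 < p := (hS p hp).pos
  rw [← Finset.sum_filter]
  symm
  refine Finset.sum_bij (fun m _ => p * m) ?_ ?_ ?_ ?_
  · intro m hm
    rw [Finset.mem_Icc] at hm
    rw [Finset.mem_filter, Finset.mem_Icc]
    refine ⟨⟨Nat.mul_pos hp0 hm.1, ?_⟩, dvd_mul_right p m⟩
    calc p * m ≤ p * (M / p) := Nat.mul_le_mul_left p hm.2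
      _ ≤ M := Nat.mul_div_le M p
  · intro m _ m' _ h
    exact Nat.eq_of_mul_eq_mul_left hp0 h
  · intro N hN
    rw [Finset.mem_filter, Finset.mem_Icc] at hN
    obtain ⟨⟨h1, h2⟩, m, rfl⟩ := hN
    refine ⟨m, ?_, rfl⟩
    rw [Finset.mem_Icc]
    refine ⟨Nat.pos_of_mul_pos_left h1 |> fun h => h, ?_⟩
    rw [Nat.le_div_iff_mul_le hp0, mul_comm]
    exact h2
  · intro m _
    rfl

theorem minor_holds : MINOR := by
  intro ε hε
  obtain ⟨C, hC, hblock⟩ := block_bound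
  obtain ⟨θ, hθ⟩ : ∃ θ : ℝ, θ = ε / (16 * (C + 1)) := ⟨_, rfl⟩
  have hθ0 : 0 < θ := by rw [hθ]; positivity
  obtain ⟨δ, hδe⟩ : ∃ δ : ℝ, δ = θ ^ 2 / 2 := ⟨_, rfl⟩
  have hδ : 0 < δ := by rw [hδe]; positivity
  obtain ⟨k0, k1, _hk, hcard, hW⟩ := blocks_exist (1 + 256 / ε ^ 2) δ hδ
  obtain ⟨S, hSdef⟩ : ∃ S : Finset ℕ, S = (Finset.Ico k0 k1).biUnion (fun k => dyP (2 ^ k)) :=
    ⟨_, rfl⟩
  have hdisj : Set.PairwiseDisjoint (↑(Finset.Ico k0 k1)) (fun k : ℕ => dyP (2 ^ k)) := by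
    have hlt : ∀ k l : ℕ, k < l → Disjoint (dyP (2 ^ k)) (dyP (2 ^ l)) := by
      intro k l hkl
      rw [Finset.disjoint_left]
      intro p hp hp'
      rw [dyP, Finset.mem_filter, Finset.mem_Ioc] at hp hp'
      have h1 : 2 ^ (k + 1) ≤ 2 ^ l := Nat.pow_le_pow_right (by norm_num) hkl
      rw [pow_succ] at h1
      have h2 := hp.1.2
      have h3 := hp'.1.1
      omega
    intro k _ l _ hkl
    rcases lt_or_gt_of_ne hkl with h | h
    · exact hlt k l h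
    · exact (hlt l k h).symm
  have hSp : ∀ p ∈ S, p.Prime := by
    intro p hp
    rw [hSdef, Finset.mem_biUnion] at hp
    obtain ⟨k, -, hk⟩ := hp
    exact (Finset.mem_filter.1 hk).2
  have hWS : Wp S = ∑ k ∈ Finset.Ico k0 k1, Wp (dyP (2 ^ k)) := by
    rw [hSdef, Wp, Finset.sum_biUnion hdisj]
    rfl
  rw [← hWS] at hW
  obtain ⟨W, hWW⟩ : ∃ W : ℝ, W = Wp S := ⟨_, rfl⟩
  rw [← hWW] at hW
  have hW1 : 1 ≤ W := le_trans (by have : 0 ≤ 256 / ε ^ 2 := by positivity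
                                   linarith) hW
  have hW0 : 0 < W := by linarith
  have hWε : 256 / ε ^ 2 ≤ W := by linarith
  obtain ⟨X2, htk⟩ := tk_log S hSp
  refine ⟨2 ^ k1, (2 ^ k1 : ℝ) / δ + 1, Nat.one_le_two_pow, ?_, 2 ^ k1, fun H hH => ?_⟩
  · have : 0 ≤ (2 ^ k1 : ℝ) / δ := by positivity
    linarith
  have hHpos : 1 ≤ H := le_trans Nat.one_le_two_pow hH
  have hHr : (1 : ℝ) ≤ H := by exact_mod_cast hHpos
  obtain ⟨X1, hdual⟩ := dualise H (ε / 4) (by positivity)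
  refine ⟨max (max X1 X2) (max H 8), fun X hX b hb α hα => ?_⟩
  have hX1 : X1 ≤ X := le_trans (le_trans (le_max_left _ _) (le_max_left _ _)) hX
  have hX2 : X2 ≤ X := le_trans (le_trans (le_max_right _ _) (le_max_left _ _)) hX
  have hXH : H ≤ X := le_trans (le_trans (le_max_left _ _) (le_max_right _ _)) hX
  have hX8 : 8 ≤ X := le_trans (le_trans (le_max_right _ _) (le_max_right _ _)) hX
  have hXr : (8 : ℝ) ≤ X := by exact_mod_cast hX8
  have hXHr : (H : ℝ) ≤ X := by exact_mod_cast hXH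
  have hlog8 : 1 + Real.log 2 ≤ Real.log X := by
    have h1 : Real.log 8 ≤ Real.log X := Real.log_le_log (by norm_num) hXr
    have h2 : Real.log 8 = 3 * Real.log 2 := by
      rw [show (8 : ℝ) = 2 ^ (3 : ℕ) by norm_num, Real.log_pow]
      norm_num
    have h3 : (0.6931471803 : ℝ) < Real.log 2 := Real.log_two_gt_d9
    linarith
  have hlog2 : 0 < Real.log 2 := Real.log_pos (by norm_num)
  have hlX : 0 < Real.log X := by linarith
  have hlogM : Real.log ((X + H : ℕ) : ℝ) ≤ Real.log 2 + Real.log X := by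
    rw [← Real.log_mul (by norm_num) (by linarith)]
    refine Real.log_le_log ?_ ?_
    · push_cast
      linarith
    · push_cast
      linarith
  have hLSM : LS (X + H) ≤ 2 * Real.log X := by
    have h1 := LS_le (X + H) (by omega)
    linarith
  obtain ⟨c, hc1, hc0, hcX, hdc⟩ := hdual X hX1 (fun n => ((b (Om n) : ℝ) : ℂ)) α (by
    intro n
    rw [Complex.norm_real, Real.norm_eq_abs]
    linarith [hb (Om n)])
  refine hdc.trans ?_
  obtain ⟨a, ha⟩ : ∃ a : ℕ → ℂ, a = fun N : ℕ => ((1 / (N : ℝ) : ℝ) : ℂ) *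
    (((b (Om N) : ℝ) : ℂ) * eC ((N : ℝ) * α) * ∑ j ∈ Finset.Icc 1 H, c (N - j)) := ⟨_, rfl⟩
  have haN : ∀ N, ‖a N‖ ≤ (1 / (N : ℝ)) * H := by
    intro N
    rw [ha]
    change ‖((1 / (N : ℝ) : ℝ) : ℂ) *
      (((b (Om N) : ℝ) : ℂ) * eC ((N : ℝ) * α) * ∑ j ∈ Finset.Icc 1 H, c (N - j))‖ ≤ _
    rw [norm_mul, norm_mul, norm_mul, c07_norm_eC, mul_one, Complex.norm_real, Complex.norm_real,
      Real.norm_eq_abs, Real.norm_eq_abs, abs_of_nonneg (by positivity : 0 ≤ 1 / (N : ℝ))]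
    have h1 : ‖∑ j ∈ Finset.Icc 1 H, c (N - j)‖ ≤ H := by
      refine (norm_sum_le _ _).trans ?_
      refine (Finset.sum_le_sum fun j _ => hc1 (N - j)).trans ?_
      simp
    have h2 : |b (Om N)| * ‖∑ j ∈ Finset.Icc 1 H, c (N - j)‖ ≤ 1 * (H : ℝ) :=
      mul_le_mul (hb _) h1 (norm_nonneg _) zero_le_one
    rw [one_mul] at h2
    exact mul_le_mul_of_nonneg_left h2 (by positivity)
  have hT : (∑ N ∈ Finset.Icc 1 (X + H), ((1 / (N : ℝ) : ℝ) : ℂ) *
      (((b (Om N) : ℝ) : ℂ) * eC ((N : ℝ) * α) * ∑ j ∈ Finset.Icc 1 H, c (N - j))) =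
      ∑ N ∈ Finset.Icc 1 (X + H), a N := by rw [ha]
  rw [hT]
  -- the splitting
  have hsplit : (W : ℂ) * ∑ N ∈ Finset.Icc 1 (X + H), a N =
      (∑ N ∈ Finset.Icc 1 (X + H), ((om S N : ℝ) : ℂ) * a N) -
      ∑ N ∈ Finset.Icc 1 (X + H), (((om S N : ℝ) - W : ℝ) : ℂ) * a N := by
    rw [Finset.mul_sum, ← Finset.sum_sub_distrib]
    refine Finset.sum_congr rfl fun N _ => ?_
    push_cast
    ring
  -- second part
  have hsec : ‖∑ N ∈ Finset.Icc 1 (X + H), (((om S N : ℝ) - W : ℝ) : ℂ) * a N‖ ≤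
      (ε / 4) * W * H * Real.log X := by
    obtain ⟨t, ht⟩ : ∃ t : ℝ, t = ε * W / 8 := ⟨_, rfl⟩
    have ht0 : 0 < t := by rw [ht]; positivity
    have h1 : ∀ N ∈ Finset.Icc 1 (X + H), ‖(((om S N : ℝ) - W : ℝ) : ℂ) * a N‖ ≤
        H * ((t / 2) * (1 / (N : ℝ)) + (1 / (2 * t)) * ((1 / (N : ℝ)) * ((om S N : ℝ) - W) ^ 2)) := by
      intro N _
      rw [norm_mul, Complex.norm_real, Real.norm_eq_abs]
      obtain ⟨x, hx⟩ : ∃ x : ℝ, x = |(om S N : ℝ) - W| := ⟨_, rfl⟩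
      have hx2 : ((om S N : ℝ) - W) ^ 2 = x ^ 2 := by rw [hx, sq_abs]
      have hx0 : 0 ≤ x := by rw [hx]; exact abs_nonneg _
      rw [← hx, hx2]
      have h2 : x ≤ t / 2 + 1 / (2 * t) * x ^ 2 := by
        have h3 : 0 ≤ (x - t) ^ 2 / (2 * t) := by positivity
        have h4 : (x - t) ^ 2 / (2 * t) = t / 2 + 1 / (2 * t) * x ^ 2 - x := by
          field_simp
          ring
        linarith
      have h5 : 0 ≤ (1 / (N : ℝ)) * H := by positivity
      calc x * ‖a N‖ ≤ x * ((1 / (N : ℝ)) * H) := mul_le_mul_of_nonneg_left (haN N) hx0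
        _ ≤ (t / 2 + 1 / (2 * t) * x ^ 2) * ((1 / (N : ℝ)) * H) :=
          mul_le_mul_of_nonneg_right h2 h5
        _ = H * ((t / 2) * (1 / (N : ℝ)) + (1 / (2 * t)) * ((1 / (N : ℝ)) * x ^ 2)) := by ring
    refine (norm_sum_le _ _).trans ((Finset.sum_le_sum h1).trans ?_)
    rw [← Finset.mul_sum, Finset.sum_add_distrib, ← Finset.mul_sum, ← Finset.mul_sum]
    have h6 := htk (X + H) (by omega)
    rw [← hWW] at h6
    have h7 : ∑ n ∈ Finset.Icc 1 (X + H), (1 / (n : ℝ)) * ((om S n : ℝ) - W) ^ 2 ≤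
        8 * W * Real.log X := by
      refine h6.trans ?_
      have h8 : Real.log ((X + H : ℕ) : ℝ) ≤ 2 * Real.log X := by linarith
      have h9 : 2 * (W + 1) * Real.log ((X + H : ℕ) : ℝ) ≤ 2 * (W + 1) * (2 * Real.log X) :=
        mul_le_mul_of_nonneg_left h8 (by positivity)
      nlinarith
    have h10 : ∑ n ∈ Finset.Icc 1 (X + H), (1 / (n : ℝ)) ≤ 2 * Real.log X := hLSM
    have h11 : (t / 2) * ∑ n ∈ Finset.Icc 1 (X + H), (1 / (n : ℝ)) ≤ (t / 2) * (2 * Real.log X) :=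
      mul_le_mul_of_nonneg_left h10 (by positivity)
    have h12 : (1 / (2 * t)) * ∑ n ∈ Finset.Icc 1 (X + H), (1 / (n : ℝ)) * ((om S n : ℝ) - W) ^ 2 ≤
        (1 / (2 * t)) * (8 * W * Real.log X) := mul_le_mul_of_nonneg_left h7 (by positivity)
    have h13 : (1 / (2 * t)) * (8 * W * Real.log X) ≤ t * Real.log X := by
      have h14 : (1 / (2 * t)) * (8 * W * Real.log X) = (4 * W / t) * Real.log X := by
        field_simp
        ring
      rw [h14]
      refine mul_le_mul_of_nonneg_right ?_ hlX.le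
      rw [div_le_iff₀ ht0, ht]
      have h15 : 256 ≤ W * ε ^ 2 := by
        rwa [div_le_iff₀ (by positivity)] at hWε
      nlinarith
    have h16 : (t / 2) * ∑ n ∈ Finset.Icc 1 (X + H), (1 / (n : ℝ)) +
        (1 / (2 * t)) * ∑ n ∈ Finset.Icc 1 (X + H), (1 / (n : ℝ)) * ((om S n : ℝ) - W) ^ 2 ≤
        (ε / 4) * W * Real.log X := by
      have h17 : (t / 2) * (2 * Real.log X) + t * Real.log X = (ε / 4) * W * Real.log X := by
        rw [ht]
        ring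
      linarith
    calc (H : ℝ) * ((t / 2) * ∑ n ∈ Finset.Icc 1 (X + H), (1 / (n : ℝ)) +
        (1 / (2 * t)) * ∑ n ∈ Finset.Icc 1 (X + H), (1 / (n : ℝ)) * ((om S n : ℝ) - W) ^ 2)
        ≤ H * ((ε / 4) * W * Real.log X) := mul_le_mul_of_nonneg_left h16 (by positivity)
      _ = (ε / 4) * W * H * Real.log X := by ring
  -- first part
  have hfir : ‖∑ N ∈ Finset.Icc 1 (X + H), ((om S N : ℝ) : ℂ) * a N‖ ≤
      (ε / 8) * W * H * Real.log X := by
    rw [c07_swap S hSp, hSdef, Finset.sum_biUnion hdisj]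
    refine (norm_sum_le _ _).trans ?_
    have h1 : ∀ k ∈ Finset.Ico k0 k1,
        ‖∑ p ∈ dyP (2 ^ k), ∑ m ∈ Finset.Icc 1 ((X + H) / p), a (p * m)‖ ≤
        (ε / 8) * Wp (dyP (2 ^ k)) * H * Real.log X := by
      intro k hk
      have hk1 : k < k1 := (Finset.mem_Ico.1 hk).2
      have hRle : 2 ^ k ≤ 2 ^ k1 := Nat.pow_le_pow_right (by norm_num) hk1.le
      have hR1 : 1 ≤ 2 ^ k := Nat.one_le_two_pow
      have hη : 0 < ((2 ^ k1 : ℝ) / δ + 1) / H := by positivity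
      have h2 : ∑ p ∈ dyP (2 ^ k), ∑ m ∈ Finset.Icc 1 ((X + H) / p), a (p * m) =
          ∑ p ∈ dyP (2 ^ k), ∑ m ∈ Finset.Icc 1 ((X + H) / p),
            ((1 / ((p : ℝ) * (m : ℝ)) : ℝ) : ℂ) *
            (((b (Om m + 1) : ℝ) : ℂ) * eC (((p : ℝ) * (m : ℝ)) * α) *
              ∑ j ∈ Finset.Icc 1 H, c (p * m - j)) := by
        refine Finset.sum_congr rfl fun p hp => Finset.sum_congr rfl fun m hm => ?_
        have hpp : p.Prime := (Finset.mem_filter.1 hp).2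
        have hm0 : m ≠ 0 := by
          have := (Finset.mem_Icc.1 hm).1
          omega
        have hOm : Om (p * m) = Om m + 1 := by
          change ArithmeticFunction.cardFactors (p * m) = ArithmeticFunction.cardFactors m + 1
          rw [ArithmeticFunction.cardFactors_mul hpp.ne_zero hm0,
            ArithmeticFunction.cardFactors_apply_prime hpp, add_comm]
        rw [ha]
        change ((1 / ((p * m : ℕ) : ℝ) : ℝ) : ℂ) * (((b (Om (p * m)) : ℝ) : ℂ) *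
          eC (((p * m : ℕ) : ℝ) * α) * ∑ j ∈ Finset.Icc 1 H, c (p * m - j)) = _
        rw [hOm, Nat.cast_mul]
      rw [h2]
      refine (hblock (2 ^ k) H X α (((2 ^ k1 : ℝ) / δ + 1) / H) c (fun m => b (Om m + 1)) hR1
        (hRle.trans hH) (by omega) hXH hη (fun d hd1 hd2 => hα d hd1 (hd2.trans hRle)) hc1 hc0 hcX
        (fun m => hb _)).trans ?_
      obtain ⟨hcd1, hcd2⟩ := hcard k hk
      have h3 : 1 / ((dyP (2 ^ k)).card : ℝ) + ((2 ^ k : ℕ) : ℝ) / (H * (((2 ^ k1 : ℝ) / δ + 1) / H)) ≤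
          θ ^ 2 := by
        have h4 : (H : ℝ) * (((2 ^ k1 : ℝ) / δ + 1) / H) = (2 ^ k1 : ℝ) / δ + 1 := by
          field_simp
        rw [h4]
        have h5 : ((2 ^ k : ℕ) : ℝ) ≤ 2 ^ k1 := by exact_mod_cast hRle
        have h6 : ((2 ^ k : ℕ) : ℝ) / ((2 ^ k1 : ℝ) / δ + 1) ≤ δ := by
          rw [div_le_iff₀ (by positivity)]
          have h7 : δ * ((2 ^ k1 : ℝ) / δ + 1) = 2 ^ k1 + δ := by
            field_simp
          rw [h7]
          linarith
        have h8 : θ ^ 2 = 2 * δ := by rw [hδe]; ring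
        linarith
      have h4 : Real.sqrt (1 / ((dyP (2 ^ k)).card : ℝ) +
          ((2 ^ k : ℕ) : ℝ) / (H * (((2 ^ k1 : ℝ) / δ + 1) / H))) ≤ θ := by
        rw [Real.sqrt_le_left hθ0.le]
        exact h3
      have h5 := card_div_le (2 ^ k) hR1
      have hWk : 0 ≤ Wp (dyP (2 ^ k)) := Finset.sum_nonneg fun p _ => by positivity
      have h6 : C * H * Real.log X * (((dyP (2 ^ k)).card : ℝ) / ((2 ^ k : ℕ) : ℝ)) *
          Real.sqrt (1 / ((dyP (2 ^ k)).card : ℝ) +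
            ((2 ^ k : ℕ) : ℝ) / (H * (((2 ^ k1 : ℝ) / δ + 1) / H))) ≤
          C * H * Real.log X * (2 * Wp (dyP (2 ^ k))) * θ := by
        refine mul_le_mul (mul_le_mul_of_nonneg_left h5 (by positivity)) h4 (Real.sqrt_nonneg _)
          (by positivity)
      refine h6.trans ?_
      have h7 : C * θ ≤ ε / 16 := by
        rw [hθ]
        have h8 : C * (ε / (16 * (C + 1))) = (ε / 16) * (C / (C + 1)) := by
          field_simp
        rw [h8]
        have h9 : C / (C + 1) ≤ 1 := by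
          rw [div_le_one (by linarith)]
          linarith
        calc (ε / 16) * (C / (C + 1)) ≤ (ε / 16) * 1 := mul_le_mul_of_nonneg_left h9 (by positivity)
          _ = ε / 16 := mul_one _
      have h10 : 0 ≤ 2 * Wp (dyP (2 ^ k)) * H * Real.log X := by positivity
      calc C * H * Real.log X * (2 * Wp (dyP (2 ^ k))) * θ
          = (C * θ) * (2 * Wp (dyP (2 ^ k)) * H * Real.log X) := by ring
        _ ≤ (ε / 16) * (2 * Wp (dyP (2 ^ k)) * H * Real.log X) := mul_le_mul_of_nonneg_right h7 h10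
        _ = (ε / 8) * Wp (dyP (2 ^ k)) * H * Real.log X := by ring
    refine (Finset.sum_le_sum h1).trans (le_of_eq ?_)
    rw [← Finset.sum_mul, ← Finset.sum_mul, ← Finset.mul_sum, ← hWS, ← hWW]
  have hfin : W * ‖∑ N ∈ Finset.Icc 1 (X + H), a N‖ ≤ (3 * ε / 8) * W * H * Real.log X := by
    have h1 : ‖(W : ℂ) * ∑ N ∈ Finset.Icc 1 (X + H), a N‖ ≤
        (ε / 8) * W * H * Real.log X + (ε / 4) * W * H * Real.log X := by
      rw [hsplit]
      exact (norm_sub_le _ _).trans (add_le_add hfir hsec)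
    rw [norm_mul, Complex.norm_real, Real.norm_eq_abs, abs_of_pos hW0] at h1
    refine h1.trans (le_of_eq ?_)
    ring
  have hfin2 : ‖∑ N ∈ Finset.Icc 1 (X + H), a N‖ ≤ (3 * ε / 8) * H * Real.log X := by
    have h1 : W * ‖∑ N ∈ Finset.Icc 1 (X + H), a N‖ ≤ W * ((3 * ε / 8) * H * Real.log X) := by
      refine hfin.trans (le_of_eq ?_)
      ring
    exact le_of_mul_le_mul_left h1 hW0
  have h2 : ε / 4 * Real.log X ≤ (ε / 4) * H * Real.log X := by
    have h3 : (ε / 4) * 1 ≤ (ε / 4) * H := mul_le_mul_of_nonneg_left hHr (by positivity)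
    rw [mul_one] at h3
    exact mul_le_mul_of_nonneg_right h3 hlX.le
  have h4 : 0 ≤ ε * H * Real.log X := by positivity
  nlinarith

end MRB
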