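import Pool.Agent.Helper33.MRB.C01
import Pool.Agent.Helper33.MRB.B07

/-!
# MRB-C08: major arcs from arithmetic progressions

Proof. `ε ≤ 1`. `nd(qα) ≤ K/H`: with `a = round(qα)` and `β = α - a/q` we have `|β| ≤ K/(qH) ≤ K/H`.
Let `f(n) = b(Ω n) - mX X b` (`|f| ≤ 2`) and `H1 = ⌊εH/(64 (K+1))⌋` (`≥ 1` and as large as we like when
`H` is large). Cut `[1, H]` into blocks `(iH1, (i+1)H1]`, `0 ≤ i < I = ⌊H/H1⌋`, and a rest with at most
`H1` elements (contribution `≤ 2H1`). On the `i`-th block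
`e(jα) = e(ja/q) e(jβ) = e(ja/q) (e(iH1β) + O(2π H1 |β|))` with `2π H1 |β| ≤ 2π ε/64`, so
`‖∑_{j≤H} f(n+j) e(jα)‖ ≤ ∑_{i<I} ‖∑_{j'≤H1} f(n+iH1+j') e(j'a/q)‖ + 2 H 2π ε/64 + 2H1`.
For each residue `r mod q`, `e(j'a/q)` is constant on `n + iH1 + j' ≡ r`, so the `i`-th norm is at most
`∑_{r<q} |∑_{j'≤H1, n+iH1+j' ≡ r} f(n+iH1+j')| =: ∑_r G_r(n + iH1)`. Shift: for `G ≥ 0`, `G ≤ 2 H1`,
`∑_{n≤X} G(n+s)/n ≤ ∑_{n≤X} G(n)/n + C(s,H1)` (`1/n ≤ 1/(n+s) + s/n²`, and the `N ∈ (X, X+s]` contribute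
`≤ 2H1 s/X`). By `MRAP` for `q`, `ε' = ε/(8q)` and `H1`:
`∑_{n≤X} (1/n) G_r(n) ≤ ε' H1 log X`. Total
`≤ I q ε' H1 log X + (ε/4) H log X·2 + O_H(1) ≤ ε H log X` (use `LS X ≤ 2 log X`).
-/

set_option autoImplicit false

namespace MRB

open Finset MRP

private lemma sum_Icc_add {M : Type*} [AddCommMonoid M] (A B : ℕ) (g : ℕ → M) :
    ∑ j ∈ Finset.Icc 1 (A + B), g j =
      ∑ j ∈ Finset.Icc 1 A, g j + ∑ j ∈ Finset.Icc 1 B, g (A + j) := by
  induction B with
  | zero => simp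
  | succ n ih =>
    rw [← Nat.add_assoc, Finset.sum_Icc_succ_top (by omega), ih,
      Finset.sum_Icc_succ_top (by omega), add_assoc]
    rfl

private lemma norm_blocks (I L R : ℕ) (g : ℕ → ℂ) :
    ‖∑ j ∈ Finset.Icc 1 (I * L + R), g j‖ ≤
      ∑ i ∈ Finset.range I, ‖∑ j ∈ Finset.Icc 1 L, g (i * L + j)‖ +
        ‖∑ j ∈ Finset.Icc 1 R, g (I * L + j)‖ := by
  rw [sum_Icc_add]
  refine (norm_add_le _ _).trans ?_
  apply add_le_add _ le_rfl
  clear R
  induction I with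
  | zero => simp
  | succ n ih =>
    rw [Nat.succ_mul, sum_Icc_add, Finset.sum_range_succ]
    exact (norm_add_le _ _).trans (add_le_add ih le_rfl)

private lemma shift_one (G : ℕ → ℝ) (B : ℝ) (hB : ∀ n, G n ≤ B) (hG : ∀ n, 0 ≤ G n) (X : ℕ) :
    ∑ n ∈ Finset.Icc 1 X, (1 / (n : ℝ)) * G (n + 1) ≤
      ∑ n ∈ Finset.Icc 1 X, (1 / (n : ℝ)) * G n + B := by
  have key : ∀ Y : ℕ, ∑ n ∈ Finset.Icc 1 Y, (1 / (n : ℝ)) * G (n + 1) ≤
      ∑ n ∈ Finset.Icc 1 Y, (1 / (n : ℝ)) * G n + (1 / ((Y : ℝ) + 1)) * G (Y + 1) +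
        B * (1 - 1 / ((Y : ℝ) + 1)) := by
    intro Y
    induction Y with
    | zero =>
      simp
      exact hG 1
    | succ n ih =>
      rw [Finset.sum_Icc_succ_top (by omega), Finset.sum_Icc_succ_top (by omega)]
      have h1 : (0 : ℝ) < (n : ℝ) + 1 := by positivity
      have h2 : (0 : ℝ) < (n : ℝ) + 1 + 1 := by positivity
      push_cast
      have h3 : 1 / ((n : ℝ) + 1) = 1 / ((n : ℝ) + 1 + 1) +
          1 / (((n : ℝ) + 1) * ((n : ℝ) + 1 + 1)) := by
        field_simp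
      have h4 : (1 / ((n : ℝ) + 1)) * G (n + 1 + 1) ≤ (1 / ((n : ℝ) + 1 + 1)) * G (n + 1 + 1) +
          B * (1 / (((n : ℝ) + 1) * ((n : ℝ) + 1 + 1))) := by
        rw [h3, add_mul]
        apply add_le_add _ _
        · exact le_rfl
        · rw [mul_comm B]
          exact mul_le_mul_of_nonneg_left (hB _) (by positivity)
      have h5 : B * (1 - 1 / ((n : ℝ) + 1)) + B * (1 / (((n : ℝ) + 1) * ((n : ℝ) + 1 + 1))) =
          B * (1 - 1 / ((n : ℝ) + 1 + 1)) := by
        field_simp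
        ring
      linarith
  have h := key X
  have h1 : (0 : ℝ) < (X : ℝ) + 1 := by positivity
  have h2 : (1 / ((X : ℝ) + 1)) * G (X + 1) ≤ (1 / ((X : ℝ) + 1)) * B :=
    mul_le_mul_of_nonneg_left (hB _) (by positivity)
  have h3 : (1 / ((X : ℝ) + 1)) * B + B * (1 - 1 / ((X : ℝ) + 1)) = B := by ring
  linarith

private lemma shift_sum (G : ℕ → ℝ) (B : ℝ) (hB : ∀ n, G n ≤ B) (hG : ∀ n, 0 ≤ G n)
    (X s : ℕ) :
    ∑ n ∈ Finset.Icc 1 X, (1 / (n : ℝ)) * G (n + s) ≤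
      ∑ n ∈ Finset.Icc 1 X, (1 / (n : ℝ)) * G n + s * B := by
  induction s with
  | zero => simp
  | succ t ih =>
    have h := shift_one (fun n => G (n + t)) B (fun n => hB _) (fun n => hG _) X
    have e : ∀ n : ℕ, n + (t + 1) = n + 1 + t := fun n => by omega
    simp only [e]
    push_cast
    linarith

private lemma abs_mX (X : ℕ) (b : ℕ → ℝ) (hb : ∀ m, |b m| ≤ 1) : |mX X b| ≤ 1 := by
  unfold mX
  have hLS : 0 ≤ LS X := by
    unfold LS
    exact Finset.sum_nonneg (fun n _ => by positivity)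
  rw [abs_div, abs_of_nonneg hLS]
  apply div_le_one_of_le₀ _ hLS
  refine (Finset.abs_sum_le_sum_abs _ _).trans ?_
  unfold LS
  apply Finset.sum_le_sum
  intro n _
  rw [abs_mul, abs_of_nonneg (by positivity : (0 : ℝ) ≤ 1 / (n : ℝ))]
  calc 1 / (n : ℝ) * |b (Om n)| ≤ 1 / (n : ℝ) * 1 :=
        mul_le_mul_of_nonneg_left (hb _) (by positivity)
    _ = 1 / (n : ℝ) := mul_one _

/-- The sum of the short sums along all residue classes. -/
private noncomputable def Gg (q L : ℕ) (f : ℕ → ℝ) (N : ℕ) : ℝ :=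
  ∑ r ∈ Finset.range q, |∑ j ∈ (Finset.Icc 1 L).filter (fun j => (N + j) % q = r % q), f (N + j)|

private lemma Gg_nonneg (q L : ℕ) (f : ℕ → ℝ) (N : ℕ) : 0 ≤ Gg q L f N :=
  Finset.sum_nonneg (fun _ _ => abs_nonneg _)

private lemma Gg_le (q L : ℕ) (f : ℕ → ℝ) (hf : ∀ n, |f n| ≤ 2) (N : ℕ) :
    Gg q L f N ≤ 2 * q * L := by
  unfold Gg
  calc ∑ r ∈ Finset.range q,
        |∑ j ∈ (Finset.Icc 1 L).filter (fun j => (N + j) % q = r % q), f (N + j)|
      ≤ ∑ r ∈ Finset.range q, (L : ℝ) * 2 := by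
        apply Finset.sum_le_sum
        intro r _
        refine (Finset.abs_sum_le_sum_abs _ _).trans ?_
        refine (Finset.sum_le_card_nsmul _ _ 2 (fun j _ => hf _)).trans ?_
        rw [nsmul_eq_mul]
        apply mul_le_mul_of_nonneg_right _ (by norm_num)
        have h := Finset.card_filter_le (Finset.Icc 1 L) (fun j => (N + j) % q = r % q)
        rw [Nat.card_Icc] at h
        exact_mod_cast h
    _ = 2 * q * L := by
        rw [Finset.sum_const, Finset.card_range, nsmul_eq_mul]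
        ring

private lemma residue_le (q L : ℕ) (hq : 1 ≤ q) (f : ℕ → ℝ) (a : ℤ) (N : ℕ) :
    ‖∑ j ∈ Finset.Icc 1 L, ((f (N + j) : ℝ) : ℂ) *
      eC (((N + j : ℕ) : ℝ) * ((a : ℝ) / (q : ℝ)))‖ ≤ Gg q L f N := by
  have hq0 : (0 : ℝ) < q := by exact_mod_cast (by omega : 0 < q)
  have hmaps : ∀ j ∈ Finset.Icc 1 L, (N + j) % q ∈ Finset.range q := by
    intro j _
    rw [Finset.mem_range]
    exact Nat.mod_lt _ (by omega)
  rw [← Finset.sum_fiberwise_of_maps_to hmaps]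
  refine (norm_sum_le _ _).trans ?_
  unfold Gg
  apply Finset.sum_le_sum
  intro r hr
  rw [Finset.mem_range] at hr
  rw [Nat.mod_eq_of_lt hr]
  have h1 : ∑ j ∈ (Finset.Icc 1 L).filter (fun j => (N + j) % q = r), ((f (N + j) : ℝ) : ℂ) *
      eC (((N + j : ℕ) : ℝ) * ((a : ℝ) / (q : ℝ))) =
      ((∑ j ∈ (Finset.Icc 1 L).filter (fun j => (N + j) % q = r), f (N + j) : ℝ) : ℂ) *
        eC ((r : ℝ) * ((a : ℝ) / (q : ℝ))) := by
    push_cast
    rw [Finset.sum_mul]
    apply Finset.sum_congr rfl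
    intro j hj
    rw [Finset.mem_filter] at hj
    obtain ⟨k, hk⟩ : ∃ k : ℕ, k = (N + j) / q := ⟨_, rfl⟩
    have e1 : (((N + j : ℕ) : ℝ)) * ((a : ℝ) / (q : ℝ)) =
        (((k : ℤ) * a : ℤ) : ℝ) + (r : ℝ) * ((a : ℝ) / (q : ℝ)) := by
      have e2 : ((N + j : ℕ) : ℝ) = (q : ℝ) * (k : ℝ) + (r : ℝ) := by
        have e3 := Nat.div_add_mod (N + j) q
        rw [hj.2, ← hk] at e3
        exact_mod_cast e3.symm
      rw [e2]
      push_cast
      field_simp
    have e4 : eC (((N : ℝ) + (j : ℝ)) * ((a : ℝ) / (q : ℝ))) = eC ((r : ℝ) * ((a : ℝ) / (q : ℝ))) := by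
      have e5 : ((N : ℝ) + (j : ℝ)) = ((N + j : ℕ) : ℝ) := by push_cast; ring
      rw [e5, e1, eC_add, eC_int, one_mul]
    rw [e4]
  rw [h1, norm_mul, norm_eC, mul_one, Complex.norm_real, Real.norm_eq_abs]

private lemma eC_sub_one (x : ℝ) : ‖eC x - 1‖ ≤ 2 * Real.pi * |x| := by
  have h := Real.norm_exp_I_mul_ofReal_sub_one_le (x := 2 * Real.pi * x)
  rw [Real.norm_eq_abs, abs_mul, abs_of_nonneg (by positivity : (0 : ℝ) ≤ 2 * Real.pi)] at h
  have e : eC x = Complex.exp (Complex.I * ((2 * Real.pi * x : ℝ) : ℂ)) := by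
    unfold eC
    congr 1
    push_cast
    ring
  rw [e]
  exact h

private lemma block_le (q L : ℕ) (hq : 1 ≤ q) (f : ℕ → ℝ) (hf : ∀ n, |f n| ≤ 2) (a : ℤ)
    (α β : ℝ) (hαβ : α = (a : ℝ) / (q : ℝ) + β) (n s : ℕ) :
    ‖∑ j ∈ Finset.Icc 1 L, ((f (n + (s + j)) : ℝ) : ℂ) * eC (((s + j : ℕ) : ℝ) * α)‖ ≤
      Gg q L f (n + s) + L * (2 * (2 * Real.pi * (L * |β|))) := by
  have hq0 : (0 : ℝ) < q := by exact_mod_cast (by omega : 0 < q)
  have e1 : ∀ j ∈ Finset.Icc 1 L,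
      ((f (n + (s + j)) : ℝ) : ℂ) * eC (((s + j : ℕ) : ℝ) * α) =
      eC ((s : ℝ) * β - (n : ℝ) * ((a : ℝ) / (q : ℝ))) *
        (((f (n + s + j) : ℝ) : ℂ) * eC (((n + s + j : ℕ) : ℝ) * ((a : ℝ) / (q : ℝ))) +
          ((f (n + s + j) : ℝ) : ℂ) * eC (((n + s + j : ℕ) : ℝ) * ((a : ℝ) / (q : ℝ))) *
            (eC ((j : ℝ) * β) - 1)) := by
    intro j _
    have e2 : eC (((s + j : ℕ) : ℝ) * α) =
        eC ((s : ℝ) * β - (n : ℝ) * ((a : ℝ) / (q : ℝ))) *
          (eC (((n + s + j : ℕ) : ℝ) * ((a : ℝ) / (q : ℝ))) * eC ((j : ℝ) * β)) := by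
      rw [← eC_add, ← eC_add]
      congr 1
      rw [hαβ]
      push_cast
      ring
    rw [e2, ← add_assoc]
    ring
  rw [Finset.sum_congr rfl e1, ← Finset.mul_sum, norm_mul, norm_eC, one_mul,
    Finset.sum_add_distrib]
  refine (norm_add_le _ _).trans ?_
  apply add_le_add
  · exact residue_le q L hq f a (n + s)
  · refine (norm_sum_le _ _).trans ?_
    have h1 : ∀ j ∈ Finset.Icc 1 L,
        ‖((f (n + s + j) : ℝ) : ℂ) * eC (((n + s + j : ℕ) : ℝ) * ((a : ℝ) / (q : ℝ))) *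
            (eC ((j : ℝ) * β) - 1)‖ ≤ 2 * (2 * Real.pi * (L * |β|)) := by
      intro j hj
      rw [Finset.mem_Icc] at hj
      rw [norm_mul, norm_mul, norm_eC, mul_one, Complex.norm_real, Real.norm_eq_abs]
      apply mul_le_mul (hf _) _ (norm_nonneg _) (by norm_num)
      refine (eC_sub_one _).trans ?_
      apply mul_le_mul_of_nonneg_left _ (by positivity)
      rw [abs_mul, abs_of_nonneg (by positivity : (0 : ℝ) ≤ (j : ℝ))]
      apply mul_le_mul_of_nonneg_right _ (abs_nonneg _)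
      exact_mod_cast hj.2
    refine (Finset.sum_le_card_nsmul _ _ _ h1).trans ?_
    rw [Nat.card_Icc, nsmul_eq_mul]
    simp

theorem major_of (h : MRAP) : MAJOR := by
  intro q hq K ε0 hK hε0
  set ε : ℝ := min ε0 1 with hεdef
  have hε : 0 < ε := lt_min hε0 one_pos
  have hε1 : ε ≤ 1 := min_le_right _ _
  have hεε0 : ε ≤ ε0 := min_le_left _ _
  have hq0 : (0 : ℝ) < q := by exact_mod_cast (by omega : 0 < q)
  have hq1 : (1 : ℝ) ≤ q := by exact_mod_cast hq
  obtain ⟨H0', hH0'⟩ := h q hq (ε / (8 * q)) (by positivity)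
  refine ⟨⌈64 * (K + 1) * (H0' + 1) / ε⌉₊ + 1, ?_⟩
  intro H hH
  have hH1 : 64 * (K + 1) * (H0' + 1) / ε ≤ (H : ℝ) := by
    refine (Nat.le_ceil _).trans ?_
    exact_mod_cast (by omega : ⌈64 * (K + 1) * (H0' + 1) / ε⌉₊ ≤ H)
  have hHpos : 0 < H := by omega
  have hH0 : (0 : ℝ) < H := by exact_mod_cast hHpos
  set L : ℕ := ⌊ε * H / (64 * (K + 1))⌋₊ with hL
  have hLle : (L : ℝ) ≤ ε * H / (64 * (K + 1)) := Nat.floor_le (by positivity)
  have hLge : H0' + 1 ≤ L := by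
    rw [hL]
    apply Nat.le_floor
    rw [le_div_iff₀ (by positivity)]
    rw [div_le_iff₀ hε] at hH1
    push_cast
    linarith
  obtain ⟨X0', hX0'⟩ := hH0' L (by omega)
  have hL0 : 0 < L := by omega
  have hL0r : (0 : ℝ) < L := by exact_mod_cast hL0
  refine ⟨max (max X0' 3) (⌈Real.exp (64 * q * H / ε)⌉₊ + 1), ?_⟩
  intro X hX b hb α hα
  have hXa : X0' ≤ X := le_trans (le_trans (le_max_left _ _) (le_max_left _ _)) hX
  have hXb : 3 ≤ X := le_trans (le_trans (le_max_right _ _) (le_max_left _ _)) hX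
  have hXc : ⌈Real.exp (64 * q * H / ε)⌉₊ + 1 ≤ X := le_trans (le_max_right _ _) hX
  have hX0 : (0 : ℝ) < X := by exact_mod_cast (by omega : 0 < X)
  have hlogX : 64 * q * H / ε ≤ Real.log X := by
    rw [Real.le_log_iff_exp_le hX0]
    refine (Nat.le_ceil _).trans ?_
    exact_mod_cast (by omega : ⌈Real.exp (64 * q * H / ε)⌉₊ ≤ X)
  have hlog1 : 1 ≤ Real.log X := by
    have h3 : Real.exp 1 ≤ X := by
      have := Real.exp_one_lt_d9
      have h3' : (3 : ℝ) ≤ X := by exact_mod_cast hXb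
      linarith
    rw [Real.le_log_iff_exp_le hX0]
    exact h3
  have hlog0 : 0 < Real.log X := by linarith
  have hLS0 : 0 ≤ LS X := by
    unfold LS
    exact Finset.sum_nonneg (fun n _ => by positivity)
  have hLS : LS X ≤ 2 * Real.log X := by
    have := LS_le X (by omega)
    linarith
  set f : ℕ → ℝ := fun n => b (Om n) - mX X b with hfdef
  have hf : ∀ n, |f n| ≤ 2 := by
    intro n
    have h1 := abs_mX X b hb
    have h2 := hb (Om n)
    calc |b (Om n) - mX X b| ≤ |b (Om n)| + |mX X b| := abs_sub _ _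
      _ ≤ 2 := by linarith
  set a : ℤ := round ((q : ℝ) * α) with ha
  set β : ℝ := α - (a : ℝ) / (q : ℝ) with hβ
  have hαβ : α = (a : ℝ) / (q : ℝ) + β := by rw [hβ]; ring
  have hβle : |β| ≤ K / H := by
    have h1 : |β| = nd ((q : ℝ) * α) / q := by
      unfold nd
      rw [← ha]
      rw [eq_div_iff hq0.ne']
      rw [← abs_of_pos hq0, ← abs_mul, hβ, abs_of_pos hq0]
      congr 1
      field_simp
    rw [h1]
    have h2 : 0 ≤ nd ((q : ℝ) * α) := abs_nonneg _
    calc nd ((q : ℝ) * α) / q ≤ nd ((q : ℝ) * α) / 1 :=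
          div_le_div_of_nonneg_left h2 one_pos hq1
      _ = nd ((q : ℝ) * α) := div_one _
      _ ≤ K / H := hα
  have hLβ : (L : ℝ) * |β| ≤ ε / 64 := by
    calc (L : ℝ) * |β| ≤ (ε * H / (64 * (K + 1))) * (K / H) :=
          mul_le_mul hLle hβle (abs_nonneg _) (by positivity)
      _ = ε / 64 * (K / (K + 1)) := by
          field_simp
      _ ≤ ε / 64 * 1 := by
          apply mul_le_mul_of_nonneg_left _ (by positivity)
          rw [div_le_one (by positivity)]
          linarith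
      _ = ε / 64 := mul_one _
  set I : ℕ := H / L with hI
  have hHI : I * L + H % L = H := by
    rw [hI, mul_comm]
    exact Nat.div_add_mod H L
  have hmod : H % L < L := Nat.mod_lt _ hL0
  have hIL : (I : ℝ) * L ≤ H := by
    have : I * L ≤ H := by omega
    exact_mod_cast this
  -- pointwise bound
  have hpt : ∀ n : ℕ, ‖∑ j ∈ Finset.Icc 1 H, ((b (Om (n + j)) - mX X b : ℝ) : ℂ) *
      eC ((j : ℝ) * α)‖ ≤ ∑ i ∈ Finset.range I, Gg q L f (n + i * L) +
        (ε * H * (1 / 2 : ℝ) / 2 + ε * H / 32) := by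
    intro n
    have h1 := norm_blocks I L (H % L) (fun j => ((f (n + j) : ℝ) : ℂ) * eC ((j : ℝ) * α))
    rw [hHI] at h1
    refine h1.trans ?_
    have h2 : ∑ i ∈ Finset.range I, ‖∑ j ∈ Finset.Icc 1 L,
        ((f (n + (i * L + j)) : ℝ) : ℂ) * eC (((i * L + j : ℕ) : ℝ) * α)‖ ≤
        ∑ i ∈ Finset.range I, (Gg q L f (n + i * L) + L * (2 * (2 * Real.pi * (L * |β|)))) := by
      apply Finset.sum_le_sum
      intro i _
      exact block_le q L hq f hf a α β hαβ n (i * L)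
    have h3 : ‖∑ j ∈ Finset.Icc 1 (H % L),
        ((f (n + (I * L + j)) : ℝ) : ℂ) * eC (((I * L + j : ℕ) : ℝ) * α)‖ ≤ 2 * L := by
      refine (norm_sum_le _ _).trans ?_
      have h4 : ∀ j ∈ Finset.Icc 1 (H % L),
          ‖((f (n + (I * L + j)) : ℝ) : ℂ) * eC (((I * L + j : ℕ) : ℝ) * α)‖ ≤ 2 := by
        intro j _
        rw [norm_mul, norm_eC, mul_one, Complex.norm_real, Real.norm_eq_abs]
        exact hf _
      refine (Finset.sum_le_card_nsmul _ _ _ h4).trans ?_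
      rw [Nat.card_Icc, nsmul_eq_mul, Nat.add_sub_cancel]
      have : ((H % L : ℕ) : ℝ) ≤ L := by exact_mod_cast hmod.le
      linarith
    rw [Finset.sum_add_distrib, Finset.sum_const, Finset.card_range, nsmul_eq_mul] at h2
    have h5 : (I : ℝ) * (L * (2 * (2 * Real.pi * (L * |β|)))) ≤ ε * H * (1 / 2 : ℝ) / 2 := by
      have hpi := Real.pi_lt_d2
      have hpi0 := Real.pi_pos
      calc (I : ℝ) * (L * (2 * (2 * Real.pi * (L * |β|))))
          = ((I : ℝ) * L) * (4 * Real.pi * (L * |β|)) := by ring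
        _ ≤ H * (4 * Real.pi * (ε / 64)) := by
            apply mul_le_mul hIL _ (by positivity) hH0.le
            apply mul_le_mul_of_nonneg_left hLβ (by positivity)
        _ = ε * H * (Real.pi / 16) := by ring
        _ ≤ ε * H * (1 / 4) := by
            apply mul_le_mul_of_nonneg_left _ (by positivity)
            linarith
        _ = ε * H * (1 / 2 : ℝ) / 2 := by ring
    have h6 : 2 * (L : ℝ) ≤ ε * H / 32 := by
      calc 2 * (L : ℝ) ≤ 2 * (ε * H / (64 * (K + 1))) := by linarith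
        _ ≤ 2 * (ε * H / (64 * 1)) := by
            apply mul_le_mul_of_nonneg_left _ (by norm_num)
            apply div_le_div_of_nonneg_left (by positivity) (by norm_num)
            linarith
        _ = ε * H / 32 := by ring
    linarith
  -- sum over n
  have hGsum : ∑ n ∈ Finset.Icc 1 X, (1 / (n : ℝ)) * Gg q L f n ≤ ε / 8 * L * Real.log X := by
    have h1 : ∑ n ∈ Finset.Icc 1 X, (1 / (n : ℝ)) * Gg q L f n =
        ∑ r ∈ Finset.range q, ∑ n ∈ Finset.Icc 1 X, (1 / (n : ℝ)) *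
          |∑ j ∈ (Finset.Icc 1 L).filter (fun j => (n + j) % q = r % q),
            (b (Om (n + j)) - mX X b)| := by
      rw [Finset.sum_comm]
      apply Finset.sum_congr rfl
      intro n _
      unfold Gg
      rw [Finset.mul_sum]
    rw [h1]
    refine (Finset.sum_le_sum (fun r _ => hX0' X hXa b hb r)).trans ?_
    rw [Finset.sum_const, Finset.card_range, nsmul_eq_mul]
    apply le_of_eq
    field_simp
  have hshift : ∀ i ∈ Finset.range I, ∑ n ∈ Finset.Icc 1 X, (1 / (n : ℝ)) *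
      Gg q L f (n + i * L) ≤ ε / 8 * L * Real.log X + H * (2 * q * L) := by
    intro i hi
    rw [Finset.mem_range] at hi
    have h1 := shift_sum (Gg q L f) (2 * q * L) (Gg_le q L f hf) (Gg_nonneg q L f) X (i * L)
    have h2 : ((i * L : ℕ) : ℝ) * (2 * q * L) ≤ H * (2 * q * L) := by
      apply mul_le_mul_of_nonneg_right _ (by positivity)
      have : i * L ≤ H := by
        have := Nat.mul_le_mul_right L hi.le
        omega
      exact_mod_cast this
    linarith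
  calc ∑ n ∈ Finset.Icc 1 X, (1 / (n : ℝ)) *
        ‖∑ j ∈ Finset.Icc 1 H, ((b (Om (n + j)) - mX X b : ℝ) : ℂ) * eC ((j : ℝ) * α)‖
      ≤ ∑ n ∈ Finset.Icc 1 X, (1 / (n : ℝ)) * (∑ i ∈ Finset.range I, Gg q L f (n + i * L) +
        (ε * H * (1 / 2 : ℝ) / 2 + ε * H / 32)) := by
        apply Finset.sum_le_sum
        intro n _
        exact mul_le_mul_of_nonneg_left (hpt n) (by positivity)
    _ = ∑ i ∈ Finset.range I, ∑ n ∈ Finset.Icc 1 X, (1 / (n : ℝ)) * Gg q L f (n + i * L) +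
        LS X * (ε * H * (1 / 2 : ℝ) / 2 + ε * H / 32) := by
        rw [Finset.sum_comm]
        unfold LS
        rw [Finset.sum_mul, ← Finset.sum_add_distrib]
        apply Finset.sum_congr rfl
        intro n _
        rw [mul_add, Finset.mul_sum]
    _ ≤ I * (ε / 8 * L * Real.log X + H * (2 * q * L)) +
        (2 * Real.log X) * (ε * H * (1 / 2 : ℝ) / 2 + ε * H / 32) := by
        apply add_le_add
        · refine (Finset.sum_le_card_nsmul _ _ _ hshift).trans ?_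
          rw [Finset.card_range, nsmul_eq_mul]
        · exact mul_le_mul_of_nonneg_right hLS (by positivity)
    _ = ((I : ℝ) * L) * (ε / 8 * Real.log X + 2 * q * H) +
        (ε * H * Real.log X) * (9 / 16) := by ring
    _ ≤ H * (ε / 8 * Real.log X + 2 * q * H) + (ε * H * Real.log X) * (9 / 16) := by
        apply add_le_add _ le_rfl
        exact mul_le_mul_of_nonneg_right hIL (by positivity)
    _ ≤ H * (ε / 8 * Real.log X + ε / 32 * Real.log X) + (ε * H * Real.log X) * (9 / 16) := by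
        apply add_le_add _ le_rfl
        apply mul_le_mul_of_nonneg_left _ hH0.le
        apply add_le_add le_rfl
        rw [div_le_iff₀ hε] at hlogX
        linarith
    _ = (ε * H * Real.log X) * (23 / 32) := by ring
    _ ≤ (ε * H * Real.log X) * 1 := by
        apply mul_le_mul_of_nonneg_left (by norm_num) (by positivity)
    _ = ε * H * Real.log X := mul_one _
    _ ≤ ε0 * H * Real.log X := by
        apply mul_le_mul_of_nonneg_right _ hlog0.le
        exact mul_le_mul_of_nonneg_right hεε0 hH0.le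

end MRB
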