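import Pool.Agent.Helper33.MRB.C01
import Pool.Agent.Helper33.MRB.C02

/-!
# MRB-C09: exponential sums from minor and major arcs

Proof. `ε ≤ 1`. Take `Q`, `K` from `MINOR` for `ε/2`. For each `q ∈ [1, Q]` take `H0(q)` from `MAJOR` for
`q`, `K`, `ε`; `H0` = maximum of all of them, `4/ε + 1`, and the one of `MINOR`. Given `H`, `X0` =
maximum of the corresponding `X0` (finitely many), and of a number after which
`LS X ≤ 2 log X`. For `α`: if some `1 ≤ d ≤ Q` has `nd(dα) < K/H`, use `MAJOR`. Otherwise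
`K/H ≤ nd(dα)` for all such `d`, and
`‖∑_j (b(Ω(n+j)) - m) e(jα)‖ ≤ ‖∑_j b(Ω(n+j)) e(jα)‖ + |m| ‖∑_{j≤H} e(jα)‖`, `|m| ≤ 1`, and by `geom_le`
and `nd(α) ≥ K/H ≥ 1/H`: `‖∑_{j≤H} e(jα)‖ ≤ H/(2K)`. To make this small enlarge `K`: note that the
condition of `MINOR` with a larger `K' = K + 4/ε` implies the one with `K`, so work with `K'` in both
cases (take `MAJOR` for `K'`): then `‖∑_j e(jα)‖ ≤ H/(2K') ≤ εH/8`, and `(εH/8) LS X ≤ (ε/4) H log X`.
-/

set_option autoImplicit false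

namespace MRB

open Finset MRP

private theorem LS_nonneg' (X : ℕ) : 0 ≤ LS X :=
  Finset.sum_nonneg (fun n _ => by positivity)

private theorem abs_mX_le (X : ℕ) (b : ℕ → ℝ) (hb : ∀ m, |b m| ≤ 1) : |mX X b| ≤ 1 := by
  have h0 := LS_nonneg' X
  rw [mX, abs_div, abs_of_nonneg h0]
  refine div_le_one_of_le₀ ?_ h0
  refine (Finset.abs_sum_le_sum_abs _ _).trans ?_
  refine Finset.sum_le_sum (fun n _ => ?_)
  have h1 : (0 : ℝ) ≤ 1 / (n : ℝ) := by positivity
  rw [abs_mul, abs_of_nonneg h1]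
  exact mul_le_of_le_one_right h1 (hb _)

theorem exp_of (hm : MINOR) (hM : MAJOR) : EXP := by
  intro ε hε
  obtain ⟨Q, K, hQ, hK, Hm, hHm⟩ := hm (ε / 2) (by positivity)
  have hK' : 0 < K + 4 / ε := by positivity
  choose! HM hHM using fun (q : ℕ) (hq : 1 ≤ q) => hM q hq (K + 4 / ε) ε hK' hε
  refine ⟨max 1 (max Hm ((Finset.Icc 1 Q).sup HM)), ?_⟩
  intro H hH
  have hH1 : 1 ≤ H := (le_max_left _ _).trans hH
  have hH2 : Hm ≤ H := ((le_max_left _ _).trans (le_max_right _ _)).trans hH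
  have hH3 : (Finset.Icc 1 Q).sup HM ≤ H := ((le_max_right _ _).trans (le_max_right _ _)).trans hH
  have hHpos : (0 : ℝ) < H := by exact_mod_cast hH1
  obtain ⟨Xm, hXm⟩ := hHm H hH2
  have hex : ∀ q ∈ Finset.Icc 1 Q, ∃ X0 : ℕ, ∀ X : ℕ, X0 ≤ X → ∀ b : ℕ → ℝ,
      (∀ m, |b m| ≤ 1) → ∀ α : ℝ, nd ((q : ℝ) * α) ≤ (K + 4 / ε) / H →
      ∑ n ∈ Finset.Icc 1 X, (1 / (n : ℝ)) *
        ‖∑ j ∈ Finset.Icc 1 H, ((b (Om (n + j)) - mX X b : ℝ) : ℂ) * eC ((j : ℝ) * α)‖ ≤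
          ε * H * Real.log X := by
    intro q hq
    have hq1 : 1 ≤ q := (Finset.mem_Icc.1 hq).1
    exact hHM q hq1 H ((Finset.le_sup (f := HM) hq).trans hH3)
  choose! XM hXM using hex
  refine ⟨max 3 (max Xm ((Finset.Icc 1 Q).sup XM)), ?_⟩
  intro X hX b hb α
  have hX1 : 3 ≤ X := (le_max_left _ _).trans hX
  have hX2 : Xm ≤ X := ((le_max_left _ _).trans (le_max_right _ _)).trans hX
  have hX3 : (Finset.Icc 1 Q).sup XM ≤ X :=
    ((le_max_right _ _).trans (le_max_right _ _)).trans hX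
  by_cases hd : ∃ d : ℕ, 1 ≤ d ∧ d ≤ Q ∧ nd ((d : ℝ) * α) < (K + 4 / ε) / H
  · obtain ⟨d, h1, h2, h3⟩ := hd
    have hmem : d ∈ Finset.Icc 1 Q := Finset.mem_Icc.2 ⟨h1, h2⟩
    exact hXM d hmem X ((Finset.le_sup (f := XM) hmem).trans hX3) b hb α h3.le
  · push Not at hd
    have hlog : 1 ≤ Real.log X := by
      rw [Real.le_log_iff_exp_le (by exact_mod_cast (by omega : 0 < X))]
      have h3 : Real.exp 1 < 3 := by
        have := Real.exp_one_lt_d9
        linarith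
      have h4 : (3 : ℝ) ≤ X := by exact_mod_cast hX1
      linarith
    have hminor := hXm X hX2 b hb α (fun d h1 h2 =>
      (div_le_div_of_nonneg_right (by
        have : 0 < 4 / ε := by positivity
        linarith) hHpos.le).trans (hd d h1 h2))
    have hnd : (K + 4 / ε) / H ≤ nd α := by
      have := hd 1 le_rfl hQ
      simpa using this
    have hgeom : ‖∑ j ∈ Finset.Icc 1 H, eC ((j : ℝ) * α)‖ ≤ ε * H / 8 := by
      have h1 := geom_le 1 H α
      have h2 : 4 / (ε * H) ≤ nd α := by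
        refine le_trans ?_ hnd
        rw [div_mul_eq_div_div]
        exact div_le_div_of_nonneg_right (by linarith) hHpos.le
      have h3 : ‖∑ j ∈ Finset.Icc 1 H, eC ((j : ℝ) * α)‖ * (8 / (ε * H)) ≤ 1 := by
        refine le_trans ?_ h1
        refine mul_le_mul_of_nonneg_left ?_ (norm_nonneg _)
        have : 8 / (ε * H) = 2 * (4 / (ε * H)) := by ring
        rw [this]
        linarith
      have h4 : 0 < ε * H := by positivity
      have h5 : ‖∑ j ∈ Finset.Icc 1 H, eC ((j : ℝ) * α)‖ =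
          (‖∑ j ∈ Finset.Icc 1 H, eC ((j : ℝ) * α)‖ * (8 / (ε * H))) * (ε * H / 8) := by
        have h6 : 8 / (ε * H) * (ε * H / 8) = 1 := by field_simp
        rw [mul_assoc, h6, mul_one]
      rw [h5]
      calc (‖∑ j ∈ Finset.Icc 1 H, eC ((j : ℝ) * α)‖ * (8 / (ε * H))) * (ε * H / 8)
          ≤ 1 * (ε * H / 8) := mul_le_mul_of_nonneg_right h3 (by positivity)
        _ = ε * H / 8 := one_mul _
    have hterm : ∀ n : ℕ,
        ‖∑ j ∈ Finset.Icc 1 H, ((b (Om (n + j)) - mX X b : ℝ) : ℂ) * eC ((j : ℝ) * α)‖ ≤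
        ‖∑ j ∈ Finset.Icc 1 H, ((b (Om (n + j)) : ℝ) : ℂ) * eC ((j : ℝ) * α)‖ + ε * H / 8 := by
      intro n
      have h1 : ∑ j ∈ Finset.Icc 1 H, ((b (Om (n + j)) - mX X b : ℝ) : ℂ) * eC ((j : ℝ) * α) =
          ∑ j ∈ Finset.Icc 1 H, ((b (Om (n + j)) : ℝ) : ℂ) * eC ((j : ℝ) * α) -
            ((mX X b : ℝ) : ℂ) * ∑ j ∈ Finset.Icc 1 H, eC ((j : ℝ) * α) := by
        rw [Finset.mul_sum, ← Finset.sum_sub_distrib]
        refine Finset.sum_congr rfl (fun j _ => ?_)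
        push_cast
        ring
      rw [h1]
      refine (norm_sub_le _ _).trans ?_
      refine add_le_add le_rfl ?_
      rw [norm_mul, Complex.norm_real, Real.norm_eq_abs]
      calc |mX X b| * ‖∑ j ∈ Finset.Icc 1 H, eC ((j : ℝ) * α)‖
          ≤ 1 * ‖∑ j ∈ Finset.Icc 1 H, eC ((j : ℝ) * α)‖ :=
            mul_le_mul_of_nonneg_right (abs_mX_le X b hb) (norm_nonneg _)
        _ ≤ ε * H / 8 := by rw [one_mul]; exact hgeom
    have hLS : LS X ≤ 1 + Real.log X := LS_le X (by omega)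
    calc ∑ n ∈ Finset.Icc 1 X, (1 / (n : ℝ)) *
          ‖∑ j ∈ Finset.Icc 1 H, ((b (Om (n + j)) - mX X b : ℝ) : ℂ) * eC ((j : ℝ) * α)‖
        ≤ ∑ n ∈ Finset.Icc 1 X, (1 / (n : ℝ)) *
          (‖∑ j ∈ Finset.Icc 1 H, ((b (Om (n + j)) : ℝ) : ℂ) * eC ((j : ℝ) * α)‖ +
            ε * H / 8) := by
          refine Finset.sum_le_sum (fun n _ => ?_)
          exact mul_le_mul_of_nonneg_left (hterm n) (by positivity)
      _ = ∑ n ∈ Finset.Icc 1 X, (1 / (n : ℝ)) *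
          ‖∑ j ∈ Finset.Icc 1 H, ((b (Om (n + j)) : ℝ) : ℂ) * eC ((j : ℝ) * α)‖ +
            LS X * (ε * H / 8) := by
          rw [LS, Finset.sum_mul, ← Finset.sum_add_distrib]
          refine Finset.sum_congr rfl (fun n _ => ?_)
          ring
      _ ≤ ε / 2 * H * Real.log X + (1 + Real.log X) * (ε * H / 8) :=
          add_le_add hminor (mul_le_mul_of_nonneg_right hLS (by positivity))
      _ ≤ ε * H * Real.log X := by
          have h6 : 0 < ε * H := by positivity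
          nlinarith [mul_le_mul_of_nonneg_left hlog h6.le]

end MRB
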