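import Pool.Agent.Helper6.MR.Iface
import Pool.Agent.Helper9.Selberg
import Pool.Agent.Helper9.GLower
import Pool.Agent.Helper9.CountCRT

/-!
# MRB: definitions and statements for the blocks (B) and (C) of project MR (MP_e0aac0_nt)

Chain: `MRCHI0`, `MRCHI1`, `LAW1` give `MRAP` (modules M01-M04), `MRAP` gives `EXP` (modules
C01-C09), `EXP` gives `CIRC` (modules B01-B09).
-/

set_option autoImplicit false

namespace MRB

open Finset MRP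

/-- Distance to the nearest integer. -/
noncomputable def nd (x : ℝ) : ℝ := |x - round x|

/-- The number of elements of `S` which divide `n`. -/
def om (S : Finset ℕ) (n : ℕ) : ℕ := (S.filter (fun p => p ∣ n)).card

/-- The sum of the reciprocals. -/
noncomputable def Wp (S : Finset ℕ) : ℝ := ∑ p ∈ S, 1 / (p : ℝ)

/-- The singular factor of the shift `h`. -/
noncomputable def kap (h : ℕ) : ℝ := ∏ p ∈ h.primeFactors.erase 2, (1 - 2 / (p : ℝ))⁻¹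

/-- The exponential sum over the primes in `(P, 2P]`. -/
noncomputable def SP (P : ℕ) (α : ℝ) : ℂ := ∑ p ∈ dyP P, eC ((p : ℝ) * α)

/-- The number of `(p₁, p₂, p₃, p₄)` with all `pᵢ` in `dyP P` and `p₁ + p₂ = p₃ + p₄`. -/
def En (P : ℕ) : ℕ := (((dyP P ×ˢ dyP P) ×ˢ (dyP P ×ˢ dyP P)).filter
  (fun x => x.1.1 + x.1.2 = x.2.1 + x.2.2)).card

/-- The constant density two. -/
def two1 : ℕ → ℕ := fun _ => 2

/-- The odd primes up to `R`. -/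
def OP (R : ℕ) : Finset ℕ := (Finset.Icc 3 R).filter Nat.Prime

/-- The odd primes up to `R` which do not divide `h`. -/
def SH (h R : ℕ) : Finset ℕ := (OP R).filter (fun p => ¬ p ∣ h)

/-- The short exponential sums on the minor arcs. -/
def MINOR : Prop :=
  ∀ ε : ℝ, 0 < ε → ∃ (Q : ℕ) (K : ℝ), 1 ≤ Q ∧ 1 ≤ K ∧ ∃ H0 : ℕ, ∀ H : ℕ, H0 ≤ H →
    ∃ X0 : ℕ, ∀ X : ℕ, X0 ≤ X → ∀ b : ℕ → ℝ, (∀ m, |b m| ≤ 1) → ∀ α : ℝ,
      (∀ d : ℕ, 1 ≤ d → d ≤ Q → K / H ≤ nd ((d : ℝ) * α)) →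
      ∑ n ∈ Finset.Icc 1 X, (1 / (n : ℝ)) *
        ‖∑ j ∈ Finset.Icc 1 H, ((b (Om (n + j)) : ℝ) : ℂ) * eC ((j : ℝ) * α)‖ ≤
          ε * H * Real.log X

/-- The short exponential sums on the major arcs. -/
def MAJOR : Prop :=
  ∀ q : ℕ, 1 ≤ q → ∀ K ε : ℝ, 0 < K → 0 < ε → ∃ H0 : ℕ, ∀ H : ℕ, H0 ≤ H →
    ∃ X0 : ℕ, ∀ X : ℕ, X0 ≤ X → ∀ b : ℕ → ℝ, (∀ m, |b m| ≤ 1) → ∀ α : ℝ,
      nd ((q : ℝ) * α) ≤ K / H →
      ∑ n ∈ Finset.Icc 1 X, (1 / (n : ℝ)) *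
        ‖∑ j ∈ Finset.Icc 1 H, ((b (Om (n + j)) - mX X b : ℝ) : ℂ) * eC ((j : ℝ) * α)‖ ≤
          ε * H * Real.log X

/-- Short sums along reduced residue classes. -/
def COP : Prop :=
  ∀ q : ℕ, 1 ≤ q → ∀ ε : ℝ, 0 < ε → ∃ H0 : ℕ, ∀ H : ℕ, H0 ≤ H → ∃ X0 : ℕ, ∀ X : ℕ, X0 ≤ X →
    ∀ b : ℕ → ℝ, (∀ m, |b m| ≤ 1) → ∀ r : ℕ, Nat.Coprime r q →
      ∑ n ∈ Finset.Icc 1 X, (1 / (n : ℝ)) *
        |(∑ j ∈ (Finset.Icc 1 H).filter (fun j => (n + j) % q = r % q), b (Om (n + j))) -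
          (H : ℝ) / (q : ℝ) * mX X b| ≤ ε * H * Real.log X

end MRB
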