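import Pool.Agent.Helper33.MRB.Defs

/-!
# MRB-M01: reduced residue classes from characters

Proof. For `r` prime to `q` and a natural number `m`: `1_{m ≡ r (q)} = (1/φ(q)) ∑_χ conj χ(r) χ(m)`
(`DirichletCharacter.sum_char_inv_mul_char_eq`, over `ℂ`). Hence, with `s(n) = ∑_{j≤H, n+j≡r} b(Ω(n+j))`,
`φ(q) |s(n) - (H/q) m| ≤ |∑_{j≤H, (n+j,q)=1} b(Ω(n+j)) - H (φ(q)/q) m| + ∑_{χ≠1} ‖∑_{j≤H} b(Ω(n+j)) χ(n+j)‖`,
`m = mX X b`. Apply `MRCHI0` and `MRCHI1` with `ε` for `q` and all the (finitely many) nonprincipal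
characters, `H0` = the maximum of their `H0`; for given `H`, `X0` = the maximum of their `X0`. The sum is
`≤ φ(q) ε H log X`.
-/

set_option autoImplicit false

namespace MRB

open Finset MRP

theorem cop_of (h0 : MRCHI0) (h1 : MRCHI1) : COP := by
  sorry

end MRB
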