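import Pool.Agent.Helper33.MRB.Defs

/-!
# MRB-M02: iterating the shift invariance

Proof. Induction on `s`: `up (s+1) b = up 1 (up s b)` up to `m + (s+1) = (m+1) + s`, apply `LAW1` with
`ε/2` to `up s b` and the induction hypothesis with `ε/2`.
-/

set_option autoImplicit false

namespace MRB

open Finset MRP

theorem law_iter (h : LAW1) (s : ℕ) (ε : ℝ) (hε : 0 < ε) : ∃ X0 : ℕ, ∀ X : ℕ, X0 ≤ X →
    ∀ b : ℕ → ℝ, (∀ m, |b m| ≤ 1) → |mX X (up s b) - mX X b| ≤ ε := by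
  sorry

theorem abs_mX_le (X : ℕ) (b : ℕ → ℝ) (hb : ∀ m, |b m| ≤ 1) : |mX X b| ≤ 1 := by
  sorry

end MRB
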