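import Pool.Agent.Helper33.MRB.Defs

/-!
# MRB-M03: short sums over multiples of `d`

Proof. The terms with `n < d`: the sum has at most `H` terms `≤ 2` and `|v| ≤ 2H`, so they contribute at
most `4 H ∑_{n<d} 1/n ≤ 4 d H`. For `n ≥ d` write `n = d n' + s`, `0 ≤ s < d`, `1 ≤ n' ≤ X/d ≤ X`,
`1/n ≤ 1/(d n')`. The `j ∈ [1,H]` with `d ∣ n + j` correspond to the `m = (n+j)/d` with
`n' + 1 ≤ m ≤ ⌊(n+H)/d⌋ = n' + ⌊(s+H)/d⌋`, and `⌊H/d⌋ ≤ ⌊(s+H)/d⌋ ≤ ⌊H/d⌋ + 1`. So the inner sum differs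
from `∑_{j ≤ H/d} g(n'+j)` by at most one term, i.e. by at most `2`. Sum over `s < d` and `n'`:
`∑_{n'≤X} (1/n') (|∑_{j≤H/d} g(n'+j) - v| + 2)`.
-/

set_option autoImplicit false

namespace MRB

open Finset MRP

theorem dilate (d H X : ℕ) (hd : 1 ≤ d) (g : ℕ → ℝ) (hg : ∀ m, |g m| ≤ 2) (v : ℝ)
    (hv : |v| ≤ 2 * H) :
    ∑ n ∈ Finset.Icc 1 X, (1 / (n : ℝ)) *
        |(∑ j ∈ (Finset.Icc 1 H).filter (fun j => d ∣ n + j), g ((n + j) / d)) - v| ≤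
      ∑ n ∈ Finset.Icc 1 X, (1 / (n : ℝ)) * |(∑ j ∈ Finset.Icc 1 (H / d), g (n + j)) - v| +
        2 * LS X + 4 * d * H := by
  sorry

end MRB
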