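import Pool.Agent.Helper33.MRB.C01
import Pool.Agent.Helper33.MRB.M01
import Pool.Agent.Helper33.MRB.M02
import Pool.Agent.Helper33.MRB.M03

/-!
# MRB-M04: all residue classes

Proof. `ε ≤ 1`; it is enough to treat `r < q` (the condition depends on `r % q`), finitely many `r`, so
thresholds may depend on `r`. Let `d = gcd(r, q)` (`≥ 1`, `= q` for `r = 0`), `q' = q/d`, `r' = r/d`,
`(r', q') = 1`. `(n+j) % q = r` iff `d ∣ n+j` and `((n+j)/d) % q' = r' % q'`, and then
`Ω(n+j) = Ω((n+j)/d) + Ω(d)` (for `n + j ≥ 1`). With `b' = up (Ω d) b`, `m = mX X b`,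
`g(k) = 1_{k ≡ r' (q')} b'(Ω k)` for `k ≥ 1`:
`∑_{j≤H, n+j≡r} (b(Ω(n+j)) - m) = ∑_{j≤H, d ∣ n+j} g((n+j)/d) - #{j≤H : n+j ≡ r (q)} m` and
`|#{...} - H/q| ≤ 1`. Apply `dilate` with `v = (H/q) m`, and
`∑_{j≤H/d} g(n+j) = ∑_{j≤H/d, n+j≡r'(q')} b'(Ω(n+j))`; compare with `((H/d)/q') mX X b'`:
`|(⌊H/d⌋/q') mX X b' - (H/q) m| ≤ 1 + (H/q) |mX X b' - m|`. By `COP` (for `q'`, `r'`, `b'`, `ε/4`,
`⌊H/d⌋`) and `law_iter` (`s = Ω d`, `ε/8`), and `LS X ≤ 2 log X`:
total `≤ (ε/4) H log X + (1 + (ε/8) H) 2 log X + 2·2 log X + 4dH + 2 log X ≤ ε H log X` for `H` large and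
then `X` large.
-/

set_option autoImplicit false

namespace MRB

open Finset MRP

/-- the residue condition modulo `d * q'` -/
private lemma cond_iff (d q' r' N : ℕ) (hd : 1 ≤ d) :
    (N % (d * q') = (d * r') % (d * q')) ↔ (d ∣ N ∧ (N / d) % q' = r' % q') := by
  constructor
  · intro h
    have h1 : N ≡ d * r' [MOD d * q'] := h
    have hdN : d ∣ N := by
      have h2 : N ≡ d * r' [MOD d] := Nat.ModEq.of_mul_right q' h1
      have h3 : d * r' ≡ 0 [MOD d] := (Nat.modEq_zero_iff_dvd).2 (dvd_mul_right d r')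
      exact (Nat.modEq_zero_iff_dvd).1 (h2.trans h3)
    refine ⟨hdN, ?_⟩
    obtain ⟨M, rfl⟩ := hdN
    rw [Nat.mul_div_cancel_left _ (by omega)]
    have h4 : M ≡ r' [MOD q'] := (Nat.ModEq.mul_left_cancel_iff' (by omega)).1 h1
    exact h4
  · rintro ⟨⟨M, rfl⟩, h⟩
    rw [Nat.mul_div_cancel_left _ (by omega)] at h
    have h4 : M ≡ r' [MOD q'] := h
    have : d * M ≡ d * r' [MOD d * q'] := (Nat.ModEq.mul_left_cancel_iff' (by omega)).2 h4
    exact this

/-- counting a residue class in an interval -/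
private lemma cnt_bound (q : ℕ) (hq : 1 ≤ q) (n H r : ℕ) :
    |((((Finset.Icc 1 H).filter (fun j => (n + j) % q = r % q)).card : ℕ) : ℝ) -
      (H : ℝ) / (q : ℝ)| ≤ 1 := by
  have hcard : ((Finset.Icc 1 H).filter (fun j => (n + j) % q = r % q)).card =
      ((Finset.Ioc n (n + H)).filter (fun m => m % q = r % q)).card := by
    refine Finset.card_bij (fun j _ => n + j) ?_ ?_ ?_
    · intro j hj
      simp only [Finset.mem_filter, Finset.mem_Icc] at hj
      simp only [Finset.mem_filter, Finset.mem_Ioc]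
      exact ⟨⟨by omega, by omega⟩, hj.2⟩
    · intro a _ b _ h
      simpa using h
    · intro m hm
      simp only [Finset.mem_filter, Finset.mem_Ioc] at hm
      refine ⟨m - n, ?_, by omega⟩
      simp only [Finset.mem_filter, Finset.mem_Icc]
      refine ⟨⟨by omega, by omega⟩, ?_⟩
      have : n + (m - n) = m := by omega
      rw [this]; exact hm.2
  rw [hcard]
  have h1 := Nat.Ioc_filter_modEq_card n (n + H) (r := q) (by omega) r
  have h2 : ((Finset.Ioc n (n + H)).filter (fun m => m % q = r % q)) =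
      ((Finset.Ioc n (n + H)).filter (fun m => m ≡ r [MOD q])) := by
    rfl
  rw [h2]
  have hq0 : (0 : ℝ) < q := by exact_mod_cast hq
  have h3 : (((Finset.Ioc n (n + H)).filter (fun m => m ≡ r [MOD q])).card : ℝ) =
      ((max (⌊(((n + H : ℕ) : ℚ) - (r : ℚ)) / (q : ℚ)⌋ - ⌊((n : ℚ) - (r : ℚ)) / (q : ℚ)⌋) 0 : ℤ) : ℝ) := by
    rw [← h1]
    push_cast
    rfl
  rw [h3]
  set A : ℚ := (((n + H : ℕ) : ℚ) - (r : ℚ)) / (q : ℚ) with hA
  set B : ℚ := ((n : ℚ) - (r : ℚ)) / (q : ℚ) with hB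
  have hAB : A - B = (H : ℚ) / q := by
    rw [hA, hB]; push_cast; ring
  have hle : B ≤ A := by
    have : (0 : ℚ) ≤ (H : ℚ) / q := by positivity
    linarith
  have hfl : ⌊B⌋ ≤ ⌊A⌋ := Int.floor_le_floor hle
  rw [max_eq_left (by omega)]
  have ha1 := Int.floor_le A
  have ha2 := Int.lt_floor_add_one A
  have hb1 := Int.floor_le B
  have hb2 := Int.lt_floor_add_one B
  have e1 : ((⌊A⌋ - ⌊B⌋ : ℤ) : ℚ) - (H : ℚ) / q ≤ 1 := by
    push_cast; linarith
  have e2 : -1 ≤ ((⌊A⌋ - ⌊B⌋ : ℤ) : ℚ) - (H : ℚ) / q := by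
    push_cast; linarith
  rw [abs_le]
  constructor
  · have := (Rat.cast_le (K := ℝ)).2 e2
    push_cast at this ⊢
    linarith
  · have := (Rat.cast_le (K := ℝ)).2 e1
    push_cast at this ⊢
    linarith

/-- one residue class -/
private lemma key (hC : COP) (hl : LAW1) (q : ℕ) (hq : 1 ≤ q) (r : ℕ) (ε : ℝ) (hε : 0 < ε) :
    ∃ H0 : ℕ, ∀ H : ℕ, H0 ≤ H → ∃ X0 : ℕ, ∀ X : ℕ, X0 ≤ X →
    ∀ b : ℕ → ℝ, (∀ m, |b m| ≤ 1) →
      ∑ n ∈ Finset.Icc 1 X, (1 / (n : ℝ)) *
        |∑ j ∈ (Finset.Icc 1 H).filter (fun j => (n + j) % q = r % q),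
          (b (Om (n + j)) - mX X b)| ≤ ε * H * Real.log X := by
  obtain ⟨d, q', r', hd, hcop, hqd, hrd⟩ : ∃ d q' r' : ℕ, 1 ≤ d ∧ Nat.Coprime r' q' ∧
      q = d * q' ∧ r = d * r' := by
    have hg : 0 < Nat.gcd r q := Nat.gcd_pos_of_pos_right r (by omega)
    refine ⟨Nat.gcd r q, q / Nat.gcd r q, r / Nat.gcd r q, hg, Nat.coprime_div_gcd_div_gcd hg,
      (Nat.mul_div_cancel' (Nat.gcd_dvd_right r q)).symm,
      (Nat.mul_div_cancel' (Nat.gcd_dvd_left r q)).symm⟩
  subst hqd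
  subst hrd
  have hq' : 1 ≤ q' := by
    rcases Nat.eq_zero_or_pos q' with h | h
    · subst h; simp at hq
    · exact h
  obtain ⟨Hc, hHc⟩ := hC q' hq' (ε / 4) (by positivity)
  obtain ⟨Xl, hXl⟩ := law_iter hl (Om d) (ε / 8) (by positivity)
  obtain ⟨He, hHe⟩ := exists_nat_ge (32 / ε)
  refine ⟨max (Hc * d) (max He 1), fun H hH => ?_⟩
  have hH1 : Hc ≤ H / d := by
    rw [Nat.le_div_iff_mul_le (by omega)]
    exact le_trans (le_max_left _ _) hH
  have hH2 : He ≤ H := le_trans (le_trans (le_max_left _ _) (le_max_right _ _)) hH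
  have hH3 : 1 ≤ H := le_trans (le_trans (le_max_right _ _) (le_max_right _ _)) hH
  obtain ⟨Xc, hXc⟩ := hHc (H / d) hH1
  obtain ⟨Xe, hXe⟩ := exists_nat_ge (Real.exp (16 * d / ε))
  refine ⟨max Xc (max Xl (max Xe 3)), fun X hX b hb => ?_⟩
  have hX1 : Xc ≤ X := le_trans (le_max_left _ _) hX
  have hX2 : Xl ≤ X := le_trans (le_trans (le_max_left _ _) (le_max_right _ _)) hX
  have hX3 : Xe ≤ X := le_trans (le_trans (le_trans (le_max_left _ _) (le_max_right _ _))
    (le_max_right _ _)) hX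
  have hX4 : 3 ≤ X := le_trans (le_trans (le_trans (le_max_right _ _) (le_max_right _ _))
    (le_max_right _ _)) hX
  have hXpos : (0 : ℝ) < X := by
    have : (3 : ℝ) ≤ X := by exact_mod_cast hX4
    linarith
  have hlog1 : 1 ≤ Real.log X := by
    rw [Real.le_log_iff_exp_le hXpos]
    have h3 : (3 : ℝ) ≤ X := by exact_mod_cast hX4
    have := Real.exp_one_lt_d9
    linarith
  have hlog2 : 16 * d / ε ≤ Real.log X := by
    rw [Real.le_log_iff_exp_le hXpos]
    exact le_trans hXe (by exact_mod_cast hX3)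
  have hLS := LS_le X (by omega)
  have hLS0 : 0 ≤ LS X := by
    unfold LS
    exact Finset.sum_nonneg (fun n _ => by positivity)
  set b' : ℕ → ℝ := up (Om d) b with hb'
  have hb'1 : ∀ m, |b' m| ≤ 1 := fun m => hb _
  set M : ℝ := mX X b with hM
  set M' : ℝ := mX X b' with hM'
  have hMabs : |M| ≤ 1 := abs_mX_le X b hb
  have hM'abs : |M'| ≤ 1 := abs_mX_le X b' hb'1
  have hlaw : |M' - M| ≤ ε / 8 := hXl X hX2 b hb
  set g : ℕ → ℝ := fun m => if m % q' = r' % q' then b' (Om m) else 0 with hg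
  have hg2 : ∀ m, |g m| ≤ 2 := by
    intro m
    simp only [hg]
    split_ifs
    · exact le_trans (hb'1 _) (by norm_num)
    · simp
  have hdR : (1 : ℝ) ≤ d := by exact_mod_cast hd
  have hq'R : (1 : ℝ) ≤ q' := by exact_mod_cast hq'
  have hdq : (1 : ℝ) ≤ ((d * q' : ℕ) : ℝ) := by exact_mod_cast hq
  have hH0R : (0 : ℝ) ≤ H := by positivity
  set v : ℝ := (H : ℝ) / ((d * q' : ℕ) : ℝ) * M with hv
  have hHq : (H : ℝ) / ((d * q' : ℕ) : ℝ) ≤ H := div_le_self hH0R hdq
  have hHq0 : 0 ≤ (H : ℝ) / ((d * q' : ℕ) : ℝ) := by positivity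
  have hv2 : |v| ≤ 2 * H := by
    rw [hv, abs_mul, abs_of_nonneg hHq0]
    calc (H : ℝ) / ((d * q' : ℕ) : ℝ) * |M| ≤ H * 1 :=
          mul_le_mul hHq hMabs (abs_nonneg _) hH0R
      _ ≤ 2 * H := by linarith
  -- the inner sum
  have hinner : ∀ n ∈ Finset.Icc 1 X,
      |∑ j ∈ (Finset.Icc 1 H).filter (fun j => (n + j) % (d * q') = (d * r') % (d * q')),
          (b (Om (n + j)) - M)| ≤
        |(∑ j ∈ (Finset.Icc 1 H).filter (fun j => d ∣ n + j), g ((n + j) / d)) - v| + 1 := by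
    intro n hn
    rw [Finset.mem_Icc] at hn
    have e1 : ∑ j ∈ (Finset.Icc 1 H).filter (fun j => (n + j) % (d * q') = (d * r') % (d * q')),
          (b (Om (n + j)) - M) =
        (∑ j ∈ (Finset.Icc 1 H).filter (fun j => d ∣ n + j), g ((n + j) / d)) -
          (((Finset.Icc 1 H).filter
            (fun j => (n + j) % (d * q') = (d * r') % (d * q'))).card : ℝ) * M := by
      rw [Finset.sum_sub_distrib, Finset.sum_const, nsmul_eq_mul]
      congr 1
      have e2 : (Finset.Icc 1 H).filter (fun j => (n + j) % (d * q') = (d * r') % (d * q')) =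
          ((Finset.Icc 1 H).filter (fun j => d ∣ n + j)).filter
            (fun j => ((n + j) / d) % q' = r' % q') := by
        ext j
        simp only [Finset.mem_filter]
        rw [cond_iff d q' r' (n + j) hd]
        tauto
      rw [e2, Finset.sum_filter]
      refine Finset.sum_congr rfl fun j hj => ?_
      simp only [Finset.mem_filter, Finset.mem_Icc] at hj
      simp only [hg]
      obtain ⟨⟨hj1, hj2⟩, hdvd⟩ := hj
      by_cases hc : ((n + j) / d) % q' = r' % q'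
      · rw [if_pos hc, if_pos hc]
        obtain ⟨N', hN'⟩ := hdvd
        have hN'0 : N' ≠ 0 := by
          rintro rfl
          omega
        rw [hN', Nat.mul_div_cancel_left _ (by omega)]
        have : Om (d * N') = Om d + Om N' := by
          exact ArithmeticFunction.cardFactors_mul (by omega) hN'0
        rw [this, hb']
        unfold up
        rw [add_comm]
      · rw [if_neg hc, if_neg hc]
    rw [e1]
    set S := ∑ j ∈ (Finset.Icc 1 H).filter (fun j => d ∣ n + j), g ((n + j) / d)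
    have hc := cnt_bound (d * q') hq n H (d * r')
    set c : ℝ := (((Finset.Icc 1 H).filter
            (fun j => (n + j) % (d * q') = (d * r') % (d * q'))).card : ℝ)
    have e3 : S - c * M = (S - v) - (c - (H : ℝ) / ((d * q' : ℕ) : ℝ)) * M := by
      rw [hv]; ring
    rw [e3]
    calc |(S - v) - (c - (H : ℝ) / ((d * q' : ℕ) : ℝ)) * M|
        ≤ |S - v| + |(c - (H : ℝ) / ((d * q' : ℕ) : ℝ)) * M| := abs_sub _ _
      _ ≤ |S - v| + 1 := by
          rw [abs_mul]
          have : |c - (H : ℝ) / ((d * q' : ℕ) : ℝ)| * |M| ≤ 1 * 1 :=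
            mul_le_mul hc hMabs (abs_nonneg _) zero_le_one
          linarith
  have hstep1 : ∑ n ∈ Finset.Icc 1 X, (1 / (n : ℝ)) *
        |∑ j ∈ (Finset.Icc 1 H).filter (fun j => (n + j) % (d * q') = (d * r') % (d * q')),
          (b (Om (n + j)) - M)| ≤
      (∑ n ∈ Finset.Icc 1 X, (1 / (n : ℝ)) *
        |(∑ j ∈ (Finset.Icc 1 H).filter (fun j => d ∣ n + j), g ((n + j) / d)) - v|) + LS X := by
    unfold LS
    rw [← Finset.sum_add_distrib]
    refine Finset.sum_le_sum fun n hn => ?_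
    have hn0 : (0 : ℝ) ≤ 1 / (n : ℝ) := by positivity
    calc (1 / (n : ℝ)) * _ ≤ (1 / (n : ℝ)) *
        (|(∑ j ∈ (Finset.Icc 1 H).filter (fun j => d ∣ n + j), g ((n + j) / d)) - v| + 1) :=
          mul_le_mul_of_nonneg_left (hinner n hn) hn0
      _ = _ := by ring
  have hstep2 := dilate d H X hd g hg2 v hv2
  -- comparison with the short sum
  set w : ℝ := (((H / d : ℕ) : ℝ)) / (q' : ℝ) * M' with hw
  have hwv : |w - v| ≤ 1 + H * (ε / 8) := by
    have e1 : w - v = ((((H / d : ℕ) : ℝ)) / (q' : ℝ) - (H : ℝ) / ((d * q' : ℕ) : ℝ)) * M' +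
        (H : ℝ) / ((d * q' : ℕ) : ℝ) * (M' - M) := by
      rw [hw, hv]; ring
    have e2 : |(((H / d : ℕ) : ℝ)) / (q' : ℝ) - (H : ℝ) / ((d * q' : ℕ) : ℝ)| ≤ 1 := by
      have hd0 : (d : ℝ) ≠ 0 := by linarith
      have hq0 : (q' : ℝ) ≠ 0 := by linarith
      have e3 : (H : ℝ) / ((d * q' : ℕ) : ℝ) = ((H : ℝ) / d) / q' := by
        push_cast
        rw [div_div]
      rw [e3, ← sub_div, abs_div, abs_of_pos (by linarith : (0 : ℝ) < q')]
      have e4 : |(((H / d : ℕ) : ℝ)) - (H : ℝ) / d| ≤ 1 := by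
        have f1 : (((H / d : ℕ) : ℝ)) ≤ (H : ℝ) / d := Nat.cast_div_le
        have f2 : (H : ℝ) / d < ((H / d : ℕ) : ℝ) + 1 := by
          rw [div_lt_iff₀ (by linarith)]
          have := Nat.lt_mul_div_succ H (show 0 < d by omega)
          have h5 : H < d * (H / d + 1) := this
          have h6 : (H : ℝ) < ((d * (H / d + 1) : ℕ) : ℝ) := by exact_mod_cast h5
          push_cast at h6
          linarith
        rw [abs_le]
        constructor <;> linarith
      exact le_trans (div_le_self (abs_nonneg _) hq'R) e4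
    rw [e1]
    calc |((((H / d : ℕ) : ℝ)) / (q' : ℝ) - (H : ℝ) / ((d * q' : ℕ) : ℝ)) * M' +
        (H : ℝ) / ((d * q' : ℕ) : ℝ) * (M' - M)|
        ≤ |((((H / d : ℕ) : ℝ)) / (q' : ℝ) - (H : ℝ) / ((d * q' : ℕ) : ℝ)) * M'| +
          |(H : ℝ) / ((d * q' : ℕ) : ℝ) * (M' - M)| := abs_add_le _ _
      _ ≤ 1 + H * (ε / 8) := by
          rw [abs_mul, abs_mul, abs_of_nonneg hHq0]
          have f1 : |(((H / d : ℕ) : ℝ)) / (q' : ℝ) - (H : ℝ) / ((d * q' : ℕ) : ℝ)| * |M'| ≤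
              1 * 1 := mul_le_mul e2 hM'abs (abs_nonneg _) zero_le_one
          have f2 : (H : ℝ) / ((d * q' : ℕ) : ℝ) * |M' - M| ≤ H * (ε / 8) :=
            mul_le_mul hHq hlaw (abs_nonneg _) hH0R
          linarith
  have hcopn := hXc X hX1 b' hb'1 r' hcop
  have hstep3 : ∑ n ∈ Finset.Icc 1 X, (1 / (n : ℝ)) *
        |(∑ j ∈ Finset.Icc 1 (H / d), g (n + j)) - v| ≤
      ε / 4 * ((H / d : ℕ) : ℝ) * Real.log X + LS X * (1 + H * (ε / 8)) := by
    have e1 : ∀ n ∈ Finset.Icc 1 X, (1 / (n : ℝ)) *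
        |(∑ j ∈ Finset.Icc 1 (H / d), g (n + j)) - v| ≤
        (1 / (n : ℝ)) * |(∑ j ∈ (Finset.Icc 1 (H / d)).filter
          (fun j => (n + j) % q' = r' % q'), b' (Om (n + j))) - w| +
          (1 / (n : ℝ)) * (1 + H * (ε / 8)) := by
      intro n _
      have hn0 : (0 : ℝ) ≤ 1 / (n : ℝ) := by positivity
      rw [← mul_add]
      refine mul_le_mul_of_nonneg_left ?_ hn0
      have e2 : (∑ j ∈ Finset.Icc 1 (H / d), g (n + j)) =
          ∑ j ∈ (Finset.Icc 1 (H / d)).filter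
            (fun j => (n + j) % q' = r' % q'), b' (Om (n + j)) := by
        rw [Finset.sum_filter]
      rw [e2]
      set S := ∑ j ∈ (Finset.Icc 1 (H / d)).filter
            (fun j => (n + j) % q' = r' % q'), b' (Om (n + j))
      have e3 : S - v = (S - w) + (w - v) := by ring
      rw [e3]
      exact le_trans (abs_add_le _ _) (by linarith)
    refine le_trans (Finset.sum_le_sum e1) ?_
    rw [Finset.sum_add_distrib, ← Finset.sum_mul]
    have e4 : (∑ n ∈ Finset.Icc 1 X, (1 / (n : ℝ))) = LS X := rfl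
    rw [e4]
    have e5 : ∑ n ∈ Finset.Icc 1 X, (1 / (n : ℝ)) * |(∑ j ∈ (Finset.Icc 1 (H / d)).filter
          (fun j => (n + j) % q' = r' % q'), b' (Om (n + j))) - w| ≤
          ε / 4 * ((H / d : ℕ) : ℝ) * Real.log X := hcopn
    linarith
  have hHd : ((H / d : ℕ) : ℝ) ≤ H := by exact_mod_cast Nat.div_le_self H d
  have hl0 : 0 ≤ Real.log X := by linarith
  have hLS2 : LS X ≤ 2 * Real.log X := by linarith
  have f1 : ε / 4 * ((H / d : ℕ) : ℝ) * Real.log X ≤ ε / 4 * H * Real.log X := by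
    refine mul_le_mul_of_nonneg_right ?_ hl0
    exact mul_le_mul_of_nonneg_left hHd (by positivity)
  have f2 : LS X * (1 + H * (ε / 8)) ≤ 2 * Real.log X * (1 + H * (ε / 8)) :=
    mul_le_mul_of_nonneg_right hLS2 (by positivity)
  have f3 : 8 ≤ ε / 4 * H := by
    have h1 : 32 / ε ≤ (H : ℝ) := le_trans hHe (by exact_mod_cast hH2)
    rw [div_le_iff₀ hε] at h1
    linarith
  have f4 : 8 * Real.log X ≤ ε / 4 * H * Real.log X := mul_le_mul_of_nonneg_right f3 hl0
  have f5 : 4 * (d : ℝ) * H ≤ ε / 4 * H * Real.log X := by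
    rw [div_le_iff₀ hε] at hlog2
    have : 4 * (d : ℝ) ≤ ε / 4 * Real.log X := by linarith
    calc 4 * (d : ℝ) * H ≤ (ε / 4 * Real.log X) * H := mul_le_mul_of_nonneg_right this hH0R
      _ = _ := by ring
  have hfin : ∑ n ∈ Finset.Icc 1 X, (1 / (n : ℝ)) *
        |∑ j ∈ (Finset.Icc 1 H).filter (fun j => (n + j) % (d * q') = (d * r') % (d * q')),
          (b (Om (n + j)) - M)| ≤
      (ε / 4 * H * Real.log X + 2 * Real.log X * (1 + H * (ε / 8))) + 2 * LS X + 4 * d * H +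
        LS X := by
    linarith
  nlinarith [hfin, f4, f5, hLS2]

theorem mrap_of (h0 : MRCHI0) (h1 : MRCHI1) (hl : LAW1) : MRAP := by
  intro q hq ε hε
  have hC : COP := cop_of h0 h1
  have hk := fun r : Fin q => key hC hl q hq r ε hε
  choose H0 hH0 using hk
  refine ⟨Finset.univ.sup H0, fun H hH => ?_⟩
  have hk2 := fun r : Fin q => hH0 r H (le_trans (Finset.le_sup (Finset.mem_univ r)) hH)
  choose X0 hX0 using hk2
  refine ⟨Finset.univ.sup X0, fun X hX b hb r => ?_⟩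
  have hr : r % q < q := Nat.mod_lt _ (by omega)
  have h := hX0 ⟨r % q, hr⟩ X (le_trans (Finset.le_sup (Finset.mem_univ _)) hX) b hb
  simpa only [Nat.mod_mod] using h

end MRB
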