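import Pool.Agent.Helper33.MRB.B09
import Pool.Agent.Helper33.MRB.C07
import Pool.Agent.Helper33.MRB.C08
import Pool.Agent.Helper33.MRB.C09
import Pool.Agent.Helper33.MRB.M04

/-!
# MRB: the blocks (B) and (C) of project MR
-/

set_option autoImplicit false

namespace MRB

open Finset MRP

theorem exp_of_chi (h0 : MRCHI0) (h1 : MRCHI1) (hl : LAW1) : EXP :=
  exp_of minor_holds (major_of (mrap_of h0 h1 hl))

theorem circ_of (h0 : MRCHI0) (h1 : MRCHI1) (hl : LAW1) : CIRC :=
  circ_of_exp (exp_of_chi h0 h1 hl)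

end MRB
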